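import Pool.Agent.Lib_MP_50c299_an.Core

/-!
# Relative equilibrium states and class degree: basic lemmas
-/

open MeasureTheory Filter Topology

namespace Pool.Agent.RelEq

variable {A B : Type}

@[simp] theorem sh_apply (t : ℤ) (x : ℤ → A) (i : ℤ) : sh t x i = x (i + t) := rfl

@[simp] theorem sh_zero (x : ℤ → A) : sh 0 x = x := by
  funext i; simp

theorem sh_sh (s t : ℤ) (x : ℤ → A) : sh s (sh t x) = sh (s + t) x := by
  funext i
  simp only [sh_apply]
  congr 1
  ring

theorem shift_eq (x : ℤ → A) : shift x = sh 1 x := rfl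

theorem shift_iterate (n : ℕ) (x : ℤ → A) : shift^[n] x = sh n x := by
  induction n with
  | zero => simp
  | succ n ih =>
    rw [Function.iterate_succ_apply', ih, shift_eq, sh_sh]
    congr 1
    push_cast
    ring

theorem bsum_eq (f : (ℤ → A) → ℝ) (n : ℕ) (x : ℤ → A) : bsum f n x = birkhoffSum shift f n x := by
  unfold bsum birkhoffSum
  exact Finset.sum_congr rfl fun t _ => by rw [shift_iterate]

theorem wd_apply (n : ℕ) (x : ℤ → A) (i : Fin n) : wd n x i = x (i : ℤ) := rfl

theorem wd_eq_iff (n : ℕ) (x x' : ℤ → A) :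
    wd n x = wd n x' ↔ ∀ i : ℤ, 0 ≤ i → i < n → x i = x' i := by
  constructor
  · intro h i h0 hi
    have := congrFun h ⟨i.toNat, by omega⟩
    simp only [wd_apply] at this
    rw [Int.toNat_of_nonneg h0] at this
    exact this
  · intro h
    funext i
    exact h _ (by omega) (by have := i.2; omega)

theorem measurable_sh [MeasurableSpace A] (t : ℤ) : Measurable (sh (A := A) t) :=
  measurable_pi_lambda _ fun _ => measurable_pi_apply _

theorem measurable_wd [MeasurableSpace A] (n : ℕ) : Measurable (wd (A := A) n) :=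
  measurable_pi_lambda _ fun _ => measurable_pi_apply _

theorem continuous_sh [TopologicalSpace A] (t : ℤ) : Continuous (sh (A := A) t) :=
  continuous_pi fun _ => continuous_apply _

theorem continuous_wd [TopologicalSpace A] (n : ℕ) : Continuous (wd (A := A) n) :=
  continuous_pi fun _ => continuous_apply _

section
variable [TopologicalSpace A] [Nonempty A]

theorem ext_mem {S : Sys A B} {M : ℕ} {u : Fin M → A} (h : AdmW S M u) : ext S M u ∈ S.X := by
  unfold ext
  unfold AdmW at h
  rw [dif_pos h]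
  exact h.choose_spec.1

theorem wd_ext {S : Sys A B} {M : ℕ} {u : Fin M → A} (h : AdmW S M u) :
    wd M (ext S M u) = u := by
  unfold ext
  unfold AdmW at h
  rw [dif_pos h]
  exact h.choose_spec.2

end

section
variable [TopologicalSpace A]

theorem admW_wd {S : Sys A B} {M : ℕ} {x : ℤ → A} (h : x ∈ S.X) : AdmW S M (wd M x) :=
  ⟨x, h, rfl⟩

theorem imw_congr {S : Sys A B} {M : ℕ} {x x' : ℤ → A} (h : wd M x = wd M x') :
    imw S M x = imw S M x' := by
  rw [wd_eq_iff] at h
  funext i
  unfold imw
  apply S.loc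
  intro k hk1 hk2
  have hi := i.2
  exact h k (by omega) (by omega)

theorem imw_apply (S : Sys A B) (M : ℕ) (x : ℤ → A) (i : Fin (M - 2 * S.s)) :
    imw S M x i = S.π x ((i : ℤ) + S.s) := rfl

theorem imw_eq_wd (S : Sys A B) (M : ℕ) (x : ℤ → A) :
    imw S M x = wd (M - 2 * S.s) (sh S.s (S.π x)) := rfl

end

theorem Hent_nonneg {α : Type} [Fintype α] {p : α → ℝ} (hp : IsLaw p) : 0 ≤ Hent p := by
  unfold Hent
  refine Finset.sum_nonneg fun a _ => Real.negMulLog_nonneg (hp.nonneg a) ?_
  rw [← hp.sum_one]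
  exact Finset.single_le_sum (fun b _ => hp.nonneg b) (Finset.mem_univ a)

theorem IsLaw.le_one {α : Type} [Fintype α] {p : α → ℝ} (hp : IsLaw p) (a : α) : p a ≤ 1 := by
  rw [← hp.sum_one]
  exact Finset.single_le_sum (fun b _ => hp.nonneg b) (Finset.mem_univ a)

theorem Hent_equiv {α β : Type} [Fintype α] [Fintype β] (e : α ≃ β) (p : β → ℝ) :
    Hent (fun a => p (e a)) = Hent p := by
  unfold Hent
  exact Equiv.sum_comp e fun b => Real.negMulLog (p b)

theorem ind_mul_self (P : Prop) : ind P * ind P = ind P := by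
  by_cases h : P
  · rw [ind_pos h]; norm_num
  · rw [ind_neg h]; norm_num

/-- Partition of a sum according to the value of a function. -/
theorem sum_ind_eq {γ : Type} [Fintype γ] (c : γ) (h : γ → ℝ) :
    ∑ d, ind (c = d) * h d = h c := by
  classical
  rw [Finset.sum_eq_single c]
  · rw [ind_pos rfl, one_mul]
  · intro d _ hd
    rw [ind_neg (fun hc => hd hc.symm), zero_mul]
  · intro h
    exact absurd (Finset.mem_univ c) h

theorem sum_ind_eq' {γ : Type} [Fintype γ] (c : γ) (h : γ → ℝ) :
    ∑ d, ind (d = c) * h d = h c := by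
  rw [← sum_ind_eq c h]
  exact Finset.sum_congr rfl fun d _ => by rw [ind_congr eq_comm]


section
variable [Nonempty A]

theorem exists_factor {γ : Type} (G : (ℤ → A) → γ) (n : ℕ) (t : ℤ)
    (hG : ∀ x x' : ℤ → A, wd n (sh t x) = wd n (sh t x') → G x = G x') :
    ∃ h : (Fin n → A) → γ, ∀ x, G x = h (wd n (sh t x)) := by
  classical
  refine ⟨fun w => G (sh (-t) (fun i : ℤ =>
    if h : 0 ≤ i ∧ i < n then w ⟨i.toNat, by omega⟩ else Classical.arbitrary A)), fun x => ?_⟩
  apply hG
  rw [sh_sh]
  funext i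
  simp only [wd_apply, sh_apply]
  have h1 : (0 : ℤ) ≤ ((i : ℤ) + (t + -t)) ∧ ((i : ℤ) + (t + -t)) < n := by
    have := i.2
    omega
  rw [dif_pos h1]
  congr 1
  omega

theorem measurable_of_local {γ : Type} [MeasurableSpace γ] [Finite A] [MeasurableSpace A]
    [DiscreteMeasurableSpace A] (G : (ℤ → A) → γ) (n : ℕ) (t : ℤ)
    (hG : ∀ x x' : ℤ → A, wd n (sh t x) = wd n (sh t x') → G x = G x') : Measurable G := by
  obtain ⟨h, hh⟩ := exists_factor G n t hG
  have : G = h ∘ (wd n ∘ sh t) := funext hh
  rw [this]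
  exact (measurable_of_finite h).comp ((measurable_wd n).comp (measurable_sh t))

theorem continuous_of_local {γ : Type} [TopologicalSpace γ] [TopologicalSpace A]
    [DiscreteTopology A] (G : (ℤ → A) → γ) (n : ℕ) (t : ℤ)
    (hG : ∀ x x' : ℤ → A, wd n (sh t x) = wd n (sh t x') → G x = G x') : Continuous G := by
  obtain ⟨h, hh⟩ := exists_factor G n t hG
  have : G = h ∘ (wd n ∘ sh t) := funext hh
  rw [this]
  exact (continuous_of_discreteTopology (f := h)).comp ((continuous_wd n).comp (continuous_sh t))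

omit [Nonempty A] in
theorem Sys.π_local [TopologicalSpace A] (S : Sys A B) (i : ℤ) (x x' : ℤ → A)
    (h : wd (2 * S.s + 1) (sh (i - S.s) x) = wd (2 * S.s + 1) (sh (i - S.s) x')) :
    S.π x i = S.π x' i := by
  rw [wd_eq_iff] at h
  apply S.loc
  intro k h1 h2
  have := h (k - (i - S.s)) (by omega) (by push_cast; omega)
  simpa using this

theorem Sys.measurable_π [TopologicalSpace A] [Finite A] [MeasurableSpace A]
    [DiscreteMeasurableSpace A] [MeasurableSpace B] (S : Sys A B) : Measurable S.π :=
  measurable_pi_lambda _ fun i => measurable_of_local (fun x => S.π x i) (2 * S.s + 1) (i - S.s)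
    (S.π_local i)

theorem Sys.continuous_π [TopologicalSpace A] [DiscreteTopology A] [TopologicalSpace B]
    (S : Sys A B) : Continuous S.π :=
  continuous_pi fun i => continuous_of_local (fun x => S.π x i) (2 * S.s + 1) (i - S.s)
    (S.π_local i)

end

end Pool.Agent.RelEq
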