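import Pool.Agent.Lib_MP_50c299_an.Gibbs

/-!
# Block entropies of an invariant measure
-/

open MeasureTheory Filter Topology

namespace Pool.Agent.RelEq

variable {A B : Type} [Fintype A] [Nonempty A] [TopologicalSpace A] [DiscreteTopology A]
  [MeasurableSpace A] [DiscreteMeasurableSpace A]

omit [Nonempty A] [TopologicalSpace A] [DiscreteTopology A] in
theorem measurableSet_wd_eq (n : ℕ) (w : Fin n → A) : MeasurableSet {x : ℤ → A | wd n x = w} :=
  measurable_wd n (measurableSet_singleton w)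

omit [Nonempty A] [TopologicalSpace A] [DiscreteTopology A] in
theorem wl_isLaw (μ : Measure (ℤ → A)) [IsProbabilityMeasure μ] (n : ℕ) : IsLaw (wl μ n) := by
  refine ⟨fun w => measureReal_nonneg, ?_⟩
  have h := sum_measureReal_preimage_singleton (μ := μ) (f := wd (A := A) n) Finset.univ
    (fun w _ => measurableSet_wd_eq n w)
  rw [Finset.coe_univ, Set.preimage_univ, probReal_univ] at h
  exact h

omit [Nonempty A] [TopologicalSpace A] [DiscreteTopology A] in
/-- Averages of functions of the word in the window `[0, n)`. -/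
theorem sum_wl_mul (μ : Measure (ℤ → A)) [IsProbabilityMeasure μ] (n : ℕ)
    (ψ : (Fin n → A) → ℝ) : ∑ w, wl μ n w * ψ w = ∫ x, ψ (wd n x) ∂μ := by
  have h1 : ∫ x, ψ (wd n x) ∂μ = ∫ w, ψ w ∂(μ.map (wd n)) := by
    rw [integral_map (measurable_wd n).aemeasurable
      (measurable_of_finite ψ).aestronglyMeasurable]
  have : IsProbabilityMeasure (μ.map (wd (A := A) n)) :=
    Measure.isProbabilityMeasure_map (measurable_wd n).aemeasurable
  rw [h1, integral_fintype (Integrable.of_finite)]
  refine Finset.sum_congr rfl fun w _ => ?_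
  rw [smul_eq_mul, map_measureReal_apply (measurable_wd n) (measurableSet_singleton w)]
  rfl

omit [Nonempty A] [TopologicalSpace A] [DiscreteTopology A] in
theorem bent_eq_integral (μ : Measure (ℤ → A)) [IsProbabilityMeasure μ] (n : ℕ) :
    bent μ n = ∫ x, -Real.log (wl μ n (wd n x)) ∂μ := by
  rw [← sum_wl_mul μ n (fun w => -Real.log (wl μ n w))]
  unfold bent Hent Real.negMulLog
  exact Finset.sum_congr rfl fun w _ => by ring

omit [TopologicalSpace A] [DiscreteTopology A] in
theorem bent_le (μ : Measure (ℤ → A)) [IsProbabilityMeasure μ] (n : ℕ) :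
    bent μ n ≤ n * Real.log (Fintype.card A) := by
  have hc : (0 : ℝ) < Fintype.card A := by exact_mod_cast Fintype.card_pos
  have hcn : (0 : ℝ) < (Fintype.card A : ℝ) ^ n := by positivity
  have hl := wl_isLaw μ n
  have h := gibbs hl (q := fun _ => ((Fintype.card A : ℝ) ^ n)⁻¹) (fun _ => by positivity)
    (by
      rw [Finset.sum_const, Finset.card_univ, Fintype.card_fun, Fintype.card_fin, nsmul_eq_mul]
      push_cast
      rw [mul_inv_cancel₀ hcn.ne']) (fun _ _ => by positivity)
  rw [← Finset.sum_mul, hl.sum_one, one_mul, Real.log_inv, Real.log_pow, neg_neg] at h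
  exact h

omit [Nonempty A] [TopologicalSpace A] [DiscreteTopology A] in
theorem wl_shift (μ : Measure (ℤ → A)) (hμ : Inv μ) (n : ℕ) (t : ℤ) (w : Fin n → A) :
    μ.real {x | wd n (sh t x) = w} = wl μ n w := by
  have h := (hμ t).measure_preimage (measurableSet_wd_eq n w).nullMeasurableSet
  unfold wl Measure.real
  rw [← h]
  rfl

omit [Fintype A] [Nonempty A] [TopologicalSpace A] [DiscreteTopology A] [MeasurableSpace A]
  [DiscreteMeasurableSpace A] in
theorem wd_castAdd (m n : ℕ) (x : ℤ → A) :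
    (fun i : Fin m => wd (m + n) x (Fin.castAdd n i)) = wd m x := by
  funext i
  simp [wd_apply]

omit [Fintype A] [Nonempty A] [TopologicalSpace A] [DiscreteTopology A] [MeasurableSpace A]
  [DiscreteMeasurableSpace A] in
theorem wd_natAdd (m n : ℕ) (x : ℤ → A) :
    (fun i : Fin n => wd (m + n) x (Fin.natAdd m i)) = wd n (sh m x) := by
  funext i
  simp only [wd_apply, sh_apply]
  congr 1
  simp
  ring

omit [Nonempty A] [TopologicalSpace A] [DiscreteTopology A] in
theorem bent_subadd (μ : Measure (ℤ → A)) [IsProbabilityMeasure μ] (hμ : Inv μ) (m n : ℕ) :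
    bent μ (m + n) ≤ bent μ m + bent μ n := by
  classical
  set q₁ : (Fin (m + n) → A) → ℝ := fun w => wl μ m (fun i => w (Fin.castAdd n i)) with hq₁
  set q₂ : (Fin (m + n) → A) → ℝ := fun w => wl μ n (fun i => w (Fin.natAdd m i)) with hq₂
  have hl := wl_isLaw μ (m + n)
  have hle₁ : ∀ w, wl μ (m + n) w ≤ q₁ w := by
    intro w
    refine measureReal_mono ?_ (measure_ne_top _ _)
    intro x hx
    have hx' : wd (m + n) x = w := hx
    show wd m x = _
    rw [← wd_castAdd m n x, hx']
  have hle₂ : ∀ w, wl μ (m + n) w ≤ q₂ w := by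
    intro w
    rw [hq₂]
    simp only
    rw [← wl_shift μ hμ n m]
    refine measureReal_mono ?_ (measure_ne_top _ _)
    intro x hx
    have hx' : wd (m + n) x = w := hx
    show wd n (sh m x) = _
    rw [← wd_natAdd m n x, hx']
  have hpos : ∀ w, wl μ (m + n) w ≠ 0 → q₁ w ≠ 0 ∧ q₂ w ≠ 0 := by
    intro w hw
    have h0 : 0 < wl μ (m + n) w := lt_of_le_of_ne (hl.nonneg w) (Ne.symm hw)
    exact ⟨(h0.trans_le (hle₁ w)).ne', (h0.trans_le (hle₂ w)).ne'⟩
  have hsum : ∑ w, q₁ w * q₂ w = 1 := by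
    rw [← (Fin.appendEquiv m n).sum_comp]
    rw [Fintype.sum_prod_type]
    simp only [hq₁, hq₂, Fin.appendEquiv_apply, Fin.append_left, Fin.append_right]
    have h1 := (wl_isLaw μ m).sum_one
    have h2 := (wl_isLaw μ n).sum_one
    calc ∑ u, ∑ v, wl μ m u * wl μ n v = ∑ u, wl μ m u * ∑ v, wl μ n v :=
          Finset.sum_congr rfl fun u _ => by rw [Finset.mul_sum]
      _ = 1 := by rw [← Finset.sum_mul, h1, h2, one_mul]
  have hg := gibbs hl (q := fun w => q₁ w * q₂ w)
    (fun w => mul_nonneg measureReal_nonneg measureReal_nonneg) hsum.le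
    (fun w hw => mul_ne_zero (hpos w hw).1 (hpos w hw).2)
  refine hg.trans_eq ?_
  have hterm : ∀ w, wl μ (m + n) w * (-Real.log (q₁ w * q₂ w)) =
      wl μ (m + n) w * (-Real.log (q₁ w)) + wl μ (m + n) w * (-Real.log (q₂ w)) := by
    intro w
    by_cases hw : wl μ (m + n) w = 0
    · rw [hw]; ring
    · rw [Real.log_mul (hpos w hw).1 (hpos w hw).2]; ring
  rw [Finset.sum_congr rfl fun w _ => hterm w, Finset.sum_add_distrib, sum_wl_mul μ (m + n),
    sum_wl_mul μ (m + n), bent_eq_integral μ m, bent_eq_integral μ n]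
  simp only [hq₁, hq₂, wd_castAdd, wd_natAdd]
  congr 1
  have h := (hμ (m : ℤ)).map_eq
  have h3 : ∫ x, -Real.log (wl μ n (wd n x)) ∂μ =
      ∫ x, -Real.log (wl μ n (wd n x)) ∂(μ.map (sh (m : ℤ))) := by rw [h]
  rw [h3, integral_map (measurable_sh _).aemeasurable]
  exact ((measurable_of_finite fun w : Fin n → A => -Real.log (wl μ n w)).comp
    (measurable_wd n)).aestronglyMeasurable

omit [Nonempty A] [TopologicalSpace A] [DiscreteTopology A] in
theorem bent_nonneg (μ : Measure (ℤ → A)) [IsProbabilityMeasure μ] (n : ℕ) : 0 ≤ bent μ n :=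
  Hent_nonneg (wl_isLaw μ n)

omit [Nonempty A] [TopologicalSpace A] [DiscreteTopology A] in
theorem hrate_bdd (μ : Measure (ℤ → A)) [IsProbabilityMeasure μ] :
    BddBelow (Set.range fun n : ℕ => bent μ (n + 1) / ((n : ℝ) + 1)) := by
  refine ⟨0, ?_⟩
  rintro _ ⟨n, rfl⟩
  exact div_nonneg (bent_nonneg μ _) (by positivity)

omit [Nonempty A] [TopologicalSpace A] [DiscreteTopology A] in
theorem hrate_le (μ : Measure (ℤ → A)) [IsProbabilityMeasure μ] (hμ : Inv μ) (n : ℕ) :
    n * hrate μ ≤ bent μ n := by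
  rcases n with _ | n
  · simpa using bent_nonneg μ 0
  · have h := ciInf_le (hrate_bdd μ) n
    have h1 : (0 : ℝ) < (n : ℝ) + 1 := by positivity
    rw [le_div_iff₀ h1] at h
    push_cast
    rw [mul_comm]
    exact h

omit [Nonempty A] [TopologicalSpace A] [DiscreteTopology A] in
theorem tendsto_bent (μ : Measure (ℤ → A)) [IsProbabilityMeasure μ] (hμ : Inv μ) :
    Tendsto (fun n : ℕ => bent μ n / n) atTop (𝓝 (hrate μ)) := by
  have hsub : Subadditive (fun n => bent μ n) := fun m n => bent_subadd μ hμ m n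
  have hb : BddBelow (Set.range fun n : ℕ => bent μ n / n) := by
    refine ⟨0, ?_⟩
    rintro _ ⟨n, rfl⟩
    exact div_nonneg (bent_nonneg μ _) (by positivity)
  have h := hsub.tendsto_lim hb
  have he : hsub.lim = hrate μ := by
    unfold Subadditive.lim hrate iInf
    congr 1
    ext y
    simp only [Set.mem_image, Set.mem_Ici, Set.mem_range]
    constructor
    · rintro ⟨k, hk, rfl⟩
      refine ⟨k - 1, ?_⟩
      obtain ⟨j, rfl⟩ : ∃ j, k = j + 1 := ⟨k - 1, by omega⟩
      simp
    · rintro ⟨k, rfl⟩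
      refine ⟨k + 1, by omega, ?_⟩
      simp
  rw [he] at h
  exact h

end Pool.Agent.RelEq
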