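import Pool.Agent.Lib_MP_50c299_an.SFT

/-!
# Factor codes are block codes
-/

open MeasureTheory Filter Topology

namespace Pool.Agent.RelEq

variable {A B : Type} [Fintype A] [Nonempty A] [TopologicalSpace A] [DiscreteTopology A]
  [MeasurableSpace A] [DiscreteMeasurableSpace A]
  [Fintype B] [TopologicalSpace B] [DiscreteTopology B] [MeasurableSpace B]
  [DiscreteMeasurableSpace B]

section
omit [Fintype A] [Nonempty A] [MeasurableSpace A] [DiscreteMeasurableSpace A]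

omit [DiscreteTopology A] in
/-- Neighbourhoods contain cylinders. -/
theorem chl_nhds (x : ℤ → A) {V : Set (ℤ → A)} (hV : V ∈ 𝓝 x) :
    ∃ n : ℕ, ∀ y : ℤ → A, (∀ k : ℤ, -(n : ℤ) ≤ k → k ≤ n → y k = x k) → y ∈ V := by
  rw [nhds_pi, Filter.mem_pi] at hV
  obtain ⟨I, hI, t, ht, hsub⟩ := hV
  obtain ⟨M, hM⟩ := hI.bddAbove
  obtain ⟨m, hm⟩ := hI.bddBelow
  refine ⟨M.natAbs + m.natAbs, fun y hy => hsub ?_⟩
  intro i hi
  have h1 : i ≤ M := hM hi
  have h2 : m ≤ i := hm hi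
  rw [hy i (by omega) (by omega)]
  exact mem_of_mem_nhds (ht i)

end

section
omit [MeasurableSpace A] [DiscreteMeasurableSpace A] [MeasurableSpace B]
  [DiscreteMeasurableSpace B] [Nonempty A] [Fintype B]

/-- The coordinate at `0` of the image depends on finitely many coordinates. -/
theorem chl_radius {X : Set (ℤ → A)} {π : (ℤ → A) → (ℤ → B)} (hX : IsClosed X)
    (hπ : ContinuousOn π X) :
    ∃ s : ℕ, ∀ x ∈ X, ∀ x' ∈ X, (∀ k : ℤ, -(s : ℤ) ≤ k → k ≤ s → x k = x' k) →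
      π x 0 = π x' 0 := by
  classical
  have hc : IsCompact X := hX.isCompact
  have hex : ∀ x ∈ X, ∃ n : ℕ, ∀ y ∈ X, (∀ k : ℤ, -(n : ℤ) ≤ k → k ≤ n → y k = x k) →
      π y 0 = π x 0 := by
    intro x hx
    have h1 : ContinuousWithinAt (fun y => π y 0) X x :=
      ((continuous_apply (0 : ℤ)).continuousAt.comp_continuousWithinAt (hπ x hx))
    have h2 : {y | π y 0 = π x 0} ∈ 𝓝[X] x := by
      have : ({π x 0} : Set B) ∈ 𝓝 (π x 0) := by
        simp
      exact h1 this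
    rw [mem_nhdsWithin_iff_exists_mem_nhds_inter] at h2
    obtain ⟨u, hu, hsub⟩ := h2
    obtain ⟨n, hn⟩ := chl_nhds x hu
    exact ⟨n, fun y hy hyx => hsub ⟨hn y hyx, hy⟩⟩
  choose! N hN using hex
  have hnb : ∀ x ∈ X, {y : ℤ → A | ∀ k : ℤ, -(N x : ℤ) ≤ k → k ≤ N x → y k = x k} ∈ 𝓝 x := by
    intro x _
    rw [nhds_pi, Filter.mem_pi]
    refine ⟨Set.Icc (-(N x : ℤ)) (N x), Set.finite_Icc _ _, fun k => {x k}, fun k => by simp, ?_⟩
    intro y hy k h1 h2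
    exact hy k ⟨h1, h2⟩
  obtain ⟨T, hT, hcov⟩ := hc.elim_nhds_subcover _ hnb
  refine ⟨T.sup N, fun x hx x' hx' hxx' => ?_⟩
  have h3 := hcov hx
  simp only [Set.mem_iUnion] at h3
  obtain ⟨z, hz, hzx⟩ := h3
  have hle : N z ≤ T.sup N := Finset.le_sup hz
  rw [hN z (hT z hz) x hx hzx]
  rw [hN z (hT z hz) x' hx' ?_]
  intro k h1 h2
  rw [← hxx' k (by omega) (by omega)]
  exact hzx k h1 h2

end

section
omit [Fintype A] [Nonempty A] [TopologicalSpace A] [DiscreteTopology A]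
  [MeasurableSpace A] [DiscreteMeasurableSpace A]
  [Fintype B] [TopologicalSpace B] [DiscreteTopology B] [MeasurableSpace B]
  [DiscreteMeasurableSpace B]

theorem chl_comm_nat {X : Set (ℤ → A)} {π : (ℤ → A) → (ℤ → B)} (hX : IsSFT X)
    (hc : ∀ x ∈ X, π (shift x) = shift (π x)) (n : ℕ) (x : ℤ → A) (hx : x ∈ X) :
    π (sh n x) = sh n (π x) := by
  induction n with
  | zero => simp
  | succ n ih =>
    have h1 : sh ((n + 1 : ℕ) : ℤ) x = shift (sh n x) := by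
      rw [shift_eq, sh_sh]
      congr 1
      push_cast
      ring
    rw [h1, hc _ ((sft_inv hX n x).1 hx), ih, shift_eq, sh_sh]
    congr 1
    push_cast
    ring

theorem chl_comm {X : Set (ℤ → A)} {π : (ℤ → A) → (ℤ → B)} (hX : IsSFT X)
    (hc : ∀ x ∈ X, π (shift x) = shift (π x)) (t : ℤ) (x : ℤ → A) (hx : x ∈ X) :
    π (sh t x) = sh t (π x) := by
  rcases le_total 0 t with ht | ht
  · obtain ⟨n, rfl⟩ := Int.eq_ofNat_of_zero_le ht
    exact chl_comm_nat hX hc n x hx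
  · obtain ⟨n, hn⟩ := Int.eq_ofNat_of_zero_le (show 0 ≤ -t by omega)
    have hy : sh t x ∈ X := (sft_inv hX t x).1 hx
    have h1 := chl_comm_nat hX hc n (sh t x) hy
    have h2 : sh (n : ℤ) (sh t x) = x := by
      rw [sh_sh, ← hn]
      simp
    rw [h2] at h1
    rw [h1, sh_sh, ← hn]
    simp

end

/-- Curtis-Hedlund-Lyndon: a factor code is the restriction of a global block code. -/
theorem exists_sys {X : Set (ℤ → A)} {Y : Set (ℤ → B)} {π : (ℤ → A) → (ℤ → B)} (hX : IsSFT X)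
    (hπ : IsFactorCode X Y π) (hne : X.Nonempty) :
    ∃ S : Sys A B, S.X = X ∧ ∀ x ∈ X, S.π x = π x := by
  classical
  obtain ⟨x₀, hx₀⟩ := hne
  have hcl : IsClosed X := sft_closed hX
  obtain ⟨s, hs⟩ := chl_radius hcl hπ.continuousOn
  obtain ⟨r₀, hr₀⟩ := sft_glue hX
  let c : (ℤ → A) → B := fun x =>
    if h : ∃ x' ∈ X, ∀ k : ℤ, -(s : ℤ) ≤ k → k ≤ s → x' k = x k then π h.choose 0 else π x₀ 0
  have hc1 : ∀ x, ∀ x' ∈ X, (∀ k : ℤ, -(s : ℤ) ≤ k → k ≤ s → x' k = x k) → c x = π x' 0 := by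
    intro x x' hx' hxx'
    have h : ∃ x' ∈ X, ∀ k : ℤ, -(s : ℤ) ≤ k → k ≤ s → x' k = x k := ⟨x', hx', hxx'⟩
    simp only [c]
    rw [dif_pos h]
    refine hs _ h.choose_spec.1 x' hx' fun k h1 h2 => ?_
    rw [h.choose_spec.2 k h1 h2, hxx' k h1 h2]
  have hc2 : ∀ x x' : ℤ → A, (∀ k : ℤ, -(s : ℤ) ≤ k → k ≤ s → x k = x' k) → c x = c x' := by
    intro x x' hxx'
    by_cases h : ∃ z ∈ X, ∀ k : ℤ, -(s : ℤ) ≤ k → k ≤ s → z k = x k
    · obtain ⟨z, hz, hzx⟩ := h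
      rw [hc1 x z hz hzx, hc1 x' z hz fun k h1 h2 => by rw [hzx k h1 h2, hxx' k h1 h2]]
    · have h' : ¬ ∃ z ∈ X, ∀ k : ℤ, -(s : ℤ) ≤ k → k ≤ s → z k = x' k := by
        rintro ⟨z, hz, hzx⟩
        exact h ⟨z, hz, fun k h1 h2 => by rw [hzx k h1 h2, hxx' k h1 h2]⟩
      simp only [c]
      rw [dif_neg h, dif_neg h']
  refine ⟨⟨X, fun x i => c (sh i x), s, max r₀ (2 * s + 1), le_max_right _ _, hcl,
    fun t x hx => (sft_inv hX t x).1 hx, ?_, ?_,
    hr₀ _ (le_max_left _ _)⟩, rfl, ?_⟩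
  · intro x x' i h
    apply hc2
    intro k h1 h2
    simp only [sh_apply]
    exact h (k + i) (by omega) (by omega)
  · intro t x
    funext i
    simp only [sh_apply]
    rw [sh_sh]
  · intro x hx
    funext i
    simp only
    rw [hc1 (sh i x) (sh i x) ((sft_inv hX i x).1 hx) (fun _ _ _ => rfl),
      chl_comm hX hπ.comm i x hx]
    simp

end Pool.Agent.RelEq
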