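import Pool.Agent.Lib_MP_50c299_an.Basic

/-!
# Words of length M under a measure in the fibre
-/

open MeasureTheory Filter Topology

namespace Pool.Agent.RelEq

variable {A B : Type} [Fintype A] [Nonempty A] [TopologicalSpace A] [DiscreteTopology A]
  [MeasurableSpace A] [DiscreteMeasurableSpace A]
  [Fintype B] [TopologicalSpace B] [DiscreteTopology B] [MeasurableSpace B]
  [DiscreteMeasurableSpace B]

theorem wl_adm {S : Sys A B} {μ : Measure (ℤ → A)} [IsProbabilityMeasure μ]
    (hμ : μ S.Xᶜ = 0) {M : ℕ} {u : Fin M → A} (h : wl μ M u ≠ 0) : AdmW S M u := by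
  by_contra hu
  apply h
  unfold wl
  have h1 : {x : ℤ → A | wd M x = u} ⊆ S.Xᶜ := by
    intro x hx hxX
    exact hu ⟨x, hxX, hx⟩
  have h2 : μ {x : ℤ → A | wd M x = u} = 0 := measure_mono_null h1 hμ
  rw [Measure.real, h2]
  rfl

/-- The expectation of a function of the word. -/
theorem sum_wl (S : Sys A B) {μ : Measure (ℤ → A)} [IsProbabilityMeasure μ]
    (hμ : μ S.Xᶜ = 0) (M : ℕ) (G : (ℤ → A) → ℝ)
    (hG : ∀ x x' : ℤ → A, wd M x = wd M x' → G x = G x') :
    ∑ u, wl μ M u * G (ext S M u) = ∫ x, G x ∂μ := by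
  obtain ⟨h, hh⟩ := exists_factor G M 0 (fun x x' hx => hG x x' (by simpa using hx))
  have hh' : ∀ x, G x = h (wd M x) := fun x => by simpa using hh x
  have h1 : ∫ x, G x ∂μ = ∫ w, h w ∂(μ.map (wd M)) := by
    rw [integral_map (measurable_wd M).aemeasurable
      (measurable_of_finite h).aestronglyMeasurable]
    exact integral_congr_ae (Eventually.of_forall hh')
  have : IsProbabilityMeasure (μ.map (wd M)) :=
    Measure.isProbabilityMeasure_map (measurable_wd M).aemeasurable
  rw [h1, integral_fintype Integrable.of_finite]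
  refine Finset.sum_congr rfl fun u _ => ?_
  have h2 : (μ.map (wd M)).real {u} = wl μ M u := by
    unfold wl
    rw [map_measureReal_apply (measurable_wd M) (measurableSet_singleton u)]
    rfl
  rw [h2, smul_eq_mul]
  by_cases h0 : wl μ M u = 0
  · rw [h0, zero_mul, zero_mul]
  · rw [hh', wd_ext (wl_adm hμ h0)]

/-- The distribution of the image word. -/
theorem wl_img {S : Sys A B} {ν : Measure (ℤ → B)} {μ : Measure (ℤ → A)}
    (hν : Inv ν) (hμ : InFib S ν μ) (M : ℕ) (c : Fin (M - 2 * S.s) → B) :
    ∑ u, ind (imw S M (ext S M u) = c) * wl μ M u = wl ν (M - 2 * S.s) c := by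
  have := hμ.prob
  have h1 := sum_wl S hμ.supp M (fun x => ind (imw S M x = c))
    (fun x x' hx => by
      show ind (imw S M x = c) = ind (imw S M x' = c)
      rw [imw_congr hx])
  have h2 : ∑ u, ind (imw S M (ext S M u) = c) * wl μ M u =
      ∑ u, wl μ M u * ind (imw S M (ext S M u) = c) :=
    Finset.sum_congr rfl fun u _ => mul_comm _ _
  rw [h2, h1]
  set E : Set (ℤ → B) := {y | wd (M - 2 * S.s) (sh S.s y) = c} with hE
  have hEm : MeasurableSet E :=
    ((measurable_wd (A := B) (M - 2 * S.s)).comp (measurable_sh (S.s : ℤ)))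
      (measurableSet_singleton c)
  have h3 : ∫ x, ind (imw S M x = c) ∂μ = μ.real (S.π ⁻¹' E) := by
    have h4 : (fun x => ind (imw S M x = c)) = (S.π ⁻¹' E).indicator (fun _ => (1 : ℝ)) := by
      funext x
      by_cases hx : imw S M x = c
      · rw [ind_pos hx, Set.indicator_of_mem]
        show wd (M - 2 * S.s) (sh S.s (S.π x)) = c
        rw [← imw_eq_wd]
        exact hx
      · rw [ind_neg hx, Set.indicator_of_notMem]
        intro hx'
        apply hx
        rw [imw_eq_wd]
        exact hx'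
    rw [h4, integral_indicator (S.measurable_π hEm)]
    simp
  rw [h3]
  unfold wl
  rw [Measure.real, Measure.real, hμ.img E hEm]
  congr 1
  have h5 := (hν S.s).measure_preimage
    (s := {y : ℤ → B | wd (M - 2 * S.s) y = c})
    ((measurable_wd (A := B) (M - 2 * S.s)) (measurableSet_singleton c)).nullMeasurableSet
  exact h5

omit [Fintype A] [Nonempty A] [TopologicalSpace A] [DiscreteTopology A]
  [DiscreteMeasurableSpace A] in
theorem marg_integral_bsum {μ : Measure (ℤ → A)} (hinv : Inv μ) (M : ℕ) (f : (ℤ → A) → ℝ)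
    (hf : Integrable f μ) :
    Integrable (bsum f M) μ ∧ ∫ x, bsum f M x ∂μ = M * ∫ x, f x ∂μ := by
  have h1 : ∀ t ∈ Finset.range M, Integrable (fun x => f (sh (t : ℤ) x)) μ := fun t _ =>
    (hinv (t : ℤ)).integrable_comp_of_integrable hf
  have h2 : ∀ t : ℤ, ∫ x, f (sh t x) ∂μ = ∫ x, f x ∂μ := by
    intro t
    have h3 := integral_map (μ := μ) (φ := sh t) (measurable_sh t).aemeasurable
      (f := f) (by rw [(hinv t).map_eq]; exact hf.aestronglyMeasurable)
    rw [(hinv t).map_eq] at h3
    exact h3.symm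
  constructor
  · unfold bsum
    exact integrable_finsetSum _ h1
  · unfold bsum
    rw [integral_finsetSum _ h1, Finset.sum_congr rfl fun (t : ℕ) _ => h2 (t : ℤ)]
    simp

/-- A lower bound for the expectation of an almost additive function of words. -/
theorem energy_init (S : Sys A B) {μ : Measure (ℤ → A)} [IsProbabilityMeasure μ]
    (hμ : μ S.Xᶜ = 0) (hinv : Inv μ) (M : ℕ) (f : (ℤ → A) → ℝ) (hf : Continuous f) (K : ℝ)
    (hB : ∀ n : ℕ, ∀ x ∈ S.X, ∀ x' ∈ S.X, (∀ i : ℤ, 0 ≤ i → i < n → x i = x' i) →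
      |bsum f n x - bsum f n x'| ≤ K) :
    M * ∫ x, f x ∂μ - K ≤ ∑ u, wl μ M u * bsum f M (ext S M u) := by
  have : OpensMeasurableSpace A := ⟨fun _ _ => MeasurableSet.of_discrete⟩
  have : BorelSpace A := ⟨by
    rw [borel_eq_top_of_discrete]
    exact le_antisymm le_top (fun _ _ => MeasurableSet.of_discrete)⟩
  have : SecondCountableTopology A := inferInstance
  have hfm : Measurable f := hf.measurable
  obtain ⟨C, hC⟩ := (isCompact_univ (X := ℤ → A)).exists_bound_of_continuousOn hf.continuousOn
  have hfi : Integrable f μ :=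
    Integrable.of_bound hfm.aestronglyMeasurable C
      (Eventually.of_forall fun x => hC x (Set.mem_univ x))
  obtain ⟨hbi, hbe⟩ := marg_integral_bsum hinv M f hfi
  set G : (ℤ → A) → ℝ := fun x => bsum f M (ext S M (wd M x)) with hG
  have hGc : ∀ x x' : ℤ → A, wd M x = wd M x' → G x = G x' := by
    intro x x' hx
    simp only [hG]
    rw [hx]
  have hGm : Measurable G :=
    (measurable_of_finite (fun w => bsum f M (ext S M w))).comp (measurable_wd M)
  have h1 := sum_wl S hμ M G hGc
  have h2 : ∑ u, wl μ M u * bsum f M (ext S M u) = ∑ u, wl μ M u * G (ext S M u) := by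
    refine Finset.sum_congr rfl fun u _ => ?_
    by_cases h0 : wl μ M u = 0
    · rw [h0, zero_mul, zero_mul]
    · simp only [hG]
      rw [wd_ext (wl_adm hμ h0)]
  rw [h2, h1, ← hbe]
  have hX : ∀ᵐ x ∂μ, x ∈ S.X := by
    rw [ae_iff]
    exact hμ
  have hle : ∀ᵐ x ∂μ, |bsum f M x - G x| ≤ K := by
    filter_upwards [hX] with x hx
    have hadm : AdmW S M (wd M x) := admW_wd hx
    refine hB M x hx _ (ext_mem hadm) ?_
    rw [← wd_eq_iff]
    exact (wd_ext hadm).symm
  have hGi : Integrable G μ := by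
    have h3 : Integrable (fun x => bsum f M x - G x) μ := by
      refine Integrable.of_bound (hbi.aestronglyMeasurable.sub hGm.aestronglyMeasurable) K ?_
      filter_upwards [hle] with x hx
      simpa [Real.norm_eq_abs] using hx
    have h4 := hbi.sub h3
    refine h4.congr (Eventually.of_forall fun x => ?_)
    simp
  have h5 : ∫ x, (bsum f M x - K) ∂μ ≤ ∫ x, G x ∂μ := by
    refine integral_mono_ae (hbi.sub (integrable_const K)) hGi ?_
    filter_upwards [hle] with x hx
    have := (abs_le.1 hx).2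
    show bsum f M x - K ≤ G x
    linarith
  rw [integral_sub hbi (integrable_const K)] at h5
  simpa using h5

end Pool.Agent.RelEq
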