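import Pool.Agent.Lib_MP_50c299_an.Coup
import Pool.Agent.Lib_MP_50c299_an.Marg
import Pool.Agent.Lib_MP_50c299_an.BlockEnt

/-!
# The coupling: its basic properties and the expected number of errors
-/

open MeasureTheory Filter Topology

namespace Pool.Agent.RelEq

variable {A B : Type} [Fintype A] [Nonempty A] [TopologicalSpace A] [DiscreteTopology A]
  [MeasurableSpace A] [DiscreteMeasurableSpace A]
  [Fintype B] [TopologicalSpace B] [DiscreteTopology B] [MeasurableSpace B]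
  [DiscreteMeasurableSpace B]

section
variable {S : Sys A B} {ν : Measure (ℤ → B)} {μ₁ μ₂ : Measure (ℤ → A)}

theorem lamb_isLaw (hν : Inv ν) (h₁ : InFib S ν μ₁) (h₂ : InFib S ν μ₂) (M : ℕ) :
    IsLaw (lamb S M ν μ₁ μ₂) := by
  haveI := h₁.prob
  haveI := h₂.prob
  exact coup_isLaw (wl_isLaw μ₁ M) (wl_isLaw μ₂ M) (wl_img hν h₁ M) (wl_img hν h₂ M)

theorem lamb_supp (hν : Inv ν) (h₁ : InFib S ν μ₁) (h₂ : InFib S ν μ₂) (M : ℕ) (z : PW A M)
    (hz : lamb S M ν μ₁ μ₂ z ≠ 0) : AdmP S M z := by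
  haveI := h₁.prob
  haveI := h₂.prob
  obtain ⟨a1, a2, a3⟩ := coup_supp hz
  exact ⟨wl_adm h₁.supp a1, wl_adm h₂.supp a2, a3⟩

theorem lamb_img (hν : Inv ν) (h₁ : InFib S ν μ₁) (h₂ : InFib S ν μ₂) (M : ℕ)
    (c : Fin (M - 2 * S.s) → B) :
    ∑ z, ind (imw S M (ext S M z.1) = c) * lamb S M ν μ₁ μ₂ z = wl ν (M - 2 * S.s) c := by
  haveI := h₁.prob
  haveI := h₂.prob
  exact coup_img (wl_isLaw μ₁ M) (wl_isLaw μ₂ M) (wl_img hν h₁ M) (wl_img hν h₂ M) c

theorem lamb_sum (hν : Inv ν) (h₁ : InFib S ν μ₁) (h₂ : InFib S ν μ₂) (M : ℕ)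
    (G H : (Fin M → A) → ℝ) :
    ∑ z, lamb S M ν μ₁ μ₂ z * (G z.1 + H z.2) =
      ∑ u, wl μ₁ M u * G u + ∑ u, wl μ₂ M u * H u := by
  haveI := h₁.prob
  haveI := h₂.prob
  have e1 : ∀ u, ∑ v, lamb S M ν μ₁ μ₂ (u, v) = wl μ₁ M u :=
    coup_fst (wl_isLaw μ₁ M) (wl_isLaw μ₂ M) (wl_img hν h₁ M) (wl_img hν h₂ M)
  have e2 : ∀ v, ∑ u, lamb S M ν μ₁ μ₂ (u, v) = wl μ₂ M v :=
    coup_snd (wl_isLaw μ₁ M) (wl_isLaw μ₂ M) (wl_img hν h₁ M) (wl_img hν h₂ M)
  simp only [mul_add, Finset.sum_add_distrib]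
  congr 1
  · rw [Fintype.sum_prod_type]
    refine Finset.sum_congr rfl fun u _ => ?_
    rw [← e1 u, Finset.sum_mul]
  · rw [Fintype.sum_prod_type_right]
    refine Finset.sum_congr rfl fun u _ => ?_
    rw [← e2 u, Finset.sum_mul]

theorem lamb_ent (hν : Inv ν) (h₁ : InFib S ν μ₁) (h₂ : InFib S ν μ₂) (M : ℕ) :
    Hent (lamb S M ν μ₁ μ₂) = bent μ₁ M + bent μ₂ M - bent ν (M - 2 * S.s) := by
  haveI := h₁.prob
  haveI := h₂.prob
  exact coup_ent (wl_isLaw μ₁ M) (wl_isLaw μ₂ M) (wl_img hν h₁ M) (wl_img hν h₂ M)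

omit [Fintype A] [Nonempty A] [TopologicalSpace A] [DiscreteTopology A] [MeasurableSpace A]
  [DiscreteMeasurableSpace A] in
theorem bit_sh (P : Par A) (x : ℤ → A) (b : ℤ) : bit P x b ↔ bit P (sh b x) 0 := by
  unfold bit
  have : ∀ t : ℕ, sh (0 + (t : ℤ)) (sh b x) = sh (b + t) x := by
    intro t
    rw [sh_sh]
    congr 1
    ring
  simp only [this]

omit [Fintype A] [Nonempty A] [TopologicalSpace A] [DiscreteTopology A] [MeasurableSpace A]
  [DiscreteMeasurableSpace A] in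
theorem bit_local (P : Par A) {M : ℕ} {x x' : ℤ → A} (h : wd M x = wd M x') (b : ℕ)
    (hb : b + P.V + P.q ≤ M) : bit P x b ↔ bit P x' b := by
  unfold bit
  rw [wd_eq_iff] at h
  have : ∀ t ∈ Finset.range P.V, P.φ (wd P.q (sh ((b : ℤ) + t) x)) =
      P.φ (wd P.q (sh ((b : ℤ) + t) x')) := by
    intro t ht
    rw [Finset.mem_range] at ht
    congr 1
    rw [wd_eq_iff]
    intro i h0 hi
    simp only [sh_apply]
    exact h _ (by omega) (by omega)
  rw [Finset.sum_congr rfl this]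

omit [Nonempty A] [TopologicalSpace A] [DiscreteTopology A] in
theorem measurableSet_bit (P : Par A) (b : ℤ) : MeasurableSet {x : ℤ → A | bit P x b} := by
  unfold bit
  refine measurableSet_lt measurable_const ?_
  refine Finset.measurable_fun_sum _ fun t _ => ?_
  exact (measurable_of_finite P.φ).comp ((measurable_wd _).comp (measurable_sh _))

omit [Fintype A] [Nonempty A] [TopologicalSpace A] [DiscreteTopology A]
  [DiscreteMeasurableSpace A] in
theorem integral_ind_errexp (μ : Measure (ℤ → A)) (Q : (ℤ → A) → Prop) (hQ : MeasurableSet {x | Q x}) :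
    ∫ x, ind (Q x) ∂μ = μ.real {x | Q x} := by
  classical
  have : (fun x : ℤ → A => ind (Q x)) = Set.indicator {x | Q x} (fun _ => (1 : ℝ)) := by
    funext x
    by_cases h : Q x
    · rw [ind_pos h, Set.indicator_of_mem (show x ∈ {x | Q x} from h)]
    · rw [ind_neg h, Set.indicator_of_notMem (show x ∉ {x | Q x} from h)]
  rw [this, integral_indicator hQ]
  simp

theorem err_exp (hν : Inv ν) (h₁ : InFib S ν μ₁) (h₂ : InFib S ν μ₂) (M : ℕ) (P : Par A)
    (hP : P.OK S) (κ : ℝ) (hκ₁ : μ₁.real {x | ¬ bit P x 0} ≤ κ)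
    (hκ₂ : μ₂.real {x | bit P x 0} ≤ κ) (a : ℕ) (ha : a + P.W ≤ M) :
    ∑ z, lamb S M ν μ₁ μ₂ z * (err S M P z a : ℝ) ≤ 2 * κ * P.J := by
  classical
  haveI := h₁.prob
  haveI := h₂.prob
  have hlaw := lamb_isLaw hν h₁ h₂ M
  set G : (Fin M → A) → ℝ := fun u =>
    ∑ k ∈ Finset.range P.J, ind (¬ bit P (ext S M u) ((a + k * P.V : ℕ) : ℤ)) with hG
  set H : (Fin M → A) → ℝ := fun u =>
    ∑ k ∈ Finset.range P.J, ind (bit P (ext S M u) ((a + k * P.V : ℕ) : ℤ)) with hH
  have herr : ∀ z : PW A M, (err S M P z a : ℝ) ≤ G z.1 + H z.2 := by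
    intro z
    have h1 : err S M P z a ≤ errA P (ext S M z.1) (ext S M z.2) a := min_le_left _ _
    refine (Nat.cast_le.2 h1).trans ?_
    unfold errA
    rw [Finset.card_filter, Nat.cast_sum, hG, hH, ← Finset.sum_add_distrib]
    refine Finset.sum_le_sum fun k _ => ?_
    have hcast : (a : ℤ) + ((k * P.V : ℕ) : ℤ) = ((a + k * P.V : ℕ) : ℤ) := by push_cast; ring
    rw [hcast]
    by_cases hb1 : bit P (ext S M z.1) ((a + k * P.V : ℕ) : ℤ)
    · by_cases hb2 : bit P (ext S M z.2) ((a + k * P.V : ℕ) : ℤ)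
      · rw [ind_pos hb2, ind_neg (not_not.2 hb1), if_pos (Or.inr hb2)]
        norm_num
      · rw [if_neg (by tauto)]
        have := ind_nonneg (¬ bit P (ext S M z.1) ((a + k * P.V : ℕ) : ℤ))
        have := ind_nonneg (bit P (ext S M z.2) ((a + k * P.V : ℕ) : ℤ))
        rw [Nat.cast_zero]
        linarith
    · rw [ind_pos hb1, if_pos (Or.inl hb1)]
      have := ind_nonneg (bit P (ext S M z.2) ((a + k * P.V : ℕ) : ℤ))
      rw [Nat.cast_one]
      linarith
  have hbd : ∀ k ∈ Finset.range P.J, a + k * P.V + P.V + P.q ≤ M := by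
    intro k hk
    rw [Finset.mem_range] at hk
    have h1 : (k + 1) * P.V ≤ P.J * P.V := Nat.mul_le_mul_right _ hk
    have h2 := hP.hq
    have h3 : P.W = P.J * P.V + P.pad := rfl
    have h4 : (k + 1) * P.V = k * P.V + P.V := by ring
    omega
  have hshift : ∀ (μ : Measure (ℤ → A)) (_ : Inv μ) (b : ℤ) (Q : Prop → Prop)
      (_ : MeasurableSet {x : ℤ → A | Q (bit P x 0)}),
      μ.real {x | Q (bit P x b)} = μ.real {x | Q (bit P x 0)} := by
    intro μ hμ b Q hQ
    rw [← (hμ b).measureReal_preimage hQ.nullMeasurableSet]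
    congr 1
    ext x
    simp only [Set.mem_preimage]
    exact iff_of_eq (congrArg Q (propext (bit_sh P x b)))
  have hmn : MeasurableSet {x : ℤ → A | ¬ bit P x 0} := (measurableSet_bit P 0).compl
  calc ∑ z, lamb S M ν μ₁ μ₂ z * (err S M P z a : ℝ)
      ≤ ∑ z, lamb S M ν μ₁ μ₂ z * (G z.1 + H z.2) :=
        Finset.sum_le_sum fun z _ => mul_le_mul_of_nonneg_left (herr z) (hlaw.nonneg z)
    _ = ∑ u, wl μ₁ M u * G u + ∑ u, wl μ₂ M u * H u := lamb_sum hν h₁ h₂ M G H
    _ = ∑ k ∈ Finset.range P.J, μ₁.real {x | ¬ bit P x 0}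
          + ∑ k ∈ Finset.range P.J, μ₂.real {x | bit P x 0} := by
        congr 1
        · simp only [hG, Finset.mul_sum]
          rw [Finset.sum_comm]
          refine Finset.sum_congr rfl fun k hk => ?_
          rw [sum_wl S h₁.supp M (fun x => ind (¬ bit P x ((a + k * P.V : ℕ) : ℤ)))
            (fun x x' hxx => ind_congr (not_congr (bit_local P hxx _ (hbd k hk)))),
            integral_ind_errexp μ₁ (fun x => ¬ bit P x ((a + k * P.V : ℕ) : ℤ))
              (measurableSet_bit P _).compl]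
          exact hshift μ₁ h₁.inv _ Not hmn
        · simp only [hH, Finset.mul_sum]
          rw [Finset.sum_comm]
          refine Finset.sum_congr rfl fun k hk => ?_
          rw [sum_wl S h₂.supp M (fun x => ind (bit P x ((a + k * P.V : ℕ) : ℤ)))
            (fun x x' hxx => ind_congr (bit_local P hxx _ (hbd k hk))),
            integral_ind_errexp μ₂ (fun x => bit P x ((a + k * P.V : ℕ) : ℤ))
              (measurableSet_bit P _)]
          exact hshift μ₂ h₂.inv _ id (measurableSet_bit P 0)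
    _ ≤ ∑ _k ∈ Finset.range P.J, κ + ∑ _k ∈ Finset.range P.J, κ :=
        add_le_add (Finset.sum_le_sum fun _ _ => hκ₁) (Finset.sum_le_sum fun _ _ => hκ₂)
    _ = 2 * κ * P.J := by
        rw [Finset.sum_const, Finset.card_range, nsmul_eq_mul]
        ring

end

end Pool.Agent.RelEq
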