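import Pool.Agent.Lib_MP_50c299_an.Basic

/-!
# From the frequency of two-way bridges to good blocks
-/

open MeasureTheory Filter Topology

namespace Pool.Agent.RelEq

variable {A B : Type} [Fintype A] [Nonempty A] [TopologicalSpace A]

omit [Fintype A] in
/-- The number of swap times is a sum of indicators. -/
theorem card_Gam (S : Sys A B) (M : ℕ) (P : Par A) (z : PW A M) (a : ℕ) :
    ((Gam S M P z a).card : ℝ) = ∑ o ∈ Finset.range (P.J * P.V),
      ind (Good S P.L ((a + o : ℕ) : ℤ) (ext S M z.1) (ext S M z.2)) := by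
  classical
  unfold Gam
  rw [Finset.card_filter]
  push_cast
  refine Finset.sum_congr rfl fun o _ => ?_
  split_ifs with h
  · rw [ind_pos h]
  · rw [ind_neg h]

theorem sum_blocks (g : ℕ → ℝ) (hg1 : ∀ t, g t ≤ 1) (N pad m : ℕ) :
    ∑ t ∈ Finset.range (m * (N + pad)), g t ≤
      ∑ i ∈ Finset.range m, ∑ o ∈ Finset.range N, g (i * (N + pad) + o) + m * pad := by
  induction m with
  | zero => simp
  | succ m ih =>
    have h1 : (m + 1) * (N + pad) = m * (N + pad) + (N + pad) := by ring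
    rw [h1, Finset.sum_range_add, Finset.sum_range_succ, Finset.sum_range_add]
    have h2 : ∑ x ∈ Finset.range pad, g (m * (N + pad) + (N + x)) ≤ pad := by
      calc ∑ x ∈ Finset.range pad, g (m * (N + pad) + (N + x))
          ≤ ∑ _x ∈ Finset.range pad, (1 : ℝ) := Finset.sum_le_sum fun x _ => hg1 _
        _ = pad := by simp
    push_cast
    linarith

theorem freqF (S : Sys A B) (M : ℕ) (P : Par A) (p : PW A M → ℝ) (hp : IsLaw p) (δ : ℝ)
    (hfreq : δ * M ≤ ∑ t ∈ Finset.range M, ∑ z : PW A M,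
      ind (Good S P.L t (ext S M z.1) (ext S M z.2)) * p z)
    (m : ℕ) (hm : m * P.W ≤ M) (hm' : M ≤ (m + 1) * P.W) (hθ : 0 ≤ P.θ) :
    δ * M - m * P.pad - P.W - m * P.θ ≤
      (P.J * P.V : ℕ) * ∑ i ∈ Finset.range m,
        ∑ z, p z * ind (P.θ ≤ (Gam S M P z (i * P.W : ℕ)).card) := by
  set g : ℕ → ℝ := fun t => ∑ z : PW A M,
      ind (Good S P.L t (ext S M z.1) (ext S M z.2)) * p z with hg
  have hg1 : ∀ t, g t ≤ 1 := by
    intro t
    rw [← hp.sum_one]
    refine Finset.sum_le_sum fun z _ => ?_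
    have := mul_le_mul_of_nonneg_right (ind_le_one (Good S P.L t (ext S M z.1) (ext S M z.2)))
      (hp.nonneg z)
    linarith
  -- the tail
  have h1 : ∑ t ∈ Finset.range M, g t ≤ ∑ t ∈ Finset.range (m * P.W), g t + P.W := by
    obtain ⟨k, hk⟩ : ∃ k, M = m * P.W + k := ⟨M - m * P.W, by omega⟩
    have hkW : k ≤ P.W := by
      rw [hk, add_mul, one_mul] at hm'
      omega
    rw [hk, Finset.sum_range_add]
    have h2 : ∑ x ∈ Finset.range k, g (m * P.W + x) ≤ k := by
      calc ∑ x ∈ Finset.range k, g (m * P.W + x) ≤ ∑ _x ∈ Finset.range k, (1 : ℝ) :=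
            Finset.sum_le_sum fun x _ => hg1 _
        _ = k := by simp
    have h3 : (k : ℝ) ≤ P.W := by exact_mod_cast hkW
    linarith
  have h2 := sum_blocks g hg1 (P.J * P.V) P.pad m
  change ∑ t ∈ Finset.range (m * P.W), g t ≤
      ∑ i ∈ Finset.range m, ∑ o ∈ Finset.range (P.J * P.V), g (i * P.W + o) + m * P.pad at h2
  have h3 : ∀ i, ∑ o ∈ Finset.range (P.J * P.V), g (i * P.W + o) ≤
      P.θ + (P.J * P.V : ℕ) * ∑ z, p z * ind (P.θ ≤ (Gam S M P z (i * P.W : ℕ)).card) := by
    intro i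
    have e1 : ∑ o ∈ Finset.range (P.J * P.V), g (i * P.W + o) =
        ∑ z, p z * ((Gam S M P z (i * P.W : ℕ)).card : ℝ) := by
      rw [hg]
      simp only
      rw [Finset.sum_comm]
      refine Finset.sum_congr rfl fun z _ => ?_
      rw [card_Gam, Finset.mul_sum]
      exact Finset.sum_congr rfl fun o _ => by ring
    rw [e1, Finset.mul_sum]
    have e2 : P.θ = ∑ z, p z * P.θ := by rw [← Finset.sum_mul, hp.sum_one, one_mul]
    conv_rhs => rw [e2]
    rw [← Finset.sum_add_distrib]
    refine Finset.sum_le_sum fun z _ => ?_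
    rw [← e2]
    have e3 : ((Gam S M P z (i * P.W : ℕ)).card : ℝ) ≤
        P.θ + (P.J * P.V : ℕ) * ind (P.θ ≤ (Gam S M P z (i * P.W : ℕ)).card) := by
      by_cases hc : P.θ ≤ (Gam S M P z (i * P.W : ℕ)).card
      · rw [ind_pos hc, mul_one]
        have : (Gam S M P z (i * P.W : ℕ)).card ≤ P.J * P.V := by
          classical
          unfold Gam
          refine (Finset.card_filter_le _ _).trans ?_
          rw [Finset.card_range]
        have : ((Gam S M P z (i * P.W : ℕ)).card : ℝ) ≤ (P.J * P.V : ℕ) := by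
          exact_mod_cast this
        linarith
      · rw [ind_neg hc, mul_zero, add_zero]
        exact (not_le.1 hc).le
    have := mul_le_mul_of_nonneg_left e3 (hp.nonneg z)
    linarith
  have h4 : ∑ i ∈ Finset.range m, ∑ o ∈ Finset.range (P.J * P.V), g (i * P.W + o) ≤
      ∑ i ∈ Finset.range m, (P.θ + (P.J * P.V : ℕ) *
        ∑ z, p z * ind (P.θ ≤ (Gam S M P z (i * P.W : ℕ)).card)) :=
    Finset.sum_le_sum fun i _ => h3 i
  rw [Finset.sum_add_distrib, ← Finset.mul_sum] at h4
  simp only [Finset.sum_const, Finset.card_range, nsmul_eq_mul] at h4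
  linarith

end Pool.Agent.RelEq
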