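import Pool.Agent.Lib_MP_50c299_an.Basic
import Pool.Agent.Lib_MP_68f671_pr.Birkhoff

/-!
# Typical averages
-/

open MeasureTheory Filter Topology

namespace Pool.Agent.RelEq

variable {A B : Type} [Fintype A] [Nonempty A] [TopologicalSpace A] [DiscreteTopology A]
  [MeasurableSpace A] [DiscreteMeasurableSpace A]

omit [Fintype A] [Nonempty A] [TopologicalSpace A] [DiscreteTopology A]
  [DiscreteMeasurableSpace A] in
theorem mean_erg_aux {μ : Measure (ℤ → A)} [IsProbabilityMeasure μ] (he : Ergodic shift μ)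
    (g : (ℤ → A) → ℝ) (hg : Measurable g) (C : ℝ) (hgC : ∀ x, |g x| ≤ C) (κ ϑ : ℝ) (hκ : 0 < κ)
    (hϑ : ∫ x, g x ∂μ < ϑ) :
    ∃ V₀ : ℕ, ∀ V ≥ V₀, μ.real {x | ϑ * V ≤ bsum g V x ∧ 0 < V} ≤ κ := by
  have hgi : Integrable g μ :=
    Integrable.of_bound hg.aestronglyMeasurable C (Eventually.of_forall hgC)
  have hb := Pool.Agent.RWPP.birkhoff he hgi
  have hmeas : ∀ V : ℕ, Measurable fun x => bsum g V x := fun V =>
    Finset.measurable_sum _ fun t _ => hg.comp (measurable_sh _)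
  have hbm : ∀ V : ℕ, AEStronglyMeasurable (fun x => birkhoffSum shift g V x / V) μ := fun V => by
    have : (fun x => birkhoffSum shift g V x / (V : ℝ)) = fun x => bsum g V x / V := by
      funext x
      rw [bsum_eq]
    rw [this]
    exact ((hmeas V).div_const _).aestronglyMeasurable
  have hconv : TendstoInMeasure μ (fun (V : ℕ) x => birkhoffSum shift g V x / V) atTop
      (fun _ => ∫ x, g x ∂μ) := tendstoInMeasure_of_tendsto_ae hbm hb
  rw [tendstoInMeasure_iff_measureReal_dist] at hconv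
  have h1 := hconv (ϑ - ∫ x, g x ∂μ) (by linarith)
  have h2 := (h1.eventually (gt_mem_nhds hκ)).exists_forall_of_atTop
  obtain ⟨V₀, hV₀⟩ := h2
  refine ⟨V₀, fun V hV => le_trans (measureReal_mono ?_) (hV₀ V hV).le⟩
  rintro x ⟨hx, hV0⟩
  simp only [Set.mem_ofPred_eq]
  rw [← bsum_eq, Real.dist_eq]
  have hVp : (0 : ℝ) < V := by exact_mod_cast hV0
  have : ϑ ≤ bsum g V x / V := by
    rw [le_div_iff₀ hVp]
    exact hx
  refine le_trans ?_ (le_abs_self _)
  linarith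

theorem mean_erg {μ : Measure (ℤ → A)} [IsProbabilityMeasure μ] (he : Ergodic shift μ) (q : ℕ)
    (φ : (Fin q → A) → ℝ) (κ ϑ : ℝ) (hκ : 0 < κ) :
    (ϑ < ∫ x, φ (wd q x) ∂μ → ∃ V₀ : ℕ, ∀ V ≥ V₀,
      μ.real {x | ¬ ϑ * V < ∑ t ∈ Finset.range V, φ (wd q (sh t x))} ≤ κ) ∧
    (∫ x, φ (wd q x) ∂μ < ϑ → ∃ V₀ : ℕ, ∀ V ≥ V₀,
      μ.real {x | ϑ * V < ∑ t ∈ Finset.range V, φ (wd q (sh t x))} ≤ κ) := by
  have hm : Measurable fun x : ℤ → A => φ (wd q x) :=
    (measurable_of_finite φ).comp (measurable_wd q)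
  obtain ⟨C, hC⟩ : ∃ C : ℝ, ∀ w, |φ w| ≤ C := by
    obtain ⟨C, hC⟩ := (Set.finite_range fun w => |φ w|).bddAbove
    exact ⟨C, fun w => hC ⟨w, rfl⟩⟩
  constructor
  · intro hϑ
    obtain ⟨V₀, hV₀⟩ := mean_erg_aux he (fun x => -φ (wd q x)) hm.neg C
      (fun x => by rw [abs_neg]; exact hC _) κ (-ϑ) hκ (by
        rw [integral_neg]
        linarith)
    refine ⟨V₀ + 1, fun V hV => le_trans (measureReal_mono ?_) (hV₀ V (by omega))⟩
    intro x hx
    simp only [Set.mem_ofPred_eq, not_lt] at hx ⊢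
    refine ⟨?_, by omega⟩
    unfold bsum
    rw [Finset.sum_neg_distrib]
    linarith
  · intro hϑ
    obtain ⟨V₀, hV₀⟩ := mean_erg_aux he (fun x => φ (wd q x)) hm C
      (fun x => hC _) κ ϑ hκ hϑ
    refine ⟨V₀ + 1, fun V hV => le_trans (measureReal_mono ?_) (hV₀ V (by omega))⟩
    intro x hx
    simp only [Set.mem_ofPred_eq] at hx ⊢
    exact ⟨hx.le, by omega⟩

end Pool.Agent.RelEq
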