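import Pool.Agent.Lib_MP_50c299_an.Basic

/-!
# Measures are determined by the laws of words
-/

open MeasureTheory Filter Topology

namespace Pool.Agent.RelEq

variable {A B : Type} [Fintype A] [Nonempty A] [TopologicalSpace A] [DiscreteTopology A]
  [MeasurableSpace A] [DiscreteMeasurableSpace A]

omit [Fintype A] [Nonempty A] [TopologicalSpace A] [DiscreteTopology A] in
theorem inv_of_shift {μ : Measure (ℤ → A)} (h : MeasurePreserving shift μ μ) : Inv μ := by
  have hnat : ∀ n : ℕ, MeasurePreserving (sh (A := A) (n : ℤ)) μ μ := by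
    intro n
    have h1 := h.iterate n
    have h2 : (shift (A := A))^[n] = sh (n : ℤ) := funext fun x => shift_iterate n x
    rwa [h2] at h1
  intro t
  rcases le_total 0 t with ht | ht
  · obtain ⟨n, rfl⟩ := Int.eq_ofNat_of_zero_le ht
    exact hnat n
  · obtain ⟨n, hn⟩ := Int.eq_ofNat_of_zero_le (neg_nonneg.2 ht)
    have ht' : t = -(n : ℤ) := by omega
    subst ht'
    refine ⟨measurable_sh _, ?_⟩
    conv_lhs => rw [← (hnat n).map_eq]
    rw [Measure.map_map (measurable_sh _) (measurable_sh _)]
    have : (sh (A := A) (-(n : ℤ))) ∘ sh (n : ℤ) = id := by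
      funext x
      simp only [Function.comp_apply, sh_sh, neg_add_cancel, sh_zero, id]
    rw [this, Measure.map_id]

/-- Two shift-invariant probability measures with the same word distributions are equal. -/
theorem ext_words {μ μ' : Measure (ℤ → A)} [IsProbabilityMeasure μ] [IsProbabilityMeasure μ']
    (hμ : Inv μ) (hμ' : Inv μ') (h : ∀ n w, wl μ n w = wl μ' n w) : μ = μ' := by
  have hmap : ∀ n : ℕ, μ.map (wd n) = μ'.map (wd n) := by
    intro n
    refine Measure.ext_of_singleton fun w => ?_
    rw [Measure.map_apply (measurable_wd n) (measurableSet_singleton w),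
      Measure.map_apply (measurable_wd n) (measurableSet_singleton w)]
    have := h n w
    unfold wl at this
    rw [Measure.real, Measure.real, ENNReal.toReal_eq_toReal_iff' (measure_ne_top _ _)
      (measure_ne_top _ _)] at this
    exact this
  have key : ∀ E : Set (ℤ → A), MeasurableSet E → ∀ (n : ℕ) (t : ℤ),
      (∀ x x' : ℤ → A, wd n (sh t x) = wd n (sh t x') → (x ∈ E) = (x' ∈ E)) → μ E = μ' E := by
    intro E hE n t hG
    obtain ⟨g, hg⟩ := exists_factor (fun x => x ∈ E) n t hG
    have hE' : E = (sh t) ⁻¹' ((wd n) ⁻¹' {w | g w}) := by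
      ext x
      have := hg x
      simp only [Set.mem_preimage, Set.mem_setOf_eq]
      exact iff_of_eq this
    have hm : MeasurableSet ((wd (A := A) n) ⁻¹' {w | g w}) :=
      measurable_wd n (Set.toFinite _).measurableSet
    rw [hE', (hμ t).measure_preimage hm.nullMeasurableSet,
      (hμ' t).measure_preimage hm.nullMeasurableSet,
      ← Measure.map_apply (measurable_wd n) (Set.toFinite _).measurableSet,
      ← Measure.map_apply (measurable_wd n) (Set.toFinite _).measurableSet, hmap n]
  refine ext_of_generate_finite (measurableCylinders fun _ : ℤ => A)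
    (generateFrom_measurableCylinders).symm (isPiSystem_measurableCylinders) ?_ ?_
  · intro E hE
    rw [mem_measurableCylinders] at hE
    obtain ⟨s, S, hS, rfl⟩ := hE
    obtain ⟨m, hm⟩ : ∃ m : ℕ, ∀ i ∈ s, -(m : ℤ) ≤ i ∧ i < m := by
      refine ⟨s.sup Int.natAbs + 1, fun i hi => ?_⟩
      have := Finset.le_sup (f := Int.natAbs) hi
      omega
    refine key _ (hS.cylinder) (2 * m) (-(m : ℤ)) ?_
    intro x x' hx
    rw [wd_eq_iff] at hx
    have : s.restrict x = s.restrict x' := by
      funext i
      have hi := hm i i.2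
      have := hx ((i : ℤ) + m) (by omega) (by push_cast; omega)
      simp only [sh_apply] at this
      have e : (i : ℤ) + m + -(m : ℤ) = i := by ring
      rw [e] at this
      exact this
    simp only [mem_cylinder, this]
  · simp

/-- Distinct invariant measures are separated by a function of words. -/
theorem exists_sep {μ₁ μ₂ : Measure (ℤ → A)} [IsProbabilityMeasure μ₁]
    [IsProbabilityMeasure μ₂] (h₁ : Inv μ₁) (h₂ : Inv μ₂) (hne : μ₁ ≠ μ₂) :
    ∃ (q : ℕ) (φ : (Fin q → A) → ℝ),
      ∫ x, φ (wd q x) ∂μ₂ < ∫ x, φ (wd q x) ∂μ₁ := by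
  classical
  by_contra hcon
  push Not at hcon
  apply hne
  refine ext_words h₁ h₂ fun n w => ?_
  have hint : ∀ (μ : Measure (ℤ → A)) [IsProbabilityMeasure μ],
      ∫ x, (if wd n x = w then (1 : ℝ) else 0) ∂μ = wl μ n w := by
    intro μ _
    have : (fun x : ℤ → A => if wd n x = w then (1 : ℝ) else 0)
        = Set.indicator {x | wd n x = w} (fun _ => (1 : ℝ)) := by
      funext x
      simp only [Set.indicator, Set.mem_setOf_eq]
    have hms : MeasurableSet {x : ℤ → A | wd n x = w} :=
      measurable_wd n (measurableSet_singleton w)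
    rw [this, integral_indicator hms]
    simp [wl]
  have a1 := hcon n (fun v => if v = w then 1 else 0)
  have a2 := hcon n (fun v => -(if v = w then 1 else 0))
  simp only [integral_neg, hint] at a1 a2
  linarith

end Pool.Agent.RelEq
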