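import Pool.Agent.Lib_MP_50c299_an.Iterate
import Pool.Agent.Lib_MP_50c299_an.ErrExp
import Pool.Agent.Lib_MP_50c299_an.FreqF
import Pool.Agent.Lib_MP_50c299_an.MeanErg
import Pool.Agent.Lib_MP_50c299_an.MeasExt

/-!
# Construction of pairs of words with larger entropy plus energy
-/

open MeasureTheory Filter Topology

namespace Pool.Agent.RelEq

/-- The numerical part of the estimate. -/
theorem gain_numeric (m : ℕ) (δ κ a C₁ θ D Jr V pad W M : ℝ) (G Pr E : ℕ → ℝ) (hδ : 0 < δ)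
    (hC₁ : 0 ≤ C₁)
    (hκ : κ = δ / (64 * Real.exp (a + 2 * (C₁ + 7) / δ))) (hV : 1 ≤ V) (hJ : 7 ≤ κ * Jr)
    (hθ : θ = δ * Jr * V / 4) (hD : D = κ * Jr * V) (hpad : 4 * pad ≤ δ * Jr) (hpad0 : 0 ≤ pad)
    (hpadJ : pad ≤ Jr) (hW : W = Jr * V + pad) (hM : m * W ≤ M)
    (hfreq : δ * M - m * pad - W - m * θ ≤ (Jr * V) * ∑ i ∈ Finset.range m, Pr i)
    (hPr : ∀ i, 0 ≤ Pr i) (hE : ∀ i < m, E i ≤ 2 * κ * Jr)
    (hG : ∀ i < m, G i = Pr i * (Real.log θ - Real.log 4 - a - Real.log (2 * (D + 1)))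
      - Real.log 2 - (2 * E i + 7) * V / D) :
    m * (C₁ + 1) - 2 * (2 * (C₁ + 7) / δ) ≤ ∑ i ∈ Finset.range m, G i := by
  have hexp : 0 < Real.exp (a + 2 * (C₁ + 7) / δ) := Real.exp_pos _
  have hκ0 : 0 < κ := by rw [hκ]; positivity
  have hJ0 : 0 < Jr := by
    by_contra h
    push Not at h
    have := mul_nonpos_of_nonneg_of_nonpos hκ0.le h
    linarith
  have hV0 : 0 < V := by linarith
  have hD1 : 1 ≤ D := by rw [hD]; nlinarith
  have hD0 : 0 < D := by linarith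
  have hθ0 : 0 < θ := by rw [hθ]; positivity
  have hJV : 0 < Jr * V := by positivity
  have hJV1 : Jr ≤ Jr * V := by nlinarith
  set Λ₀ : ℝ := 2 * (C₁ + 7) / δ with hΛ₀
  have hΛ₀0 : 0 ≤ Λ₀ := by rw [hΛ₀]; positivity
  set Λ : ℝ := Real.log θ - Real.log 4 - a - Real.log (2 * (D + 1)) with hΛ
  have hΛle : Λ₀ ≤ Λ := by
    have h1 : Real.log (2 * (D + 1)) ≤ Real.log (4 * D) := by
      apply Real.log_le_log (by linarith)
      linarith
    have h2 : Real.log θ - Real.log (4 * D) = Real.log 4 + a + Λ₀ := by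
      rw [← Real.log_div hθ0.ne' (by positivity)]
      have h3 : θ / (4 * D) = 4 * Real.exp (a + Λ₀) := by
        rw [hθ, hD, hκ]
        field_simp
        norm_num
      rw [h3, Real.log_mul (by norm_num) hexp.ne', Real.log_exp]
      ring
    rw [hΛ]
    linarith
  have hS : m * δ / 2 - 2 ≤ ∑ i ∈ Finset.range m, Pr i := by
    have hm0 : (0 : ℝ) ≤ m := Nat.cast_nonneg m
    have h1 : δ * (m * (Jr * V)) ≤ δ * M := by
      apply mul_le_mul_of_nonneg_left _ hδ.le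
      refine le_trans ?_ hM
      apply mul_le_mul_of_nonneg_left _ hm0
      rw [hW]
      linarith
    have h2 : m * pad ≤ m * (δ * (Jr * V) / 4) := by
      apply mul_le_mul_of_nonneg_left _ hm0
      nlinarith
    have h3 : W ≤ 2 * (Jr * V) := by
      rw [hW]
      linarith
    have h4 : (m * δ / 2 - 2) * (Jr * V) ≤ (∑ i ∈ Finset.range m, Pr i) * (Jr * V) := by
      calc (m * δ / 2 - 2) * (Jr * V)
          ≤ δ * M - m * pad - W - m * θ := by
            rw [hθ]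
            nlinarith
        _ ≤ _ := by rw [mul_comm (∑ i ∈ Finset.range m, Pr i)]; exact hfreq
    exact le_of_mul_le_mul_right h4 hJV
  have hGi : ∀ i ∈ Finset.range m, Pr i * Λ₀ - 6 ≤ G i := by
    intro i hi
    rw [Finset.mem_range] at hi
    rw [hG i hi]
    have h1 : Pr i * Λ₀ ≤ Pr i * Λ := mul_le_mul_of_nonneg_left hΛle (hPr i)
    have h2 : Real.log 2 ≤ 1 := by
      have := Real.log_two_lt_d9
      linarith
    have h3 : (2 * E i + 7) * V / D ≤ 5 := by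
      rw [div_le_iff₀ hD0, hD]
      have := hE i hi
      nlinarith
    linarith
  calc m * (C₁ + 1) - 2 * Λ₀ = (m * δ / 2 - 2) * Λ₀ - 6 * m := by
        rw [hΛ₀]
        field_simp
        ring
    _ ≤ (∑ i ∈ Finset.range m, Pr i) * Λ₀ - 6 * m := by
        have := mul_le_mul_of_nonneg_right hS hΛ₀0
        linarith
    _ = ∑ i ∈ Finset.range m, (Pr i * Λ₀ - 6) := by
        rw [Finset.sum_sub_distrib, Finset.sum_mul]
        simp
        ring
    _ ≤ _ := Finset.sum_le_sum hGi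

variable {A B : Type} [Fintype A] [Nonempty A] [TopologicalSpace A] [DiscreteTopology A]
  [MeasurableSpace A] [DiscreteMeasurableSpace A]
  [Fintype B] [TopologicalSpace B] [DiscreteTopology B] [MeasurableSpace B]
  [DiscreteMeasurableSpace B]

theorem construct (S : Sys A B) (ν : Measure (ℤ → B)) [IsProbabilityMeasure ν] (hν : Inv ν)
    (μ₁ μ₂ : Measure (ℤ → A)) (h₁ : InFib S ν μ₁) (h₂ : InFib S ν μ₂)
    (e₁ : Ergodic shift μ₁) (e₂ : Ergodic shift μ₂) (hne : μ₁ ≠ μ₂)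
    (f : (ℤ → A) → ℝ) (hf : Continuous f) (K : ℝ)
    (hB : ∀ n : ℕ, ∀ x ∈ S.X, ∀ x' ∈ S.X, (∀ i : ℤ, 0 ≤ i → i < n → x i = x' i) →
      |bsum f n x - bsum f n x'| ≤ K)
    (L : ℕ) (δ : ℝ) (hδ : 0 < δ)
    (hfreq : ∀ M₀ : ℕ, ∃ M ≥ M₀, δ * M ≤ ∑ t ∈ Finset.range M, ∑ z : PW A M,
        ind (Good S L t (ext S M z.1) (ext S M z.2)) * lamb S M ν μ₁ μ₂ z) :
    ∃ η > (0 : ℝ), ∃ C : ℝ, ∀ M₀ : ℕ, ∃ M ≥ M₀, ∃ p : PW A M → ℝ, IsLaw p ∧
      (∀ z, p z ≠ 0 → AdmP S M z) ∧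
      (∀ c, ∑ z, ind (imw S M (ext S M z.1) = c) * p z = wl ν (M - 2 * S.s) c) ∧
      (hrate μ₁ + ∫ x, f x ∂μ₁ + hrate μ₂ + ∫ x, f x ∂μ₂ + η) * M - C ≤
        Hent p + bent ν (M - 2 * S.s) + ∑ z, p z * En S M f z := by
  have hp₁ := h₁.prob
  have hp₂ := h₂.prob
  -- the bound of `f` and a nonnegative constant in the Bowen property
  obtain ⟨F, hF⟩ : ∃ F : ℝ, ∀ x, |f x| ≤ F := by
    obtain ⟨F, hF⟩ := (isCompact_range hf.norm).bddAbove
    exact ⟨F, fun x => hF ⟨x, rfl⟩⟩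
  have hF0 : 0 ≤ F := (abs_nonneg _).trans (hF (fun _ => Classical.arbitrary A))
  have hB' : ∀ n : ℕ, ∀ x ∈ S.X, ∀ x' ∈ S.X, (∀ i : ℤ, 0 ≤ i → i < n → x i = x' i) →
      |bsum f n x - bsum f n x'| ≤ |K| := fun n x hx x' hx' h =>
    (hB n x hx x' hx' h).trans (le_abs_self K)
  obtain ⟨q, φ, hφ⟩ := exists_sep h₁.inv h₂.inv hne
  set ϑ : ℝ := ((∫ x, φ (wd q x) ∂μ₁) + ∫ x, φ (wd q x) ∂μ₂) / 2 with hϑ
  set C₁ : ℝ := 6 * |K| + 4 * L * F with hC₁
  have hC₁0 : 0 ≤ C₁ := by rw [hC₁]; positivity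
  set a : ℝ := 2 * L * Real.log (Fintype.card A) with ha
  set κ : ℝ := δ / (64 * Real.exp (a + 2 * (C₁ + 7) / δ)) with hκ
  have hκ0 : 0 < κ := by rw [hκ]; positivity
  obtain ⟨V₁, hV₁⟩ := (mean_erg e₁ q φ κ ϑ hκ0).1 (by rw [hϑ]; linarith)
  obtain ⟨V₂, hV₂⟩ := (mean_erg e₂ q φ κ ϑ hκ0).2 (by rw [hϑ]; linarith)
  set V : ℕ := V₁ + V₂ + L + q + 1 with hV
  set pad : ℕ := q + (L + S.r) with hpad
  obtain ⟨J, hJ⟩ : ∃ J : ℕ, 7 / κ + 4 / δ + 4 * pad / δ + pad ≤ J := exists_nat_ge _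
  have hκi : 0 < 7 / κ := by positivity
  have hδi : 0 < 4 / δ := by positivity
  have hpi : 0 ≤ 4 * (pad : ℝ) / δ := by positivity
  have hp0 : (0 : ℝ) ≤ pad := Nat.cast_nonneg _
  have hJ1 : 7 ≤ κ * J := by
    have : 7 / κ ≤ J := by linarith
    rw [div_le_iff₀ hκ0] at this
    linarith
  have hJ2 : 4 ≤ δ * J := by
    have : 4 / δ ≤ J := by linarith
    rw [div_le_iff₀ hδ] at this
    linarith
  have hJ3 : 4 * (pad : ℝ) ≤ δ * J := by
    have : 4 * pad / δ ≤ J := by linarith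
    rw [div_le_iff₀ hδ] at this
    linarith
  have hJ4 : (pad : ℝ) ≤ J := by linarith
  have hV1 : (1 : ℝ) ≤ V := by
    have : 1 ≤ V := by omega
    exact_mod_cast this
  let P : Par A := ⟨L, q, V, J, pad, φ, ϑ, δ * J * V / 4, κ * J * V⟩
  have hP : P.OK S := by
    refine ⟨by change 1 ≤ V; omega, by change L ≤ V; omega, by change q ≤ V; omega,
      by change q ≤ pad; omega, by change L + S.r ≤ pad; omega, ?_, ?_⟩
    · change (1 : ℝ) ≤ δ * J * V / 4
      nlinarith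
    · change (1 : ℝ) ≤ κ * J * V
      nlinarith
  have hPW : (P.W : ℝ) = J * V + pad := by
    change ((J * V + pad : ℕ) : ℝ) = _
    push_cast
    ring
  have hW0 : 0 < P.W := by
    have : (0 : ℝ) < P.W := by
      rw [hPW]
      have : 0 < κ * J := by linarith
      have hJ0 : (0 : ℝ) < J := by
        rcases (Nat.cast_nonneg J : (0 : ℝ) ≤ J).lt_or_eq with h | h
        · exact h
        · rw [← h] at this
          linarith
      positivity
    exact_mod_cast this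
  refine ⟨1 / P.W, by positivity, 2 * |K| + 1 + 2 * (2 * (C₁ + 7) / δ), fun M₀ => ?_⟩
  obtain ⟨M, hM, hfr⟩ := hfreq M₀
  set m : ℕ := M / P.W with hm
  have hmM : m * P.W ≤ M := Nat.div_mul_le_self M P.W
  have hmM' : M ≤ (m + 1) * P.W := by
    have := Nat.lt_div_mul_add (a := M) hW0
    rw [add_mul, one_mul]
    exact this.le
  obtain ⟨p, p1, p2, p3, p4, p5⟩ := iterate S M P hP f F |K| hF (abs_nonneg K) hB'
    (lamb S M ν μ₁ μ₂) (lamb_isLaw hν h₁ h₂ M) (lamb_supp hν h₁ h₂ M) m hmM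
  refine ⟨M, hM, p, p1, p2, fun c => (p3 c).trans (lamb_img hν h₁ h₂ M c), ?_⟩
  set lam := lamb S M ν μ₁ μ₂ with hlam
  have hlaw : IsLaw lam := lamb_isLaw hν h₁ h₂ M
  -- the entropy gain
  have hgain : m * (C₁ + 1) - 2 * (2 * (C₁ + 7) / δ) ≤
      ∑ i ∈ Finset.range m, ∑ z, lam z * gfun S M P z (i * P.W : ℕ) := by
    have hfF := freqF S M P lam hlaw δ hfr m hmM hmM' (by
      change (0 : ℝ) ≤ δ * J * V / 4
      positivity)
    refine gain_numeric m δ κ a C₁ P.θ P.D J V pad P.W M _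
      (fun i => ∑ z, lam z * ind (P.θ ≤ (Gam S M P z (i * P.W : ℕ)).card))
      (fun i => ∑ z, lam z * (err S M P z (i * P.W : ℕ) : ℝ)) hδ hC₁0 hκ hV1 hJ1 rfl rfl hJ3
      hp0 hJ4 hPW (by exact_mod_cast hmM) ?_ ?_ ?_ ?_
    · have : ((P.J * P.V : ℕ) : ℝ) = J * V := by
        change ((J * V : ℕ) : ℝ) = _
        push_cast
        ring
      rw [this] at hfF
      exact hfF
    · intro i
      exact Finset.sum_nonneg fun z _ => mul_nonneg (hlaw.nonneg z) (ind_nonneg _)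
    · intro i hi
      have hiW : i * P.W + P.W ≤ M := by
        calc i * P.W + P.W = (i + 1) * P.W := by ring
          _ ≤ m * P.W := Nat.mul_le_mul_right _ hi
          _ ≤ M := hmM
      refine err_exp hν h₁ h₂ M P hP κ ?_ ?_ (i * P.W) hiW
      · have := hV₁ V (by omega)
        simpa [bit, P] using this
      · have := hV₂ V (by omega)
        simpa [bit, P] using this
    · intro i hi
      have hsum : ∑ z, lam z = 1 := hlaw.sum_one
      have key : ∀ z, lam z * gfun S M P z (i * P.W : ℕ) =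
          lam z * ind (P.θ ≤ (Gam S M P z (i * P.W : ℕ)).card) *
            (Real.log P.θ - Real.log 4 - a - Real.log (2 * (P.D + 1)))
          - lam z * Real.log 2
          - (2 * (lam z * (err S M P z (i * P.W : ℕ) : ℝ)) + 7 * lam z) * (P.V / P.D) := by
        intro z
        unfold gfun
        have ha' : a = 2 * P.L * Real.log (Fintype.card A) := rfl
        rw [ha']
        ring
      rw [Finset.sum_congr rfl fun z _ => key z, Finset.sum_sub_distrib, Finset.sum_sub_distrib,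
        ← Finset.sum_mul, ← Finset.sum_mul, ← Finset.sum_mul, Finset.sum_add_distrib,
        ← Finset.mul_sum, ← Finset.mul_sum, hsum]
      have hPV : (P.V : ℝ) = V := rfl
      rw [hPV]
      ring
  -- the initial energy and entropy
  have hent : Hent lam = bent μ₁ M + bent μ₂ M - bent ν (M - 2 * S.s) :=
    lamb_ent hν h₁ h₂ M
  have hb₁ : M * hrate μ₁ ≤ bent μ₁ M := hrate_le μ₁ h₁.inv M
  have hb₂ : M * hrate μ₂ ≤ bent μ₂ M := hrate_le μ₂ h₂.inv M
  have hen : M * ∫ x, f x ∂μ₁ - |K| + (M * ∫ x, f x ∂μ₂ - |K|) ≤ ∑ z, lam z * En S M f z := by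
    have h := lamb_sum hν h₁ h₂ M (fun u => bsum f M (ext S M u)) (fun u => bsum f M (ext S M u))
    have h' : ∑ z, lam z * En S M f z =
        ∑ z, lamb S M ν μ₁ μ₂ z * (bsum f M (ext S M z.1) + bsum f M (ext S M z.2)) := rfl
    rw [h', h]
    exact add_le_add (energy_init S h₁.supp h₁.inv M f hf |K| hB')
      (energy_init S h₂.supp h₂.inv M f hf |K| hB')
  have hmW : (M : ℝ) / P.W - 1 ≤ m := by
    have h : (M : ℝ) ≤ (m + 1) * P.W := by exact_mod_cast hmM'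
    have hW0' : (0 : ℝ) < P.W := by exact_mod_cast hW0
    have : (M : ℝ) / P.W ≤ m + 1 := by
      rw [div_le_iff₀ hW0']
      exact h
    linarith
  have hLP : (P.L : ℝ) = L := rfl
  rw [hLP] at p5
  have hηM : 1 / (P.W : ℝ) * M = M / P.W := by ring
  have hexpand : (hrate μ₁ + ∫ x, f x ∂μ₁ + hrate μ₂ + ∫ x, f x ∂μ₂ + 1 / (P.W : ℝ)) * M =
      M * hrate μ₁ + M * (∫ x, f x ∂μ₁) + M * hrate μ₂ + M * (∫ x, f x ∂μ₂) + M / P.W := by
    rw [← hηM]
    ring
  rw [hexpand]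
  have hCm : (m : ℝ) * (C₁ + 1) = m * C₁ + m := by ring
  rw [hCm] at hgain
  linarith

end Pool.Agent.RelEq
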