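import Pool.Agent.Lib_MP_50c299_an.Defs

/-!
# Relative equilibrium states and class degree: the working definitions
-/

open MeasureTheory Filter Topology

namespace Pool.Agent.RelEq

variable {A B : Type}

/-- The power `T^t` of the shift. -/
def sh (t : ℤ) (x : ℤ → A) : ℤ → A := fun i => x (i + t)

/-- The real number `1` or `0` according to the truth of `P`. -/
noncomputable def ind (P : Prop) : ℝ := by
  classical
  exact if P then 1 else 0

theorem ind_pos {P : Prop} (h : P) : ind P = 1 := by
  classical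
  unfold ind
  exact if_pos h

theorem ind_neg {P : Prop} (h : ¬ P) : ind P = 0 := by
  classical
  unfold ind
  exact if_neg h

theorem ind_nonneg (P : Prop) : 0 ≤ ind P := by
  by_cases h : P
  · rw [ind_pos h]; norm_num
  · rw [ind_neg h]

theorem ind_le_one (P : Prop) : ind P ≤ 1 := by
  by_cases h : P
  · rw [ind_pos h]
  · rw [ind_neg h]; norm_num

theorem ind_mono {P Q : Prop} (h : P → Q) : ind P ≤ ind Q := by
  by_cases hP : P
  · rw [ind_pos hP, ind_pos (h hP)]
  · rw [ind_neg hP]; exact ind_nonneg Q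

theorem ind_congr {P Q : Prop} (h : P ↔ Q) : ind P = ind Q := by
  by_cases hP : P
  · rw [ind_pos hP, ind_pos (h.1 hP)]
  · rw [ind_neg hP, ind_neg (fun hQ => hP (h.2 hQ))]

/-- A probability vector on a finite type. -/
structure IsLaw {α : Type} [Fintype α] (p : α → ℝ) : Prop where
  nonneg : ∀ a, 0 ≤ p a
  sum_one : ∑ a, p a = 1

/-- Shannon entropy of a probability vector. -/
noncomputable def Hent {α : Type} [Fintype α] (p : α → ℝ) : ℝ := ∑ a, Real.negMulLog (p a)

/-- The word read in the window `[0, n)`. -/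
def wd (n : ℕ) (x : ℤ → A) : Fin n → A := fun i => x (i : ℤ)

/-- The distribution of the word in the window `[0, n)`. -/
noncomputable def wl [MeasurableSpace A] (μ : Measure (ℤ → A)) (n : ℕ) (w : Fin n → A) : ℝ :=
  μ.real {x | wd n x = w}

/-- Entropy of the blocks of length `n`. -/
noncomputable def bent [Fintype A] [MeasurableSpace A] (μ : Measure (ℤ → A)) (n : ℕ) : ℝ :=
  Hent (wl μ n)

/-- The entropy rate, as an infimum. -/
noncomputable def hrate [Fintype A] [MeasurableSpace A] (μ : Measure (ℤ → A)) : ℝ :=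
  ⨅ n : ℕ, bent μ (n + 1) / ((n : ℝ) + 1)

/-- Invariance under all powers of the shift. -/
def Inv [MeasurableSpace A] (μ : Measure (ℤ → A)) : Prop := ∀ t : ℤ, MeasurePreserving (sh t) μ μ

/-- Birkhoff sums. -/
noncomputable def bsum (f : (ℤ → A) → ℝ) (n : ℕ) (x : ℤ → A) : ℝ :=
  ∑ t ∈ Finset.range n, f (sh t x)

/-- A closed shift-invariant set `X` with a gluing property and a globally defined block code
`π`. -/
structure Sys (A B : Type) [TopologicalSpace A] where
  X : Set (ℤ → A)
  π : (ℤ → A) → (ℤ → B)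
  s : ℕ
  r : ℕ
  hr : 2 * s + 1 ≤ r
  closed : IsClosed X
  inv : ∀ (t : ℤ) (x : ℤ → A), x ∈ X → sh t x ∈ X
  loc : ∀ (x x' : ℤ → A) (i : ℤ), (∀ k : ℤ, i - s ≤ k → k ≤ i + s → x k = x' k) → π x i = π x' i
  comm : ∀ (t : ℤ) (x : ℤ → A), π (sh t x) = sh t (π x)
  glue : ∀ p ∈ X, ∀ q ∈ X, ∀ t : ℤ, (∀ i : ℤ, t ≤ i → i < t + r → p i = q i) →
    (fun i : ℤ => if i < t then p i else q i) ∈ X

/-- The fibre over `ν`, in the form used in the proof. -/
structure InFib [TopologicalSpace A] [MeasurableSpace A] [MeasurableSpace B] (S : Sys A B)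
    (ν : Measure (ℤ → B)) (μ : Measure (ℤ → A)) : Prop where
  prob : IsProbabilityMeasure μ
  supp : μ S.Xᶜ = 0
  inv : Inv μ
  img : ∀ E : Set (ℤ → B), MeasurableSet E → μ (S.π ⁻¹' E) = ν E

section
variable [TopologicalSpace A]

/-- `u` can be connected to `v` inside the window `[t, t + L + r)`, over the image of `u`. -/
def Br (S : Sys A B) (L : ℕ) (t : ℤ) (u v : ℤ → A) : Prop :=
  ∃ p ∈ S.X, (∀ i : ℤ, t ≤ i → i < t + S.r → p i = u i) ∧
    (∀ i : ℤ, t + L ≤ i → i < t + L + S.r → p i = v i) ∧
    ∀ i : ℤ, t + S.s ≤ i → i < t + L + S.r - S.s → S.π p i = S.π u i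

/-- Two-way bridges at time `t`. -/
def Good (S : Sys A B) (L : ℕ) (t : ℤ) (u v : ℤ → A) : Prop := Br S L t u v ∧ Br S L t v u

/-- Follow `u` up to time `t`, then the bridge, then `v` from time `t + L` on. -/
noncomputable def sw (S : Sys A B) (L : ℕ) (t : ℤ) (u v : ℤ → A) : ℤ → A := by
  classical
  exact if h : Br S L t u v then
      fun i : ℤ => if i < t then u i else if i < t + L then h.choose i else v i
    else u

/-- The image word in the window `[s, M - s)`. -/
def imw (S : Sys A B) (M : ℕ) (x : ℤ → A) : Fin (M - 2 * S.s) → B :=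
  fun i => S.π x ((i : ℤ) + S.s)

/-- Pairs of words of length `M`. -/
abbrev PW (A : Type) (M : ℕ) : Type := (Fin M → A) × (Fin M → A)

/-- Extension of a word to a point of `X`, if there is one. -/
noncomputable def ext [Nonempty A] (S : Sys A B) (M : ℕ) (u : Fin M → A) : ℤ → A := by
  classical
  exact if h : ∃ x ∈ S.X, wd M x = u then h.choose else fun _ => Classical.arbitrary A

/-- Admissible words. -/
def AdmW (S : Sys A B) (M : ℕ) (u : Fin M → A) : Prop := ∃ x ∈ S.X, wd M x = u

/-- Admissible pairs of words with the same image. -/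
def AdmP [Nonempty A] (S : Sys A B) (M : ℕ) (z : PW A M) : Prop :=
  AdmW S M z.1 ∧ AdmW S M z.2 ∧ imw S M (ext S M z.1) = imw S M (ext S M z.2)

/-- The action of a swap time on pairs of words. -/
noncomputable def act [Nonempty A] (S : Sys A B) (L M : ℕ) (z : PW A M) : Option ℕ → PW A M
  | none => z
  | some t => (wd M (sw S L t (ext S M z.1) (ext S M z.2)),
      wd M (sw S L t (ext S M z.2) (ext S M z.1)))

/-- The energy of a pair of words. -/
noncomputable def En [Nonempty A] (S : Sys A B) (M : ℕ) (f : (ℤ → A) → ℝ) (z : PW A M) : ℝ :=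
  bsum f M (ext S M z.1) + bsum f M (ext S M z.2)

end

/-- Coupling of `p` and `p'`, conditionally independent given the common value of `g`, whose
distribution is `n`. -/
noncomputable def coup {α γ : Type} (p p' : α → ℝ) (g : α → γ) (n : γ → ℝ) (z : α × α) : ℝ :=
  ind (g z.1 = g z.2) * (p z.1 * p' z.2 / n (g z.1))

/-- The coupling of two measures in the fibre on words of length `M`. -/
noncomputable def lamb [TopologicalSpace A] [Nonempty A] [MeasurableSpace A] [MeasurableSpace B]
    (S : Sys A B) (M : ℕ) (ν : Measure (ℤ → B)) (μ₁ μ₂ : Measure (ℤ → A)) : PW A M → ℝ :=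
  coup (wl μ₁ M) (wl μ₂ M) (fun u => imw S M (ext S M u)) (wl ν (M - 2 * S.s))

/-- Push a law forward by a uniform random choice `ρ ∈ C z` and the action. -/
noncomputable def stepLaw {α R : Type} [Fintype α] (p : α → ℝ) (C : α → Finset R)
    (a : α → R → α) (z' : α) : ℝ :=
  ∑ z, ∑ ρ ∈ C z, ind (a z ρ = z') * (p z / (C z).card)

/-- Parameters of the construction: `L` bridge length, `V` length of the sub-blocks, `J` number
of the sub-blocks in a block, `pad` the additional length of a block, `φ` a function of words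
of length `q`, `ϑ` the threshold for `φ`, `θ` the threshold for the number of swap times, `D` the
scale of the error of decoding. -/
structure Par (A : Type) where
  L : ℕ
  q : ℕ
  V : ℕ
  J : ℕ
  pad : ℕ
  φ : (Fin q → A) → ℝ
  ϑ : ℝ
  θ : ℝ
  D : ℝ

/-- The length of a block. -/
def Par.W (P : Par A) : ℕ := P.J * P.V + P.pad

/-- Conditions on the parameters. -/
structure Par.OK [TopologicalSpace A] (S : Sys A B) (P : Par A) : Prop where
  hV : 1 ≤ P.V
  hLV : P.L ≤ P.V
  hqV : P.q ≤ P.V
  hq : P.q ≤ P.pad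
  hL : P.L + S.r ≤ P.pad
  hθ : 1 ≤ P.θ
  hD : 1 ≤ P.D

/-- The average of `φ` over the sub-block starting at `a` exceeds the threshold. -/
def bit (P : Par A) (x : ℤ → A) (a : ℤ) : Prop :=
  P.ϑ * P.V < ∑ t ∈ Finset.range P.V, P.φ (wd P.q (sh (a + t) x))

/-- Number of the sub-blocks of the block starting at `a` in which `x` or `x'` is atypical. -/
noncomputable def errA (P : Par A) (x x' : ℤ → A) (a : ℤ) : ℕ := by
  classical
  exact ((Finset.range P.J).filter fun k : ℕ =>
    ¬ bit P x (a + (k * P.V : ℕ)) ∨ bit P x' (a + (k * P.V : ℕ))).card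

section
variable [TopologicalSpace A] [Nonempty A]

/-- The symmetric error number. -/
noncomputable def err (S : Sys A B) (M : ℕ) (P : Par A) (z : PW A M) (a : ℤ) : ℕ :=
  min (errA P (ext S M z.1) (ext S M z.2) a) (errA P (ext S M z.2) (ext S M z.1) a)

/-- The possible swap times (offsets) in the block starting at `a`. -/
noncomputable def Gam (S : Sys A B) (M : ℕ) (P : Par A) (z : PW A M) (a : ℤ) : Finset ℕ := by
  classical
  exact (Finset.range (P.J * P.V)).filter fun t : ℕ =>
    Good S P.L (a + t) (ext S M z.1) (ext S M z.2)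

/-- Lower bound for the entropy gain in the block starting at `a`. -/
noncomputable def gfun [Fintype A] (S : Sys A B) (M : ℕ) (P : Par A) (z : PW A M) (a : ℤ) : ℝ :=
  ind (P.θ ≤ (Gam S M P z a).card) *
      (Real.log P.θ - Real.log 4 - 2 * P.L * Real.log (Fintype.card A)
        - Real.log (2 * (P.D + 1)))
    - Real.log 2 - (2 * (err S M P z a : ℝ) + 7) * P.V / P.D

end

end Pool.Agent.RelEq
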