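import Pool.Agent.Lib_MP_50c299_an.Gibbs

/-!
# Submodularity and conditionally independent couplings
-/

open MeasureTheory Filter Topology

namespace Pool.Agent.RelEq

/-- Expectation of a function of the image. -/
theorem cp_sum_map_mul {α γ : Type} [Fintype α] [Fintype γ] (p : α → ℝ) (g : α → γ) (F : γ → ℝ) :
    ∑ c, (∑ a, ind (g a = c) * p a) * F c = ∑ a, p a * F (g a) := by
  simp_rw [Finset.sum_mul]
  rw [Finset.sum_comm]
  refine Finset.sum_congr rfl fun a _ => ?_
  rw [← sum_ind_eq (g a) F, Finset.mul_sum]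
  exact Finset.sum_congr rfl fun c _ => by ring

theorem cp_sum_fst_mul {α β : Type} [Fintype α] [Fintype β] (p : α × β → ℝ) (F : α → ℝ) :
    ∑ a, (∑ b, p (a, b)) * F a = ∑ z, p z * F z.1 := by
  rw [Fintype.sum_prod_type]
  exact Finset.sum_congr rfl fun a _ => by rw [Finset.sum_mul]

theorem cp_sum_snd_mul {α β : Type} [Fintype α] [Fintype β] (p : α × β → ℝ) (F : β → ℝ) :
    ∑ b, (∑ a, p (a, b)) * F b = ∑ z, p z * F z.2 := by
  rw [Fintype.sum_prod_type_right]
  exact Finset.sum_congr rfl fun a _ => by rw [Finset.sum_mul]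

theorem cp_Hent_eq_sum {α : Type} [Fintype α] (p : α → ℝ) :
    Hent p = ∑ a, p a * (-Real.log (p a)) := by
  unfold Hent
  exact Finset.sum_congr rfl fun a _ => by rw [Real.negMulLog]; ring

/-- Submodularity of entropy. -/
theorem submod {α β γ : Type} [Fintype α] [Fintype β] [Fintype γ] {p : α × β → ℝ}
    (hp : IsLaw p) (g : α → γ) (k : β → γ) (hs : ∀ z, p z ≠ 0 → g z.1 = k z.2) :
    Hent p + Hent (fun c => ∑ z, ind (g z.1 = c) * p z)
      ≤ Hent (fun a => ∑ b, p (a, b)) + Hent (fun b => ∑ a, p (a, b)) := by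
  classical
  set P1 : α → ℝ := fun a => ∑ b, p (a, b) with hP1
  set P2 : β → ℝ := fun b => ∑ a, p (a, b) with hP2
  set Pg : γ → ℝ := fun c => ∑ z, ind (g z.1 = c) * p z with hPg
  have hP1n : ∀ a, 0 ≤ P1 a := fun a => Finset.sum_nonneg fun b _ => hp.nonneg _
  have hP2n : ∀ b, 0 ≤ P2 b := fun b => Finset.sum_nonneg fun a _ => hp.nonneg _
  have hPgn : ∀ c, 0 ≤ Pg c := fun c =>
    Finset.sum_nonneg fun z _ => mul_nonneg (ind_nonneg _) (hp.nonneg _)
  -- the marginals of the image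
  have hg1 : ∀ c, ∑ a, ind (g a = c) * P1 a = Pg c := by
    intro c
    have := cp_sum_fst_mul p (fun a => ind (g a = c))
    rw [hPg]
    simp only
    rw [show (∑ z, ind (g z.1 = c) * p z) = ∑ z, p z * ind (g z.1 = c) from
      Finset.sum_congr rfl fun z _ => mul_comm _ _, ← this]
    exact Finset.sum_congr rfl fun z _ => mul_comm _ _
  have hg2 : ∀ c, ∑ b, ind (k b = c) * P2 b = Pg c := by
    intro c
    have := cp_sum_snd_mul p (fun b => ind (k b = c))
    rw [hPg]
    simp only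
    rw [show (∑ z, ind (g z.1 = c) * p z) = ∑ z, p z * ind (k z.2 = c) from
      Finset.sum_congr rfl fun z _ => ?_, ← this]
    · exact Finset.sum_congr rfl fun z _ => mul_comm _ _
    · by_cases hz : p z = 0
      · rw [hz]; ring
      · rw [hs z hz]; ring
  have hPg1 : ∑ c, Pg c = 1 := by
    have := cp_sum_map_mul p (fun z : α × β => g z.1) (fun _ => 1)
    simp only [mul_one] at this
    rw [hPg]
    simp only
    rw [this, hp.sum_one]
  set q : α × β → ℝ := fun z => ind (g z.1 = k z.2) * (P1 z.1 * P2 z.2 / Pg (g z.1)) with hq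
  have hq0 : ∀ z, 0 ≤ q z := fun z =>
    mul_nonneg (ind_nonneg _) (div_nonneg (mul_nonneg (hP1n _) (hP2n _)) (hPgn _))
  have hq1 : ∑ z, q z ≤ 1 := by
    have h1 : ∀ a, ∑ b, q (a, b) ≤ P1 a := by
      intro a
      have h2 : ∑ b, q (a, b) = P1 a / Pg (g a) * Pg (g a) := by
        rw [← hg2 (g a), Finset.mul_sum]
        refine Finset.sum_congr rfl fun b _ => ?_
        simp only [hq]
        rw [ind_congr (show k b = g a ↔ g a = k b from eq_comm), hg2 (g a)]
        ring
      rw [h2]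
      by_cases h0 : Pg (g a) = 0
      · rw [h0, mul_zero]; exact hP1n a
      · rw [div_mul_cancel₀ _ h0]
    calc ∑ z, q z = ∑ a, ∑ b, q (a, b) := Fintype.sum_prod_type _
      _ ≤ ∑ a, P1 a := Finset.sum_le_sum fun a _ => h1 a
      _ = ∑ z, p z := (Fintype.sum_prod_type _).symm
      _ = 1 := hp.sum_one
      _ ≤ 1 := le_refl _
  have hpos : ∀ z, p z ≠ 0 → P1 z.1 ≠ 0 ∧ P2 z.2 ≠ 0 ∧ Pg (g z.1) ≠ 0 := by
    intro z hz
    have hz' : 0 < p z := lt_of_le_of_ne (hp.nonneg z) (Ne.symm hz)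
    refine ⟨?_, ?_, ?_⟩
    · have : p z ≤ P1 z.1 :=
        Finset.single_le_sum (f := fun b => p (z.1, b)) (fun b _ => hp.nonneg _)
          (Finset.mem_univ z.2)
      exact (lt_of_lt_of_le hz' this).ne'
    · have : p z ≤ P2 z.2 :=
        Finset.single_le_sum (f := fun a => p (a, z.2)) (fun b _ => hp.nonneg _)
          (Finset.mem_univ z.1)
      exact (lt_of_lt_of_le hz' this).ne'
    · have : ind (g z.1 = g z.1) * p z ≤ Pg (g z.1) :=
        Finset.single_le_sum (f := fun w : α × β => ind (g w.1 = g z.1) * p w)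
          (fun b _ => mul_nonneg (ind_nonneg _) (hp.nonneg _)) (Finset.mem_univ z)
      rw [ind_pos rfl, one_mul] at this
      exact (lt_of_lt_of_le hz' this).ne'
  have hpq : ∀ z, p z ≠ 0 → q z ≠ 0 := by
    intro z hz
    obtain ⟨h1, h2, h3⟩ := hpos z hz
    simp only [hq]
    rw [ind_pos (hs z hz), one_mul]
    exact div_ne_zero (mul_ne_zero h1 h2) h3
  have key := gibbs hp hq0 hq1 hpq
  have hsum : ∑ z, p z * (-Real.log (q z)) =
      ∑ z, p z * (-Real.log (P1 z.1)) + ∑ z, p z * (-Real.log (P2 z.2))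
        - ∑ z, p z * (-Real.log (Pg (g z.1))) := by
    rw [← Finset.sum_add_distrib, ← Finset.sum_sub_distrib]
    refine Finset.sum_congr rfl fun z _ => ?_
    by_cases hz : p z = 0
    · rw [hz]; ring
    · obtain ⟨h1, h2, h3⟩ := hpos z hz
      simp only [hq]
      rw [ind_pos (hs z hz), one_mul, Real.log_div (mul_ne_zero h1 h2) h3, Real.log_mul h1 h2]
      ring
  have e1 : Hent P1 = ∑ z, p z * (-Real.log (P1 z.1)) := by
    rw [cp_Hent_eq_sum]
    exact cp_sum_fst_mul p (fun a => -Real.log (P1 a))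
  have e2 : Hent P2 = ∑ z, p z * (-Real.log (P2 z.2)) := by
    rw [cp_Hent_eq_sum]
    exact cp_sum_snd_mul p (fun a => -Real.log (P2 a))
  have e3 : Hent Pg = ∑ z, p z * (-Real.log (Pg (g z.1))) := by
    rw [cp_Hent_eq_sum]
    exact cp_sum_map_mul p (fun z : α × β => g z.1) (fun c => -Real.log (Pg c))
  rw [e1, e2, e3]
  linarith [key, hsum]

section
variable {α γ : Type} [Fintype α] [Fintype γ] {p p' : α → ℝ} {g : α → γ} {n : γ → ℝ}

omit [Fintype γ] in
theorem cp_img_nonneg (hp : IsLaw p) (h : ∀ c, ∑ a, ind (g a = c) * p a = n c) (c : γ) :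
    0 ≤ n c := by
  rw [← h c]
  exact Finset.sum_nonneg fun a _ => mul_nonneg (ind_nonneg _) (hp.nonneg a)

omit [Fintype γ] in
theorem cp_img_zero (hp : IsLaw p) (h : ∀ c, ∑ a, ind (g a = c) * p a = n c) {a : α}
    (h0 : n (g a) = 0) : p a = 0 := by
  have h1 : ind (g a = g a) * p a ≤ n (g a) := by
    rw [← h (g a)]
    exact Finset.single_le_sum (f := fun b : α => ind (g b = g a) * p b)
      (fun b _ => mul_nonneg (ind_nonneg _) (hp.nonneg _)) (Finset.mem_univ a)
  rw [ind_pos rfl, one_mul, h0] at h1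
  exact le_antisymm h1 (hp.nonneg a)

theorem coup_fst (hp : IsLaw p) (hp' : IsLaw p') (h : ∀ c, ∑ a, ind (g a = c) * p a = n c)
    (h' : ∀ c, ∑ a, ind (g a = c) * p' a = n c) (a : α) :
    ∑ b, coup p p' g n (a, b) = p a := by
  have h2 : ∑ b, coup p p' g n (a, b) = p a / n (g a) * n (g a) := by
    rw [← h' (g a), Finset.mul_sum]
    refine Finset.sum_congr rfl fun b _ => ?_
    unfold coup
    simp only
    rw [ind_congr (show g b = g a ↔ g a = g b from eq_comm), h' (g a)]
    ring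
  rw [h2]
  by_cases h0 : n (g a) = 0
  · rw [h0, mul_zero, cp_img_zero hp h h0]
  · rw [div_mul_cancel₀ _ h0]

theorem coup_snd (hp : IsLaw p) (hp' : IsLaw p') (h : ∀ c, ∑ a, ind (g a = c) * p a = n c)
    (h' : ∀ c, ∑ a, ind (g a = c) * p' a = n c) (b : α) :
    ∑ a, coup p p' g n (a, b) = p' b := by
  have h2 : ∑ a, coup p p' g n (a, b) = p' b / n (g b) * n (g b) := by
    rw [← h (g b), Finset.mul_sum]
    refine Finset.sum_congr rfl fun a _ => ?_
    unfold coup
    simp only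
    rw [h (g b)]
    by_cases hg : g a = g b
    · rw [hg]; ring
    · rw [ind_neg hg]; ring
  rw [h2]
  by_cases h0 : n (g b) = 0
  · rw [h0, mul_zero, cp_img_zero hp' h' h0]
  · rw [div_mul_cancel₀ _ h0]

theorem coup_isLaw (hp : IsLaw p) (hp' : IsLaw p') (h : ∀ c, ∑ a, ind (g a = c) * p a = n c)
    (h' : ∀ c, ∑ a, ind (g a = c) * p' a = n c) : IsLaw (coup p p' g n) := by
  constructor
  · intro z
    unfold coup
    exact mul_nonneg (ind_nonneg _) (div_nonneg (mul_nonneg (hp.nonneg _) (hp'.nonneg _))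
      (cp_img_nonneg hp h _))
  · rw [Fintype.sum_prod_type, ← hp.sum_one]
    exact Finset.sum_congr rfl fun a _ => coup_fst hp hp' h h' a

theorem coup_img (hp : IsLaw p) (hp' : IsLaw p') (h : ∀ c, ∑ a, ind (g a = c) * p a = n c)
    (h' : ∀ c, ∑ a, ind (g a = c) * p' a = n c) (c : γ) :
    ∑ z, ind (g z.1 = c) * coup p p' g n z = n c := by
  rw [Fintype.sum_prod_type, ← h c]
  refine Finset.sum_congr rfl fun a _ => ?_
  simp only
  rw [← Finset.mul_sum, coup_fst hp hp' h h' a]

theorem coup_supp {z : α × α} (h : coup p p' g n z ≠ 0) :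
    p z.1 ≠ 0 ∧ p' z.2 ≠ 0 ∧ g z.1 = g z.2 := by
  refine ⟨fun h1 => h ?_, fun h1 => h ?_, ?_⟩
  · unfold coup; rw [h1]; simp
  · unfold coup; rw [h1]; simp
  · by_contra h1
    apply h
    unfold coup
    rw [ind_neg h1, zero_mul]

theorem coup_ent (hp : IsLaw p) (hp' : IsLaw p') (h : ∀ c, ∑ a, ind (g a = c) * p a = n c)
    (h' : ∀ c, ∑ a, ind (g a = c) * p' a = n c) :
    Hent (coup p p' g n) = Hent p + Hent p' - Hent n := by
  have e1 : Hent p = ∑ z, coup p p' g n z * (-Real.log (p z.1)) := by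
    rw [cp_Hent_eq_sum, ← cp_sum_fst_mul (coup p p' g n) (fun a => -Real.log (p a))]
    exact Finset.sum_congr rfl fun a _ => by rw [coup_fst hp hp' h h' a]
  have e2 : Hent p' = ∑ z, coup p p' g n z * (-Real.log (p' z.2)) := by
    rw [cp_Hent_eq_sum, ← cp_sum_snd_mul (coup p p' g n) (fun a => -Real.log (p' a))]
    exact Finset.sum_congr rfl fun a _ => by rw [coup_snd hp hp' h h' a]
  have e3 : Hent n = ∑ z, coup p p' g n z * (-Real.log (n (g z.1))) := by
    rw [cp_Hent_eq_sum, ← cp_sum_map_mul (coup p p' g n) (fun z : α × α => g z.1)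
      (fun c => -Real.log (n c))]
    exact Finset.sum_congr rfl fun c _ => by rw [coup_img hp hp' h h' c]
  rw [e1, e2, e3, cp_Hent_eq_sum, ← Finset.sum_add_distrib, ← Finset.sum_sub_distrib]
  refine Finset.sum_congr rfl fun z _ => ?_
  by_cases hz : coup p p' g n z = 0
  · rw [hz]; ring
  · obtain ⟨h1, h2, h3⟩ := coup_supp hz
    have h4 : n (g z.1) ≠ 0 := fun h0 => h1 (cp_img_zero hp h h0)
    have h5 : coup p p' g n z = p z.1 * p' z.2 / n (g z.1) := by
      unfold coup
      rw [ind_pos h3, one_mul]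
    have h6 : Real.log (coup p p' g n z) =
        Real.log (p z.1) + Real.log (p' z.2) - Real.log (n (g z.1)) := by
      rw [h5, Real.log_div (mul_ne_zero h1 h2) h4, Real.log_mul h1 h2]
    rw [h6]
    ring

end

end Pool.Agent.RelEq
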