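import Pool.Agent.Lib_MP_50c299_an.Basic

/-!
# Detection of a change point; an exponential sum
-/

open MeasureTheory Filter Topology

namespace Pool.Agent.RelEq

/-- Mismatches of the bits `b` with the pattern `1` before `j`, `0` from `j` on. -/
noncomputable def mm (b : ℕ → Prop) (J j : ℕ) : ℕ := by
  classical
  exact ((Finset.range J).filter fun k => (k < j ∧ ¬ b k) ∨ (j ≤ k ∧ b k)).card

theorem exists_jhat (b : ℕ → Prop) (J : ℕ) : ∃ j ≤ J, ∀ i ≤ J, mm b J j ≤ mm b J i := by
  obtain ⟨j, hj, h⟩ := Finset.exists_min_image (Finset.range (J + 1)) (mm b J) ⟨0, by simp⟩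
  rw [Finset.mem_range] at hj
  exact ⟨j, by omega, fun i hi => h i (by rw [Finset.mem_range]; omega)⟩

/-- The estimated change point. -/
noncomputable def jhat (b : ℕ → Prop) (J : ℕ) : ℕ := (exists_jhat b J).choose

theorem mm_add (b : ℕ → Prop) (J i j : ℕ) (hj : j ≤ J) :
    j - i ≤ mm b J i + mm b J j := by
  classical
  unfold mm
  have h1 : (Finset.Ico i j).card ≤
      (((Finset.range J).filter fun k => (k < i ∧ ¬ b k) ∨ (i ≤ k ∧ b k)) ∪
        ((Finset.range J).filter fun k => (k < j ∧ ¬ b k) ∨ (j ≤ k ∧ b k))).card := by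
    refine Finset.card_le_card fun k hk => ?_
    rw [Finset.mem_Ico] at hk
    simp only [Finset.mem_union, Finset.mem_filter, Finset.mem_range]
    by_cases hb : b k
    · exact Or.inl ⟨by omega, Or.inr ⟨hk.1, hb⟩⟩
    · exact Or.inr ⟨by omega, Or.inl ⟨hk.2, hb⟩⟩
  rw [Nat.card_Ico] at h1
  exact h1.trans (Finset.card_union_le _ _)

theorem jhat_close (b : ℕ → Prop) (J j : ℕ) (hj : j ≤ J) :
    |(jhat b J : ℤ) - j| ≤ 2 * mm b J j := by
  obtain ⟨h1, h2⟩ := (exists_jhat b J).choose_spec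
  have h3 : mm b J (jhat b J) ≤ mm b J j := h2 j hj
  change jhat b J ≤ J at h1
  rcases le_total (jhat b J) j with h | h
  · have := mm_add b J (jhat b J) j hj
    rw [abs_le]
    constructor <;> omega
  · have := mm_add b J j (jhat b J) h1
    rw [abs_le]
    constructor <;> omega

theorem exp_sum (D : ℝ) (hD : 1 ≤ D) (c : ℤ) (M : ℕ) :
    ∑ t ∈ Finset.range M, Real.exp (-|((t : ℤ) - c : ℤ)| / D) ≤ 2 * (D + 1) := by
  have hD0 : 0 < D := by linarith
  set x : ℝ := Real.exp (-1 / D) with hx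
  have hx0 : 0 < x := Real.exp_pos _
  have hx1 : x < 1 := by
    rw [hx, Real.exp_lt_one_iff]
    exact div_neg_of_neg_of_pos (by norm_num) hD0
  have hx2 : (1 - x)⁻¹ ≤ D + 1 := by
    have h1 : 1 + 1 / D ≤ Real.exp (1 / D) := by
      have := Real.add_one_le_exp (1 / D)
      linarith
    have h2 : x = (Real.exp (1 / D))⁻¹ := by
      rw [hx, ← Real.exp_neg]
      congr 1
      ring
    have h3 : x ≤ D / (D + 1) := by
      rw [h2]
      have h4 : (Real.exp (1 / D))⁻¹ ≤ (1 + 1 / D)⁻¹ := inv_anti₀ (by positivity) h1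
      refine h4.trans (le_of_eq ?_)
      field_simp
    have h5 : 1 / (D + 1) ≤ 1 - x := by
      have : 1 - D / (D + 1) = 1 / (D + 1) := by field_simp; ring
      linarith
    calc (1 - x)⁻¹ ≤ (1 / (D + 1))⁻¹ := inv_anti₀ (by positivity) h5
      _ = D + 1 := by rw [one_div, inv_inv]
  have hpow : ∀ n : ℕ, Real.exp (-(n : ℝ) / D) = x ^ n := by
    intro n
    rw [hx, ← Real.exp_nat_mul]
    congr 1
    ring
  -- the terms with `t ≥ c` and with `t < c`
  have hgeom : ∀ s : Finset ℕ, ∑ n ∈ s, x ^ n ≤ D + 1 := by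
    intro s
    calc ∑ n ∈ s, x ^ n ≤ ∑' n : ℕ, x ^ n :=
          (summable_geometric_of_lt_one hx0.le hx1).sum_le_tsum s fun n _ => pow_nonneg hx0.le n
      _ = (1 - x)⁻¹ := tsum_geometric_of_lt_one hx0.le hx1
      _ ≤ D + 1 := hx2
  have hterm : ∀ t : ℕ, Real.exp (-|((t : ℤ) - c : ℤ)| / D) = x ^ ((t : ℤ) - c).natAbs := by
    intro t
    rw [← hpow]
    congr 2
    rw [← Int.cast_natCast (R := ℝ), Int.natCast_natAbs]
  rw [Finset.sum_congr rfl fun t _ => hterm t,
    ← Finset.sum_filter_add_sum_filter_not (Finset.range M) fun t : ℕ => c ≤ (t : ℤ)]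
  have s1 : ∑ t ∈ (Finset.range M).filter (fun t : ℕ => c ≤ (t : ℤ)),
      x ^ ((t : ℤ) - c).natAbs ≤ D + 1 := by
    rw [← Finset.sum_image (s := (Finset.range M).filter fun t : ℕ => c ≤ (t : ℤ))
      (g := fun t : ℕ => ((t : ℤ) - c).natAbs) (f := fun n => x ^ n)]
    · exact hgeom _
    · intro a ha b hb hab
      simp only [Finset.coe_filter, Set.mem_ofPred_eq] at ha hb
      simp only at hab
      omega
  have s2 : ∑ t ∈ (Finset.range M).filter (fun t : ℕ => ¬ c ≤ (t : ℤ)),
      x ^ ((t : ℤ) - c).natAbs ≤ D + 1 := by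
    rw [← Finset.sum_image (s := (Finset.range M).filter fun t : ℕ => ¬ c ≤ (t : ℤ))
      (g := fun t : ℕ => ((t : ℤ) - c).natAbs) (f := fun n => x ^ n)]
    · exact hgeom _
    · intro a ha b hb hab
      simp only [Finset.coe_filter, Set.mem_ofPred_eq] at ha hb
      simp only at hab
      omega
  linarith

/-- The estimated swap time in the block starting at `a`, from the first point `x` after the
swap; `σ` tells in which order the two types of behaviour occur. -/
noncomputable def cen {A : Type} (P : Par A) (x : ℤ → A) (a : ℤ) (σ : Prop) : ℤ :=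
  a + P.V * jhat (fun k => (bit P x (a + (k * P.V : ℕ)) ↔ σ)) P.J

end Pool.Agent.RelEq
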