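import Pool.Agent.Lib_MP_50c299_an.Swap

/-!
# Swapping the tails of two words
-/

open MeasureTheory Filter Topology

namespace Pool.Agent.RelEq

variable {A B : Type} [Nonempty A] [TopologicalSpace A]

/-- The standing assumptions on a swap of words at time `t`. -/
structure SwOK (S : Sys A B) (L M : ℕ) (z : PW A M) (t : ℕ) : Prop where
  adm : AdmP S M z
  le : t + L + S.r ≤ M
  good : Good S L t (ext S M z.1) (ext S M z.2)

theorem SwOK.mem₁ {S : Sys A B} {L M : ℕ} {z : PW A M} {t : ℕ} (h : SwOK S L M z t) :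
    sw S L t (ext S M z.1) (ext S M z.2) ∈ S.X :=
  sw_mem (ext_mem h.adm.1) (ext_mem h.adm.2.1) h.good.1

theorem SwOK.mem₂ {S : Sys A B} {L M : ℕ} {z : PW A M} {t : ℕ} (h : SwOK S L M z t) :
    sw S L t (ext S M z.2) (ext S M z.1) ∈ S.X :=
  sw_mem (ext_mem h.adm.2.1) (ext_mem h.adm.1) h.good.2

theorem act_some {S : Sys A B} {L M : ℕ} {z : PW A M} {t : ℕ} :
    act S L M z (some t) = (wd M (sw S L t (ext S M z.1) (ext S M z.2)),
      wd M (sw S L t (ext S M z.2) (ext S M z.1))) := rfl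

/-- The extension of a new word agrees with the swapped point on `[0, M)`. -/
theorem wd_act₁ {S : Sys A B} {L M : ℕ} {z : PW A M} {t : ℕ} (h : SwOK S L M z t) :
    wd M (ext S M (act S L M z (some t)).1) =
      wd M (sw S L t (ext S M z.1) (ext S M z.2)) :=
  wd_ext (admW_wd h.mem₁)

theorem wd_act₂ {S : Sys A B} {L M : ℕ} {z : PW A M} {t : ℕ} (h : SwOK S L M z t) :
    wd M (ext S M (act S L M z (some t)).2) =
      wd M (sw S L t (ext S M z.2) (ext S M z.1)) :=
  wd_ext (admW_wd h.mem₂)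

/-- The common image word is unchanged. -/
theorem imw_sw₁ {S : Sys A B} {L M : ℕ} {z : PW A M} {t : ℕ} (h : SwOK S L M z t) :
    imw S M (sw S L t (ext S M z.1) (ext S M z.2)) = imw S M (ext S M z.1) := by
  have hr := S.hr
  funext i
  rw [imw_apply, imw_apply]
  by_cases hi : (i : ℤ) + S.s < t + L + S.r - S.s
  · exact sw_img_left h.good.1 _ hi
  · rw [sw_img_right h.good.1 _ (by omega)]
    exact (congrFun h.adm.2.2 i).symm

theorem imw_sw₂ {S : Sys A B} {L M : ℕ} {z : PW A M} {t : ℕ} (h : SwOK S L M z t) :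
    imw S M (sw S L t (ext S M z.2) (ext S M z.1)) = imw S M (ext S M z.1) := by
  have hr := S.hr
  funext i
  rw [imw_apply, imw_apply]
  by_cases hi : (i : ℤ) + S.s < t + L + S.r - S.s
  · rw [sw_img_left h.good.2 _ hi]
    exact (congrFun h.adm.2.2 i).symm
  · exact sw_img_right h.good.2 _ (by omega)

theorem act_img {S : Sys A B} {L M : ℕ} {z : PW A M} {t : ℕ} (h : SwOK S L M z t) :
    imw S M (ext S M (act S L M z (some t)).1) = imw S M (ext S M z.1) := by
  rw [imw_congr (wd_act₁ h), imw_sw₁ h]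

theorem act_adm {S : Sys A B} {L M : ℕ} {z : PW A M} {t : ℕ} (h : SwOK S L M z t) :
    AdmP S M (act S L M z (some t)) := by
  refine ⟨admW_wd h.mem₁, admW_wd h.mem₂, ?_⟩
  rw [act_img h, imw_congr (wd_act₂ h), imw_sw₂ h]

theorem act_left {S : Sys A B} {L M : ℕ} {z : PW A M} {t : ℕ} (h : SwOK S L M z t) (i : ℤ)
    (h0 : 0 ≤ i) (hi : i < t) :
    ext S M (act S L M z (some t)).1 i = ext S M z.1 i ∧
      ext S M (act S L M z (some t)).2 i = ext S M z.2 i := by
  have hle := h.le
  have h1 := (wd_eq_iff _ _ _).1 (wd_act₁ h) i h0 (by omega)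
  have h2 := (wd_eq_iff _ _ _).1 (wd_act₂ h) i h0 (by omega)
  rw [h1, h2]
  exact ⟨sw_left h.good.1 i (by omega), sw_left h.good.2 i (by omega)⟩

theorem act_right {S : Sys A B} {L M : ℕ} {z : PW A M} {t : ℕ} (h : SwOK S L M z t) (i : ℤ)
    (hi : t + L ≤ i) (hM : i < M) :
    ext S M (act S L M z (some t)).1 i = ext S M z.2 i ∧
      ext S M (act S L M z (some t)).2 i = ext S M z.1 i := by
  have h1 := (wd_eq_iff _ _ _).1 (wd_act₁ h) i (by omega) hM
  have h2 := (wd_eq_iff _ _ _).1 (wd_act₂ h) i (by omega) hM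
  rw [h1, h2]
  exact ⟨sw_right h.good.1 i hi, sw_right h.good.2 i hi⟩

/-- The pair is determined by the result of the swap, the swap time, and the words in the
window of the bridge. -/
theorem act_inj {S : Sys A B} {L M : ℕ} {z z' : PW A M} {t : ℕ} (h : SwOK S L M z t)
    (h' : SwOK S L M z' t) (he : act S L M z (some t) = act S L M z' (some t))
    (hw : ∀ i : Fin M, t ≤ (i : ℕ) → (i : ℕ) < t + L → z.1 i = z'.1 i ∧ z.2 i = z'.2 i) :
    z = z' := by
  have e1 : ∀ (z : PW A M), AdmP S M z → ∀ i : Fin M, z.1 i = ext S M z.1 i := fun z hz i => by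
    have := congrFun (wd_ext hz.1) i
    rw [wd_apply] at this
    exact this.symm
  have e2 : ∀ (z : PW A M), AdmP S M z → ∀ i : Fin M, z.2 i = ext S M z.2 i := fun z hz i => by
    have := congrFun (wd_ext hz.2.1) i
    rw [wd_apply] at this
    exact this.symm
  have key : ∀ i : Fin M, z.1 i = z'.1 i ∧ z.2 i = z'.2 i := by
    intro i
    have hi := i.2
    by_cases h1 : (i : ℕ) < t
    · obtain ⟨a, b⟩ := act_left h i (by omega) (by omega)
      obtain ⟨a', b'⟩ := act_left h' i (by omega) (by omega)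
      rw [e1 z h.adm, e1 z' h'.adm, e2 z h.adm, e2 z' h'.adm, ← a, ← a', ← b, ← b', he]
      exact ⟨rfl, rfl⟩
    · by_cases h2 : (i : ℕ) < t + L
      · exact hw i (by omega) h2
      · obtain ⟨a, b⟩ := act_right h i (by omega) (by omega)
        obtain ⟨a', b'⟩ := act_right h' i (by omega) (by omega)
        rw [e1 z h.adm, e1 z' h'.adm, e2 z h.adm, e2 z' h'.adm, ← a, ← a', ← b, ← b', he]
        exact ⟨rfl, rfl⟩
  exact Prod.ext (funext fun i => (key i).1) (funext fun i => (key i).2)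

end Pool.Agent.RelEq
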