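import Pool.Agent.Lib_MP_50c299_an.Decode
import Pool.Agent.Lib_MP_50c299_an.Words

/-!
# Decoding the swap time; invariance of the other blocks
-/

open MeasureTheory Filter Topology

namespace Pool.Agent.RelEq

variable {A B : Type} [Fintype A] [Nonempty A] [TopologicalSpace A] [DiscreteTopology A]
  [MeasurableSpace A] [DiscreteMeasurableSpace A]

/-- The order of the two types of behaviour. -/
def sgn (S : Sys A B) (M : ℕ) (P : Par A) (z : PW A M) (a : ℤ) : Prop :=
  errA P (ext S M z.1) (ext S M z.2) a ≤ errA P (ext S M z.2) (ext S M z.1) a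

namespace DSw

theorem bit_congr {A : Type} {P : Par A} {x x' : ℤ → A} {a : ℤ}
    (h : ∀ i : ℤ, a ≤ i → i < a + P.V + P.q → x i = x' i) : bit P x a ↔ bit P x' a := by
  have h1 : ∑ t ∈ Finset.range P.V, P.φ (wd P.q (sh (a + t) x)) =
      ∑ t ∈ Finset.range P.V, P.φ (wd P.q (sh (a + t) x')) := by
    refine Finset.sum_congr rfl fun t ht => ?_
    rw [Finset.mem_range] at ht
    congr 1
    funext i
    simp only [wd_apply, sh_apply]
    have := i.2
    exact h _ (by omega) (by omega)
  unfold bit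
  rw [h1]

theorem errA_congr {A : Type} {P : Par A} {x x' y y' : ℤ → A} {a : ℤ}
    (hx : ∀ k : ℕ, k < P.J → (bit P x (a + (k * P.V : ℕ)) ↔ bit P y (a + (k * P.V : ℕ))))
    (hx' : ∀ k : ℕ, k < P.J → (bit P x' (a + (k * P.V : ℕ)) ↔ bit P y' (a + (k * P.V : ℕ)))) :
    errA P x x' a = errA P y y' a := by
  classical
  unfold errA
  congr 1
  refine Finset.filter_congr fun k hk => ?_
  rw [Finset.mem_range] at hk
  rw [hx k hk, hx' k hk]

omit [Fintype A] [Nonempty A] [TopologicalSpace A] [DiscreteTopology A]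
  [MeasurableSpace A] [DiscreteMeasurableSpace A] in
/-- The arithmetic of the windows. -/
theorem arith {P : Par A} {k : ℕ} (hk : k < P.J) : k * P.V + P.V ≤ P.J * P.V := by
  calc k * P.V + P.V = (k + 1) * P.V := by ring
    _ ≤ P.J * P.V := Nat.mul_le_mul_right _ hk

theorem mm_le_aux (b : ℕ → Prop) (J j : ℕ) (E : Finset ℕ)
    (h1 : ∀ k < J, k + 2 ≤ j → ¬ b k → k ∈ E) (h2 : ∀ k < J, j + 2 ≤ k → b k → k ∈ E) :
    mm b J j ≤ E.card + 3 := by
  classical
  unfold mm
  refine (Finset.card_le_card (t := E ∪ {j - 1, j, j + 1}) ?_).trans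
    ((Finset.card_union_le _ _).trans (Nat.add_le_add_left Finset.card_le_three _))
  intro k hk
  simp only [Finset.mem_filter, Finset.mem_range, Finset.mem_union, Finset.mem_insert,
    Finset.mem_singleton] at hk ⊢
  obtain ⟨hkJ, hk⟩ := hk
  by_cases hk1 : k + 2 ≤ j
  · left
    rcases hk with hk | hk
    · exact h1 k hkJ hk1 hk.2
    · omega
  · by_cases hk2 : j + 2 ≤ k
    · left
      rcases hk with hk | hk
      · omega
      · exact h2 k hkJ hk2 hk.2
    · right
      omega

omit [Fintype A] [Nonempty A] [TopologicalSpace A] [DiscreteTopology A]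
  [MeasurableSpace A] [DiscreteMeasurableSpace A] in
theorem mm_le_true {P : Par A} {x u v : ℤ → A} {a j : ℕ} {σ : Prop} (hσ : σ)
    (h1 : ∀ k : ℕ, k + 2 ≤ j → (bit P x (a + (k * P.V : ℕ)) ↔ bit P u (a + (k * P.V : ℕ))))
    (h2 : ∀ k : ℕ, k < P.J → j + 2 ≤ k →
      (bit P x (a + (k * P.V : ℕ)) ↔ bit P v (a + (k * P.V : ℕ)))) :
    mm (fun k => (bit P x (a + (k * P.V : ℕ)) ↔ σ)) P.J j ≤ errA P u v a + 3 := by
  classical
  unfold errA
  refine mm_le_aux _ _ _ _ (fun k hkJ hk hb => ?_) (fun k hkJ hk hb => ?_)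
  · rw [Finset.mem_filter, Finset.mem_range]
    refine ⟨hkJ, Or.inl ?_⟩
    rw [← h1 k hk]
    exact fun h => hb (iff_of_true h hσ)
  · rw [Finset.mem_filter, Finset.mem_range]
    refine ⟨hkJ, Or.inr ?_⟩
    rw [← h2 k hkJ hk]
    exact hb.2 hσ

omit [Fintype A] [Nonempty A] [TopologicalSpace A] [DiscreteTopology A]
  [MeasurableSpace A] [DiscreteMeasurableSpace A] in
theorem mm_le_false {P : Par A} {x u v : ℤ → A} {a j : ℕ} {σ : Prop} (hσ : ¬ σ)
    (h1 : ∀ k : ℕ, k + 2 ≤ j → (bit P x (a + (k * P.V : ℕ)) ↔ bit P u (a + (k * P.V : ℕ))))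
    (h2 : ∀ k : ℕ, k < P.J → j + 2 ≤ k →
      (bit P x (a + (k * P.V : ℕ)) ↔ bit P v (a + (k * P.V : ℕ)))) :
    mm (fun k => (bit P x (a + (k * P.V : ℕ)) ↔ σ)) P.J j ≤ errA P v u a + 3 := by
  classical
  unfold errA
  refine mm_le_aux _ _ _ _ (fun k hkJ hk hb => ?_) (fun k hkJ hk hb => ?_)
  · rw [Finset.mem_filter, Finset.mem_range]
    refine ⟨hkJ, Or.inr ?_⟩
    rw [← h1 k hk]
    by_contra h
    exact hb (iff_of_false h hσ)
  · rw [Finset.mem_filter, Finset.mem_range]
    refine ⟨hkJ, Or.inl ?_⟩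
    rw [← h2 k hkJ hk]
    exact fun h => hσ (hb.1 h)

end DSw

open DSw

omit [Fintype A] [DiscreteTopology A] [MeasurableSpace A] [DiscreteMeasurableSpace A] in
theorem swOK_of_mem {S : Sys A B} {M : ℕ} {P : Par A} (hP : P.OK S) {z : PW A M} {a : ℕ}
    (ha : a + P.W ≤ M) (hz : AdmP S M z) {t : ℕ} (ht : t ∈ Gam S M P z a) :
    SwOK S P.L M z (a + t) := by
  classical
  unfold Gam at ht
  rw [Finset.mem_filter, Finset.mem_range] at ht
  unfold Par.W at ha
  have := hP.hL
  exact ⟨hz, by omega, by push_cast; exact ht.2⟩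

theorem decode_close {S : Sys A B} {M : ℕ} {P : Par A} (hP : P.OK S) {z : PW A M} {a : ℕ}
    (ha : a + P.W ≤ M) (hz : AdmP S M z) {t : ℕ} (ht : t ∈ Gam S M P z a) :
    |((a + t : ℕ) : ℤ) -
      cen P (ext S M (act S P.L M z (some (a + t))).1) a (sgn S M P z a)| ≤
      (2 * err S M P z a + 7) * P.V := by
  classical
  have hok := swOK_of_mem hP ha hz ht
  unfold Gam at ht
  rw [Finset.mem_filter, Finset.mem_range] at ht
  unfold Par.W at ha
  have hL := hP.hL
  have hV := hP.hV
  have hLV := hP.hLV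
  have hqV := hP.hqV
  have hq := hP.hq
  have htJ := ht.1
  set j := t / P.V with hj
  have hj1 : j * P.V ≤ t := Nat.div_mul_le_self t P.V
  have hj2 : t < j * P.V + P.V := by
    have := Nat.lt_div_mul_add (a := t) (b := P.V) (by omega)
    exact this
  have hjJ : j < P.J := by
    rw [hj]
    exact (Nat.div_lt_iff_lt_mul (by omega)).2 htJ
  have hjj : (j + 1) * P.V = j * P.V + P.V := by ring
  have h1 : ∀ k : ℕ, k + 2 ≤ j →
      (bit P (ext S M (act S P.L M z (some (a + t))).1) (a + (k * P.V : ℕ)) ↔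
        bit P (ext S M z.1) (a + (k * P.V : ℕ))) := by
    intro k hk
    have h3 : (k + 2) * P.V ≤ j * P.V := Nat.mul_le_mul_right _ hk
    have h4 : (k + 2) * P.V = k * P.V + 2 * P.V := by ring
    refine bit_congr fun i hi1 hi2 => (act_left hok i ?_ ?_).1
    · omega
    · generalize hkV : k * P.V = kV at *
      generalize hjV : j * P.V = jV at *
      omega
  have h2 : ∀ k : ℕ, k < P.J → j + 2 ≤ k →
      (bit P (ext S M (act S P.L M z (some (a + t))).1) (a + (k * P.V : ℕ)) ↔
        bit P (ext S M z.2) (a + (k * P.V : ℕ))) := by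
    intro k hkJ hk
    have h3 : (j + 2) * P.V ≤ k * P.V := Nat.mul_le_mul_right _ hk
    have h4 : (j + 2) * P.V = j * P.V + 2 * P.V := by ring
    have h5 := arith hkJ
    refine bit_congr fun i hi1 hi2 => (act_right hok i ?_ ?_).1
    · generalize hkV : k * P.V = kV at *
      generalize hjV : j * P.V = jV at *
      generalize hJV : P.J * P.V = JV at *
      omega
    · generalize hkV : k * P.V = kV at *
      generalize hjV : j * P.V = jV at *
      generalize hJV : P.J * P.V = JV at *
      omega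
  have h3 : mm (fun k => (bit P (ext S M (act S P.L M z (some (a + t))).1)
      (a + (k * P.V : ℕ)) ↔ sgn S M P z a)) P.J j ≤ err S M P z a + 3 := by
    by_cases hs : sgn S M P z a
    · refine (mm_le_true hs h1 h2).trans ?_
      unfold err
      unfold sgn at hs
      rw [min_eq_left hs]
    · refine (mm_le_false hs h1 h2).trans ?_
      unfold err
      unfold sgn at hs
      rw [min_eq_right (by omega)]
  have h4 := jhat_close (fun k => (bit P (ext S M (act S P.L M z (some (a + t))).1)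
      (a + (k * P.V : ℕ)) ↔ sgn S M P z a)) P.J j hjJ.le
  unfold cen
  set jh : ℕ := jhat (fun k => (bit P (ext S M (act S P.L M z (some (a + t))).1)
      (a + (k * P.V : ℕ)) ↔ sgn S M P z a)) P.J with hjh
  set e : ℕ := err S M P z a with he
  have h5 : |(jh : ℤ) - j| ≤ 2 * e + 6 := by
    refine h4.trans ?_
    have : ((mm (fun k => (bit P (ext S M (act S P.L M z (some (a + t))).1)
      (a + (k * P.V : ℕ)) ↔ sgn S M P z a)) P.J j : ℕ) : ℤ) ≤ (e : ℤ) + 3 := by exact_mod_cast h3
    linarith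
  have h6 : |((a + t : ℕ) : ℤ) - ((a : ℤ) + P.V * jh)| ≤
      |(t : ℤ) - j * P.V| + |(jh : ℤ) - j| * P.V := by
    have h7 : ((a + t : ℕ) : ℤ) - ((a : ℤ) + P.V * jh) =
        ((t : ℤ) - j * P.V) - ((jh : ℤ) - j) * P.V := by
      push_cast
      ring
    rw [h7]
    refine (abs_sub _ _).trans (le_of_eq ?_)
    rw [abs_mul, abs_of_nonneg (show (0 : ℤ) ≤ P.V by positivity)]
  have h8 : |(t : ℤ) - j * P.V| ≤ P.V := by
    rw [abs_of_nonneg]
    · have : (t : ℤ) < j * P.V + P.V := by exact_mod_cast hj2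
      linarith
    · have : ((j : ℤ) * P.V) ≤ t := by exact_mod_cast hj1
      linarith
  have h9 : |(jh : ℤ) - j| * P.V ≤ (2 * e + 6) * P.V :=
    mul_le_mul_of_nonneg_right h5 (by positivity)
  calc _ ≤ _ := h6
    _ ≤ (P.V : ℤ) + (2 * e + 6) * P.V := add_le_add h8 h9
    _ = (2 * e + 7) * P.V := by ring

omit [DiscreteTopology A] [MeasurableSpace A] [DiscreteMeasurableSpace A] in
/-- A swap in the block starting at `a` does not change `gfun` for the later blocks. -/
theorem gfun_act {S : Sys A B} {M : ℕ} {P : Par A} (hP : P.OK S) {z : PW A M} {a : ℕ}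
    (ha : a + P.W ≤ M) (hz : AdmP S M z) {t : ℕ} (ht : t ∈ Gam S M P z a) (a' : ℕ)
    (haa : a + P.W ≤ a') (ha' : a' + P.W ≤ M) :
    gfun S M P (act S P.L M z (some (a + t))) a' = gfun S M P z a' := by
  classical
  have hok := swOK_of_mem hP ha hz ht
  unfold Gam at ht
  rw [Finset.mem_filter, Finset.mem_range] at ht
  unfold Par.W at ha haa ha'
  have hL := hP.hL
  have hV := hP.hV
  have hLV := hP.hLV
  have hqV := hP.hqV
  have hq := hP.hq
  have htJ := ht.1
  have hext : ∀ i : ℤ, (a' : ℤ) ≤ i → i < a' + (P.J * P.V + P.pad : ℕ) →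
      ext S M (act S P.L M z (some (a + t))).1 i = ext S M z.2 i ∧
      ext S M (act S P.L M z (some (a + t))).2 i = ext S M z.1 i := by
    intro i hi1 hi2
    generalize hJV : P.J * P.V = JV at *
    exact act_right hok i (by push_cast; omega) (by push_cast at hi2; omega)
  set x := ext S M (act S P.L M z (some (a + t))).1 with hx
  set x' := ext S M (act S P.L M z (some (a + t))).2 with hx'
  have hb1 : ∀ k : ℕ, k < P.J → (bit P x ((a' : ℤ) + (k * P.V : ℕ)) ↔
      bit P (ext S M z.2) ((a' : ℤ) + (k * P.V : ℕ))) := by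
    intro k hk
    have h5 := arith hk
    refine bit_congr fun i hi1 hi2 => (hext i ?_ ?_).1
    · omega
    · generalize hkV : k * P.V = kV at *
      generalize hJV : P.J * P.V = JV at *
      omega
  have hb2 : ∀ k : ℕ, k < P.J → (bit P x' ((a' : ℤ) + (k * P.V : ℕ)) ↔
      bit P (ext S M z.1) ((a' : ℤ) + (k * P.V : ℕ))) := by
    intro k hk
    have h5 := arith hk
    refine bit_congr fun i hi1 hi2 => (hext i ?_ ?_).2
    · omega
    · generalize hkV : k * P.V = kV at *
      generalize hJV : P.J * P.V = JV at *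
      omega
  have herr : err S M P (act S P.L M z (some (a + t))) a' = err S M P z a' := by
    unfold err
    rw [← hx, ← hx', errA_congr hb1 hb2, errA_congr hb2 hb1, min_comm]
  have hGam : Gam S M P (act S P.L M z (some (a + t))) a' = Gam S M P z a' := by
    unfold Gam
    refine Finset.filter_congr fun k hk => ?_
    rw [Finset.mem_range] at hk
    rw [← hx, ← hx']
    generalize hJV : P.J * P.V = JV at *
    rw [good_local (u' := ext S M z.2) (v' := ext S M z.1)]
    · exact good_symm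
    · intro i hi1 hi2
      exact (hext i (by omega) (by push_cast; omega)).1
    · intro i hi1 hi2
      exact (hext i (by omega) (by push_cast; omega)).2
  unfold gfun
  rw [herr, hGam]

end Pool.Agent.RelEq
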