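import Mathlib

/-!
# Relative equilibrium states and class degree: definitions of the statement

Two-sided sequences are functions `ℤ → A`.  A factor code is a map that is continuous and
shift-commuting on `X`; its values off `X` play no role.  Measures on `X` are Borel measures on
`ℤ → A` that give `Xᶜ` mass zero.
-/

open MeasureTheory Filter Topology

namespace Pool.Agent.RelEq

variable {A B : Type}

/-- The left shift on two-sided sequences. -/
def shift (x : ℤ → A) : ℤ → A := fun i => x (i + 1)

/-- Shifts of finite type: for some window length `m`, `X` consists of all two-sided sequences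
all of whose words of length `m` lie in some given set `W` of allowed words. -/
def IsSFT (X : Set (ℤ → A)) : Prop :=
  ∃ (m : ℕ) (W : Set (Fin m → A)), X = {x | ∀ i : ℤ, (fun j : Fin m => x (i + j)) ∈ W}

/-- `π` is a factor code from `X` onto `Y`: continuous on `X`, commuting with the shift on `X`,
and onto `Y`. -/
structure IsFactorCode [TopologicalSpace A] [TopologicalSpace B] (X : Set (ℤ → A))
    (Y : Set (ℤ → B)) (π : (ℤ → A) → (ℤ → B)) : Prop where
  continuousOn : ContinuousOn π X
  comm : ∀ x ∈ X, π (shift x) = shift (π x)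
  image : π '' X = Y

/-- The relation `x → x'`: for every `n` there is `v ∈ X` with the same image as `x`, which
agrees with `x` up to `n` and with `x'` from some `m ≥ n` on. -/
def Reach (X : Set (ℤ → A)) (π : (ℤ → A) → (ℤ → B)) (x x' : ℤ → A) : Prop :=
  ∀ n : ℤ, ∃ v ∈ X, π v = π x ∧ (∀ i ≤ n, v i = x i) ∧ ∃ m ≥ n, ∀ i ≥ m, v i = x' i

/-- The set `𝒞(y)` of transition classes over `y`: the classes of the relation
`x → x'` and `x' → x` on `X ∩ π⁻¹{y}`. -/
def transitionClasses (X : Set (ℤ → A)) (π : (ℤ → A) → (ℤ → B)) (y : ℤ → B) :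
    Set (Set (ℤ → A)) :=
  {C | ∃ x ∈ X, π x = y ∧ C = {x' | x' ∈ X ∧ π x' = y ∧ Reach X π x x' ∧ Reach X π x' x}}

/-- The class degree: the minimal number of transition classes over the points of `Y`. -/
noncomputable def classDegree (X : Set (ℤ → A)) (Y : Set (ℤ → B)) (π : (ℤ → A) → (ℤ → B)) :
    ℕ∞ :=
  ⨅ y ∈ Y, (transitionClasses X π y).encard

/-- The Bowen class `Bow(X)`: `f` is continuous on `X`, and for some `K` the Birkhoff sums
`S_n f` of two points of `X` which agree on `[0, n)` differ by at most `K`, for all `n`. -/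
def IsBowen [TopologicalSpace A] (X : Set (ℤ → A)) (f : (ℤ → A) → ℝ) : Prop :=
  ContinuousOn f X ∧ ∃ K : ℝ, ∀ n : ℕ, ∀ x ∈ X, ∀ x' ∈ X,
    (∀ i : ℤ, 0 ≤ i → i < n → x i = x' i) →
      |birkhoffSum shift f n x - birkhoffSum shift f n x'| ≤ K

/-- The fibre `π⁻¹{ν}`: shift-invariant Borel probability measures on `X` with image `ν`. -/
def fibre [MeasurableSpace A] [MeasurableSpace B] (X : Set (ℤ → A)) (π : (ℤ → A) → (ℤ → B))
    (ν : Measure (ℤ → B)) : Set (Measure (ℤ → A)) :=
  {μ | IsProbabilityMeasure μ ∧ μ Xᶜ = 0 ∧ MeasurePreserving shift μ μ ∧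
    ∀ E : Set (ℤ → B), MeasurableSet E → μ (X ∩ π ⁻¹' E) = ν E}

/-- Shannon entropy of the joint distribution of `ξ(x), ξ(Tx), …, ξ(T^{n-1}x)` under `μ`, where
the measurable map `ξ` with values in `Fin k` stands for a finite measurable partition. -/
noncomputable def partitionEntropy {α : Type} [MeasurableSpace α] (T : α → α) (μ : Measure α)
    {k : ℕ} (ξ : α → Fin k) (n : ℕ) : ℝ :=
  ∑ w : Fin n → Fin k, Real.negMulLog (μ.real {x | ∀ i : Fin n, ξ (T^[i] x) = w i})

/-- Kolmogorov-Sinai entropy `h_μ(T)`: the supremum over all finite measurable partitions of the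
exponential growth rate of the entropy of the refined partitions. -/
noncomputable def ksEntropy {α : Type} [MeasurableSpace α] (T : α → α) (μ : Measure α) : ℝ :=
  ⨆ ξ : (Σ k : ℕ, {ξ : α → Fin k // Measurable ξ}),
    limsup (fun n : ℕ => partitionEntropy T μ ξ.2.1 n / n) atTop

/-- The pressure `h_μ(T) + ∫ f dμ`. -/
noncomputable def pressure [MeasurableSpace A] (f : (ℤ → A) → ℝ) (μ : Measure (ℤ → A)) : ℝ :=
  ksEntropy shift μ + ∫ x, f x ∂μ

/-- The ergodic measures of maximal pressure of `f` in the fibre over `ν`. -/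
def ergodicMaximizers [MeasurableSpace A] [MeasurableSpace B] (X : Set (ℤ → A))
    (π : (ℤ → A) → (ℤ → B)) (ν : Measure (ℤ → B)) (f : (ℤ → A) → ℝ) : Set (Measure (ℤ → A)) :=
  {μ | μ ∈ fibre X π ν ∧ Ergodic shift μ ∧ ∀ μ' ∈ fibre X π ν, pressure f μ' ≤ pressure f μ}

/-- `ν` is a fully supported ergodic shift-invariant Borel probability measure on `Y`. -/
structure IsFullErgodic [TopologicalSpace B] [MeasurableSpace B] (Y : Set (ℤ → B))
    (ν : Measure (ℤ → B)) : Prop where
  prob : IsProbabilityMeasure ν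
  supp : ν Yᶜ = 0
  ergodic : Ergodic shift ν
  full : ∀ U : Set (ℤ → B), IsOpen U → (U ∩ Y).Nonempty → 0 < ν U

end Pool.Agent.RelEq
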