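import Pool.Agent.Lib_MP_50c299_an.Words

/-!
# The energy change of a swap
-/

open MeasureTheory Filter Topology

namespace Pool.Agent.RelEq

theorem bsum_add {A : Type} (f : (ℤ → A) → ℝ) (m n : ℕ) (x : ℤ → A) :
    bsum f (m + n) x = bsum f m x + bsum f n (sh m x) := by
  unfold bsum
  rw [Finset.sum_range_add]
  congr 1
  refine Finset.sum_congr rfl fun t _ => ?_
  rw [sh_sh]
  congr 2
  push_cast
  ring

theorem bsum_abs_le {A : Type} (f : (ℤ → A) → ℝ) (F : ℝ) (hF : ∀ x, |f x| ≤ F) (n : ℕ)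
    (x : ℤ → A) : |bsum f n x| ≤ n * F := by
  unfold bsum
  calc |∑ t ∈ Finset.range n, f (sh t x)| ≤ ∑ t ∈ Finset.range n, |f (sh t x)| :=
        Finset.abs_sum_le_sum_abs _ _
    _ ≤ ∑ _t ∈ Finset.range n, F := Finset.sum_le_sum fun t _ => hF _
    _ = n * F := by simp

variable {A B : Type} [Nonempty A] [TopologicalSpace A]

theorem act_energy {S : Sys A B} {L M : ℕ} {z : PW A M} {t : ℕ} (h : SwOK S L M z t)
    (f : (ℤ → A) → ℝ) (F K : ℝ) (hF : ∀ x, |f x| ≤ F)
    (hB : ∀ n : ℕ, ∀ x ∈ S.X, ∀ x' ∈ S.X, (∀ i : ℤ, 0 ≤ i → i < n → x i = x' i) →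
      |bsum f n x - bsum f n x'| ≤ K) :
    |En S M f (act S L M z (some t)) - En S M f z| ≤ 6 * K + 4 * L * F := by
  have hle := h.le
  have hadm := act_adm h
  have hu := ext_mem h.adm.1
  have hv := ext_mem h.adm.2.1
  set u := ext S M z.1 with hu'
  set v := ext S M z.2 with hv'
  -- one swapped point
  have key : ∀ (u v g x : ℤ → A), u ∈ S.X → v ∈ S.X → g ∈ S.X → x ∈ S.X →
      (∀ i : ℤ, 0 ≤ i → i < M → x i = g i) → (∀ i : ℤ, i < t → g i = u i) →
      (∀ i : ℤ, t + L ≤ i → g i = v i) →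
      |bsum f M x - (bsum f t u + bsum f (M - t - L) (sh ((t + L : ℕ) : ℤ) v))| ≤
        3 * K + L * F := by
    intro u v g x hu hv hg hx hxg hgu hgv
    have e1 := hB M x hx g hg hxg
    have e2 := hB t g hg u hu fun i _ hi => hgu i hi
    have e3 := hB (M - t - L) (sh ((t + L : ℕ) : ℤ) g) (S.inv _ g hg)
      (sh ((t + L : ℕ) : ℤ) v) (S.inv _ v hv) fun i h0 _ => by
        simp only [sh_apply]
        exact hgv _ (by push_cast; omega)
    have e4 := bsum_abs_le f F hF L (sh (t : ℤ) g)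
    have e5 : bsum f M g = bsum f t g + bsum f L (sh (t : ℤ) g) +
        bsum f (M - t - L) (sh ((t + L : ℕ) : ℤ) g) := by
      have hM : M = (t + L) + (M - t - L) := by omega
      conv_lhs => rw [hM]
      rw [bsum_add, bsum_add]
    rw [abs_le] at e1 e2 e3 e4 ⊢
    rw [e5] at e1
    constructor <;> linarith [e1.1, e1.2, e2.1, e2.2, e3.1, e3.2, e4.1, e4.2]
  have k1 := key u v (sw S L t u v) (ext S M (act S L M z (some t)).1) hu hv h.mem₁
    (ext_mem hadm.1) ((wd_eq_iff _ _ _).1 (wd_act₁ h)) (fun i hi => sw_left h.good.1 i (by omega))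
    (fun i hi => sw_right h.good.1 i hi)
  have k2 := key v u (sw S L t v u) (ext S M (act S L M z (some t)).2) hv hu h.mem₂
    (ext_mem hadm.2.1) ((wd_eq_iff _ _ _).1 (wd_act₂ h))
    (fun i hi => sw_left h.good.2 i (by omega)) (fun i hi => sw_right h.good.2 i hi)
  -- the original points
  have key2 : ∀ (x : ℤ → A), bsum f M x = bsum f t x + bsum f L (sh (t : ℤ) x) +
      bsum f (M - t - L) (sh ((t + L : ℕ) : ℤ) x) := by
    intro x
    have hM : M = (t + L) + (M - t - L) := by omega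
    conv_lhs => rw [hM]
    rw [bsum_add, bsum_add]
  have m1 := bsum_abs_le f F hF L (sh (t : ℤ) u)
  have m2 := bsum_abs_le f F hF L (sh (t : ℤ) v)
  have c1 := key2 u
  have c2 := key2 v
  unfold En
  rw [abs_le] at k1 k2 m1 m2 ⊢
  rw [← hu', ← hv', c1, c2]
  constructor <;> linarith [k1.1, k1.2, k2.1, k2.2, m1.1, m1.2, m2.1, m2.2]

end Pool.Agent.RelEq
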