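import Pool.Agent.Lib_MP_50c299_an.Gibbs

/-!
# Entropy of a long word and the averaged blocks
-/

open MeasureTheory Filter Topology

namespace Pool.Agent.RelEq

namespace Misi

/-- the bound for one offset `j` and `n` blocks -/
theorem offset {α C : Type} [Fintype α] [Fintype C] [Nonempty C] {p : α → ℝ} (hp : IsLaw p)
    (x : α → ℕ → C) (M k n j : ℕ) (hk : 1 ≤ k) (hjn : j + n * k ≤ M)
    (hinj : ∀ z z', p z ≠ 0 → p z' ≠ 0 → (∀ i < M, x z i = x z' i) → z = z')
    (κ : (Fin k → C) → ℝ) (hκ0 : ∀ w, 0 ≤ κ w) (hκ1 : ∑ w, κ w = 1)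
    (hpos : ∀ z, p z ≠ 0 → ∀ l < n, κ (fun i : Fin k => x z (j + l * k + i)) ≠ 0) :
    Hent p ≤ ((M - n * k : ℕ) : ℝ) * Real.log (Fintype.card C) +
      ∑ l ∈ Finset.range n, ∑ z, p z * (-Real.log (κ (fun i : Fin k => x z (j + l * k + i)))) := by
  classical
  set r : ℕ := M - n * k with hr
  set c : ℝ := (Fintype.card C : ℝ) with hc
  have hc0 : 0 < c := by rw [hc]; exact_mod_cast Fintype.card_pos
  set Φ : α → (Fin n → Fin k → C) × (Fin r → C) := fun z =>
    (fun l i => x z (j + l * k + i), fun i => x z (if (i : ℕ) < j then i else i + n * k)) with hΦ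
  set Q : (Fin n → Fin k → C) × (Fin r → C) → ℝ := fun y => (∏ l, κ (y.1 l)) * (c⁻¹) ^ r with hQ
  have hQ0 : ∀ y, 0 ≤ Q y := fun y =>
    mul_nonneg (Finset.prod_nonneg fun l _ => hκ0 _) (by positivity)
  have hQ1 : ∑ y, Q y = 1 := by
    rw [Fintype.sum_prod_type]
    simp only [hQ]
    have h1 : ∀ B : Fin n → Fin k → C,
        ∑ _ρ : Fin r → C, (∏ l, κ (B l)) * (c⁻¹) ^ r = ∏ l, κ (B l) := by
      intro B
      rw [Finset.sum_const, Finset.card_univ, Fintype.card_fun, Fintype.card_fin, nsmul_eq_mul,
        Nat.cast_pow, ← hc]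
      have h2 : c ^ r * (c⁻¹) ^ r = 1 := by
        rw [← mul_pow, mul_inv_cancel₀ hc0.ne', one_pow]
      linear_combination (∏ l, κ (B l)) * h2
    rw [Finset.sum_congr rfl fun B _ => h1 B]
    have h3 := Fintype.sum_pow κ n
    rw [hκ1, one_pow] at h3
    exact h3.symm
  have hΦinj : ∀ z z', p z ≠ 0 → p z' ≠ 0 → Φ z = Φ z' → z = z' := by
    intro z z' hz hz' h
    apply hinj z z' hz hz'
    intro i hi
    have hA := congrArg Prod.fst h
    have hB := congrArg Prod.snd h
    simp only [hΦ] at hA hB
    rcases lt_or_ge i j with h1 | h1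
    · have h2 := congrFun hB ⟨i, by omega⟩
      simp only [h1, if_true] at h2
      exact h2
    · rcases lt_or_ge i (j + n * k) with h3 | h3
      · have hl : (i - j) / k < n := by
          rw [Nat.div_lt_iff_lt_mul (by omega)]
          omega
        have h4 := congrFun (congrFun hA ⟨(i - j) / k, hl⟩) ⟨(i - j) % k, Nat.mod_lt _ (by omega)⟩
        have h5 : j + (i - j) / k * k + (i - j) % k = i := by
          have := Nat.div_add_mod (i - j) k
          rw [mul_comm] at this
          omega
        simp only [h5] at h4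
        exact h4
      · have h2 := congrFun hB ⟨i - n * k, by omega⟩
        have h6 : ¬ (i - n * k < j) := by omega
        have h7 : i - n * k + n * k = i := by omega
        simp only [h6, if_false, h7] at h2
        exact h2
  set q : α → ℝ := fun z => if p z ≠ 0 then Q (Φ z) else 0 with hq
  have hq0 : ∀ z, 0 ≤ q z := by
    intro z; simp only [hq]; split_ifs
    · exact hQ0 _
    · exact le_refl _
  have hq1 : ∑ z, q z ≤ 1 := by
    simp only [hq]
    rw [← Finset.sum_filter]
    rw [← Finset.sum_image (f := Q) (g := Φ) (s := Finset.univ.filter fun z => p z ≠ 0)]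
    · rw [← hQ1]
      exact Finset.sum_le_sum_of_subset_of_nonneg (Finset.subset_univ _) fun y _ _ => hQ0 y
    · intro z hz z' hz' h
      simp only [Finset.coe_filter, Finset.mem_univ, true_and, Set.mem_ofPred_eq] at hz hz'
      exact hΦinj z z' hz hz' h
  have hpq : ∀ z, p z ≠ 0 → q z ≠ 0 := by
    intro z hz
    simp only [hq, if_pos hz, hQ, hΦ]
    refine mul_ne_zero ?_ (by positivity)
    rw [Finset.prod_ne_zero_iff]
    intro l _
    exact hpos z hz l l.2
  refine le_trans (gibbs hp hq0 hq1 hpq) (le_of_eq ?_)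
  have hterm : ∀ z, p z * (-Real.log (q z)) = p z * (r * Real.log c) +
      ∑ l ∈ Finset.range n, p z * (-Real.log (κ (fun i : Fin k => x z (j + l * k + i)))) := by
    intro z
    by_cases hz : p z = 0
    · simp [hz]
    · have h1 : q z = (∏ l : Fin n, κ (fun i : Fin k => x z (j + l * k + i))) * (c⁻¹) ^ r := by
        simp only [hq, if_pos (show p z ≠ 0 from hz), hQ, hΦ]
      rw [h1, Real.log_mul, Real.log_pow, Real.log_inv, Real.log_prod]
      · rw [← Finset.mul_sum, Finset.sum_neg_distrib,
          Finset.sum_range fun l => Real.log (κ (fun i : Fin k => x z (j + l * k + i)))]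
        ring
      · intro l _
        exact hpos z hz l l.2
      · rw [Finset.prod_ne_zero_iff]
        intro l _
        exact hpos z hz l l.2
      · positivity
  rw [Finset.sum_congr rfl fun z _ => hterm z, Finset.sum_add_distrib, ← Finset.sum_mul,
    hp.sum_one, one_mul, Finset.sum_comm]

/-- every `t ≤ M - k` is uniquely `j + l k` -/
theorem sum_offsets (e : ℕ → ℝ) (M k : ℕ) (hk : 1 ≤ k) (hkM : k ≤ M) :
    ∑ j ∈ Finset.range k, ∑ l ∈ Finset.range ((M - j) / k), e (j + l * k) =
      ∑ t ∈ Finset.range (M - k + 1), e t := by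
  rw [Finset.sum_sigma']
  refine Finset.sum_bij' (fun a _ => a.1 + a.2 * k) (fun t _ => ⟨t % k, t / k⟩) ?_ ?_ ?_ ?_ ?_
  · rintro ⟨j, l⟩ h
    simp only [Finset.mem_sigma, Finset.mem_range] at h ⊢
    have h1 : l + 1 ≤ (M - j) / k := h.2
    rw [Nat.le_div_iff_mul_le (by omega)] at h1
    have h2 : (l + 1) * k = l * k + k := by ring
    omega
  · intro t h
    simp only [Finset.mem_sigma, Finset.mem_range] at h ⊢
    refine ⟨Nat.mod_lt _ (by omega), ?_⟩
    have h1 : t / k + 1 ≤ (M - t % k) / k := by
      rw [Nat.le_div_iff_mul_le (by omega)]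
      have h2 : (t / k + 1) * k = t / k * k + k := by ring
      have h3 := Nat.div_add_mod t k
      rw [mul_comm] at h3
      omega
    omega
  · rintro ⟨j, l⟩ h
    simp only [Finset.mem_sigma, Finset.mem_range] at h
    have h1 : (j + l * k) % k = j := by
      rw [Nat.add_mul_mod_self_right, Nat.mod_eq_of_lt h.1]
    have h2 : (j + l * k) / k = l := by
      rw [Nat.add_mul_div_right _ _ (by omega), Nat.div_eq_of_lt h.1, zero_add]
    simp only [h1, h2]
  · intro t h
    have h3 := Nat.div_add_mod t k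
    rw [mul_comm] at h3
    simp only
    omega
  · rintro ⟨j, l⟩ h
    rfl

end Misi

open Misi

/-- The entropy of a long random word is bounded by the entropy of the averaged distribution of
its blocks of length `k`. -/
theorem misi {α C : Type} [Fintype α] [Fintype C] [Nonempty C] {p : α → ℝ} (hp : IsLaw p)
    (x : α → ℕ → C) (M k : ℕ) (hk : 1 ≤ k) (hkM : k ≤ M)
    (hinj : ∀ z z', p z ≠ 0 → p z' ≠ 0 → (∀ i < M, x z i = x z' i) → z = z') :
    Hent p ≤ 2 * k * Real.log (Fintype.card C) +
      (((M : ℝ) - k + 1) / k) * Hent (fun w : Fin k → C =>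
        (∑ t ∈ Finset.range (M - k + 1), ∑ z, ind (∀ j : Fin k, x z (t + j) = w j) * p z) /
          ((M : ℝ) - k + 1)) := by
  classical
  set N : ℝ := (M : ℝ) - k + 1 with hN
  have hkM' : (k : ℝ) ≤ M := by exact_mod_cast hkM
  have hN0 : 0 < N := by rw [hN]; linarith
  have hNcast : ((M - k + 1 : ℕ) : ℝ) = N := by
    rw [hN]; push_cast [Nat.cast_sub hkM]; ring
  have hk0 : (0 : ℝ) < k := by exact_mod_cast hk
  set κ : (Fin k → C) → ℝ := fun w =>
    (∑ t ∈ Finset.range (M - k + 1), ∑ z, ind (∀ j : Fin k, x z (t + j) = w j) * p z) / N with hκ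
  have hκ0 : ∀ w, 0 ≤ κ w := fun w => div_nonneg
    (Finset.sum_nonneg fun t _ => Finset.sum_nonneg fun z _ =>
      mul_nonneg (ind_nonneg _) (hp.nonneg z)) hN0.le
  -- summing a function against the averaged law
  have hsum : ∀ g : (Fin k → C) → ℝ, ∑ w, κ w * g w =
      (∑ t ∈ Finset.range (M - k + 1), ∑ z, p z * g (fun i : Fin k => x z (t + i))) / N := by
    intro g
    simp only [hκ, div_mul_eq_mul_div]
    rw [← Finset.sum_div]
    congr 1
    simp only [Finset.sum_mul]
    rw [Finset.sum_comm]
    refine Finset.sum_congr rfl fun t _ => ?_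
    rw [Finset.sum_comm]
    refine Finset.sum_congr rfl fun z _ => ?_
    rw [← sum_ind_eq (fun i : Fin k => x z (t + i)) fun w => g w, Finset.mul_sum]
    refine Finset.sum_congr rfl fun w _ => ?_
    rw [ind_congr (funext_iff (f := fun i : Fin k => x z (t + i)) (g := w)).symm]
    ring
  have hκ1 : ∑ w, κ w = 1 := by
    have h := hsum fun _ => 1
    simp only [mul_one] at h
    rw [h, Finset.sum_congr rfl fun t _ => hp.sum_one, Finset.sum_const, Finset.card_range,
      nsmul_eq_mul, mul_one, hNcast, div_self hN0.ne']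
  have hκpos : ∀ z, p z ≠ 0 → ∀ t, t ≤ M - k → κ (fun i : Fin k => x z (t + i)) ≠ 0 := by
    intro z hz t ht
    have hpz : 0 < p z := lt_of_le_of_ne (hp.nonneg z) (Ne.symm hz)
    apply ne_of_gt
    simp only [hκ]
    apply div_pos _ hN0
    refine lt_of_lt_of_le ?_ (Finset.single_le_sum (f := fun t' =>
      ∑ z', ind (∀ j : Fin k, x z' (t' + j) = x z (t + j)) * p z')
      (fun t' _ => Finset.sum_nonneg fun z' _ => mul_nonneg (ind_nonneg _) (hp.nonneg z'))
      (Finset.mem_range.mpr (by omega : t < M - k + 1)))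
    refine lt_of_lt_of_le ?_ (Finset.single_le_sum (f := fun z' =>
      ind (∀ j : Fin k, x z' (t + j) = x z (t + j)) * p z')
      (fun z' _ => mul_nonneg (ind_nonneg _) (hp.nonneg z')) (Finset.mem_univ z))
    have hind : ind (∀ j : Fin k, x z (t + j) = x z (t + j)) = 1 := ind_pos (fun _ => rfl)
    change 0 < ind (∀ j : Fin k, x z (t + j) = x z (t + j)) * p z
    rw [hind, one_mul]
    exact hpz
  set e : ℕ → ℝ := fun t => ∑ z, p z * (-Real.log (κ (fun i : Fin k => x z (t + i)))) with he
  have hHκ : N * Hent κ = ∑ t ∈ Finset.range (M - k + 1), e t := by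
    have h := hsum fun w => -Real.log (κ w)
    have h2 : Hent κ = ∑ w, κ w * (-Real.log (κ w)) := by
      unfold Hent
      refine Finset.sum_congr rfl fun w _ => ?_
      rw [Real.negMulLog]; ring
    rw [h2, h, mul_div_assoc', mul_comm N, mul_div_assoc, div_self hN0.ne', mul_one]
  have hlog : 0 ≤ Real.log (Fintype.card C) := by
    apply Real.log_nonneg
    exact_mod_cast (Fintype.card_pos : 0 < Fintype.card C)
  have hoff : ∀ j ∈ Finset.range k, Hent p ≤ 2 * k * Real.log (Fintype.card C) +
      ∑ l ∈ Finset.range ((M - j) / k), e (j + l * k) := by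
    intro j hj
    have hj' : j < k := Finset.mem_range.mp hj
    have hdiv : (M - j) / k * k ≤ M - j := Nat.div_mul_le_self _ _
    have hdiv2 : M - j < ((M - j) / k + 1) * k := by
      have := Nat.lt_div_mul_add (a := M - j) (b := k) (by omega)
      rw [add_mul, one_mul]; exact this
    have h1 := offset hp x M k ((M - j) / k) j hk (by omega) hinj κ hκ0 hκ1 (by
      intro z hz l hl
      apply hκpos z hz
      have h2 : l + 1 ≤ (M - j) / k := hl
      rw [Nat.le_div_iff_mul_le (by omega)] at h2
      have h3 : (l + 1) * k = l * k + k := by ring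
      omega)
    refine le_trans h1 ?_
    have h4 : ((M - (M - j) / k * k : ℕ) : ℝ) ≤ 2 * k := by
      have h5 : M - (M - j) / k * k ≤ 2 * k := by
        have h6 : ((M - j) / k + 1) * k = (M - j) / k * k + k := by ring
        omega
      exact_mod_cast h5
    have h7 : ((M - (M - j) / k * k : ℕ) : ℝ) * Real.log (Fintype.card C) ≤
        2 * k * Real.log (Fintype.card C) := mul_le_mul_of_nonneg_right h4 hlog
    linarith
  have hall := Finset.sum_le_sum hoff
  rw [Finset.sum_const, Finset.card_range, nsmul_eq_mul, Finset.sum_add_distrib, Finset.sum_const,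
    Finset.card_range, nsmul_eq_mul, sum_offsets e M k hk hkM, ← hHκ] at hall
  have hfin : k * (2 * k * Real.log (Fintype.card C) + N / k * Hent κ) =
      k * (2 * k * Real.log (Fintype.card C)) + N * Hent κ := by
    field_simp
  have : k * Hent p ≤ k * (2 * k * Real.log (Fintype.card C) + N / k * Hent κ) := by
    rw [hfin]; exact hall
  exact le_of_mul_le_mul_left this hk0

end Pool.Agent.RelEq
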