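import Pool.Agent.Lib_MP_50c299_an.LimDef
import Pool.Agent.Lib_MP_50c299_an.Misi

/-!
# Entropy in the limit
-/

open MeasureTheory Filter Topology

namespace Pool.Agent.RelEq

theorem integral_ind {Ω : Type} [MeasurableSpace Ω] {μ : Measure Ω} {P : Ω → Prop}
    (h : MeasurableSet {x | P x}) : ∫ x, ind (P x) ∂μ = μ.real {x | P x} := by
  have h3 : (fun x => ind (P x)) = Set.indicator {x | P x} (fun _ => (1 : ℝ)) := by
    funext x
    by_cases h : P x
    · rw [ind_pos h, Set.indicator_of_mem (by exact h)]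
    · rw [ind_neg h, Set.indicator_of_notMem (by exact h)]
  rw [h3, integral_indicator_const _ h]
  simp

variable {A B : Type} [Fintype A] [Nonempty A] [TopologicalSpace A] [DiscreteTopology A]
  [MeasurableSpace A] [DiscreteMeasurableSpace A]
  [Fintype B] [TopologicalSpace B] [DiscreteTopology B] [MeasurableSpace B]
  [DiscreteMeasurableSpace B]

variable {S : Sys A B} {ν : Measure (ℤ → B)} {Mn : ℕ → ℕ}
  {p : ∀ n, PW A (Mn n) → ℝ} {U : Ultrafilter ℕ} {τ : Measure ((ℤ → A) × (ℤ → A))}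

omit [TopologicalSpace B] [DiscreteTopology B] [DiscreteMeasurableSpace B] [Fintype B]
  [DiscreteTopology A] [DiscreteMeasurableSpace A] in
theorem LimSit.tendsto_Mn (h : LimSit S ν Mn p U τ) : Tendsto (fun n => (Mn n : ℝ)) U atTop := by
  have h1 : Tendsto (fun n => (Mn n : ℝ)) atTop atTop := by
    refine tendsto_atTop_mono (fun n => ?_) tendsto_natCast_atTop_atTop
    exact_mod_cast (h.hM n).le
  exact h1.mono_left h.le

omit [TopologicalSpace B] [DiscreteTopology B] [DiscreteMeasurableSpace B] [Fintype B]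
  [DiscreteTopology A] [DiscreteMeasurableSpace A] in
theorem LimSit.eventually_le (h : LimSit S ν Mn p U τ) (k : ℕ) : ∀ᶠ n in (U : Filter ℕ),
    k ≤ Mn n := by
  refine h.le ?_
  filter_upwards [eventually_ge_atTop k] with n hn
  exact hn.trans (h.hM n).le

omit [TopologicalSpace B] [DiscreteTopology B] [DiscreteMeasurableSpace B] [Fintype B] in
/-- the averaged distribution of the pairs of blocks of length `k` -/
theorem tendsto_avg (h : LimSit S ν Mn p U τ) (k : ℕ) (hk : 1 ≤ k) (w : Fin k → A × A) :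
    Tendsto (fun n => (∑ t ∈ Finset.range (Mn n - k + 1), ∑ z,
      ind (∀ j : Fin k, ((ext S (Mn n) z.1 ((t + j : ℕ) : ℤ), ext S (Mn n) z.2 ((t + j : ℕ) : ℤ))
        : A × A) = w j) * p n z) / ((Mn n : ℝ) - k + 1)) U
      (𝓝 (τ.real {z | ∀ j : Fin k, (z.1 (j : ℤ), z.2 (j : ℤ)) = w j})) := by
  have hτ : IsProbabilityMeasure τ := h.prob
  set g : (ℤ → A) × (ℤ → A) → ℝ := fun z => ind (∀ j : Fin k, (z.1 (j : ℤ), z.2 (j : ℤ)) = w j)
    with hg
  have hgc : Continuous g := by
    have h1 : g = (fun q : Fin k → A × A => ind (∀ j, q j = w j)) ∘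
        (fun z : (ℤ → A) × (ℤ → A) => fun j : Fin k => (z.1 (j : ℤ), z.2 (j : ℤ))) := rfl
    rw [h1]
    refine (continuous_of_discreteTopology (f := fun q : Fin k → A × A =>
      ind (∀ j, q j = w j))).comp ?_
    exact continuous_pi fun j => ((continuous_apply _).comp continuous_fst).prodMk
      ((continuous_apply _).comp continuous_snd)
  have hms : MeasurableSet {z : (ℤ → A) × (ℤ → A) | ∀ j : Fin k,
      (z.1 (j : ℤ), z.2 (j : ℤ)) = w j} := by
    have h1 : {z : (ℤ → A) × (ℤ → A) | ∀ j : Fin k, (z.1 (j : ℤ), z.2 (j : ℤ)) = w j} =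
        ⋂ j : Fin k, {z | (z.1 (j : ℤ), z.2 (j : ℤ)) = w j} := by
      ext z
      simp
    rw [h1]
    refine MeasurableSet.iInter fun j => ?_
    have h2 : Measurable (fun z : (ℤ → A) × (ℤ → A) => (z.1 (j : ℤ), z.2 (j : ℤ))) :=
      ((measurable_pi_apply _).comp measurable_fst).prodMk
        ((measurable_pi_apply _).comp measurable_snd)
    exact h2 (measurableSet_singleton (w j))
  have hlim := h.lim g hgc
  rw [hg, integral_ind hms] at hlim
  -- the terms
  set T : ℕ → ℕ → ℝ := fun n t => ∑ z, g (sh t (ext S (Mn n) z.1), sh t (ext S (Mn n) z.2)) *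
    p n z with hT
  have hT0 : ∀ n t, 0 ≤ T n t := fun n t =>
    Finset.sum_nonneg fun z _ => mul_nonneg (ind_nonneg _) ((h.law n).nonneg z)
  have hT1 : ∀ n t, T n t ≤ 1 := by
    intro n t
    rw [← (h.law n).sum_one]
    refine Finset.sum_le_sum fun z _ => ?_
    exact mul_le_of_le_one_left ((h.law n).nonneg z) (ind_le_one _)
  have hlim' : Tendsto (fun n => (∑ t ∈ Finset.range (Mn n), T n t) / (Mn n : ℝ)) U
      (𝓝 (τ.real {z | ∀ j : Fin k, (z.1 (j : ℤ), z.2 (j : ℤ)) = w j})) := by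
    refine hlim.congr fun n => ?_
    simp only [hT]
    rw [Finset.sum_comm, Finset.sum_div]
    refine Finset.sum_congr rfl fun z _ => ?_
    rw [← Finset.sum_mul]
    ring
  -- compare with the shorter range
  have hMn := h.tendsto_Mn
  have hdiff : Tendsto (fun n => (∑ t ∈ Finset.range (Mn n), T n t) / (Mn n : ℝ) -
      (∑ t ∈ Finset.range (Mn n - k + 1), T n t) / (Mn n : ℝ)) U (𝓝 0) := by
    have h1 : Tendsto (fun n => (k : ℝ) / (Mn n : ℝ)) U (𝓝 0) :=
      tendsto_const_nhds.div_atTop hMn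
    refine squeeze_zero' ?_ ?_ h1
    · filter_upwards [h.eventually_le k] with n hn
      rw [← sub_div]
      refine div_nonneg ?_ (Nat.cast_nonneg _)
      rw [sub_nonneg]
      refine Finset.sum_le_sum_of_subset_of_nonneg ?_ fun t _ _ => hT0 n t
      intro t ht
      rw [Finset.mem_range] at ht ⊢
      omega
    · filter_upwards [h.eventually_le k] with n hn
      rw [← sub_div]
      refine div_le_div_of_nonneg_right ?_ (Nat.cast_nonneg _)
      have h2 : Finset.range (Mn n - k + 1) ⊆ Finset.range (Mn n) := by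
        intro t ht
        rw [Finset.mem_range] at ht ⊢
        omega
      rw [← Finset.sum_sdiff h2, add_sub_cancel_right]
      calc ∑ t ∈ Finset.range (Mn n) \ Finset.range (Mn n - k + 1), T n t
          ≤ ∑ t ∈ Finset.range (Mn n) \ Finset.range (Mn n - k + 1), (1 : ℝ) :=
            Finset.sum_le_sum fun t _ => hT1 n t
        _ ≤ k := by
            rw [Finset.sum_const, nsmul_eq_mul, mul_one, Finset.card_sdiff_of_subset h2,
              Finset.card_range, Finset.card_range]
            have : Mn n - (Mn n - k + 1) ≤ k := by omega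
            exact_mod_cast this
  have h3 : Tendsto (fun n => (∑ t ∈ Finset.range (Mn n - k + 1), T n t) / (Mn n : ℝ)) U
      (𝓝 (τ.real {z | ∀ j : Fin k, (z.1 (j : ℤ), z.2 (j : ℤ)) = w j})) := by
    have h4 := hlim'.sub hdiff
    rw [sub_zero] at h4
    refine h4.congr fun n => ?_
    ring
  have h5 : Tendsto (fun n => (Mn n : ℝ) / ((Mn n : ℝ) - k + 1)) U (𝓝 1) := by
    have h6 : Tendsto (fun n => ((k : ℝ) - 1) / (Mn n : ℝ)) U (𝓝 0) :=
      tendsto_const_nhds.div_atTop hMn
    have h7 : Tendsto (fun n => (1 - ((k : ℝ) - 1) / (Mn n : ℝ))⁻¹) U (𝓝 ((1 - 0)⁻¹)) :=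
      (tendsto_const_nhds.sub h6).inv₀ (by norm_num)
    rw [sub_zero, inv_one] at h7
    refine h7.congr' ?_
    filter_upwards [h.eventually_le k, h.eventually_le 1] with n hn hn1
    have h8 : (0 : ℝ) < Mn n := by
      have : 0 < Mn n := hn1
      exact_mod_cast this
    have h9 : (k : ℝ) ≤ Mn n := by exact_mod_cast hn
    have h10 : (Mn n : ℝ) - k + 1 ≠ 0 := by linarith
    have h11 : 1 - ((k : ℝ) - 1) / (Mn n : ℝ) = ((Mn n : ℝ) - k + 1) / Mn n := by
      field_simp
      ring
    rw [h11, inv_div]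
  have h6 := h3.mul h5
  rw [mul_one] at h6
  refine h6.congr' ?_
  filter_upwards [h.eventually_le k, h.eventually_le 1] with n hn hn1
  have h8 : (Mn n : ℝ) ≠ 0 := by
    have : Mn n ≠ 0 := by omega
    exact_mod_cast this
  rw [div_mul_div_comm, mul_comm (Mn n : ℝ) ((Mn n : ℝ) - k + 1), mul_div_mul_right _ _ h8]
  congr 1
  refine Finset.sum_congr rfl fun t _ => ?_
  simp only [hT, hg]
  refine Finset.sum_congr rfl fun z _ => ?_
  congr 1
  refine ind_congr (forall_congr' fun j => ?_)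
  simp only [sh_apply]
  have h12 : (j : ℤ) + (t : ℤ) = ((t + j : ℕ) : ℤ) := by
    push_cast
    ring
  rw [h12]

theorem lim_ent (h : LimSit S ν Mn p U τ) (k : ℕ) (hk : 1 ≤ k) (H : ℝ)
    (hH : Tendsto (fun n => Hent (p n) / (Mn n : ℝ)) U (𝓝 H)) :
    H * k ≤ Hent (fun w : PW A k => τ.real {z | wd k z.1 = w.1 ∧ wd k z.2 = w.2}) := by
  have hτ : IsProbabilityMeasure τ := h.prob
  set Λ : (Fin k → A × A) → ℝ := fun w => τ.real {z | ∀ j : Fin k, (z.1 (j : ℤ), z.2 (j : ℤ)) = w j}
    with hΛ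
  have h1 : Hent (fun w : PW A k => τ.real {z | wd k z.1 = w.1 ∧ wd k z.2 = w.2}) = Hent Λ := by
    rw [← Hent_equiv (Equiv.arrowProdEquivProdArrow (Fin k) (fun _ => A) (fun _ => A)).symm Λ]
    congr 1
    funext w
    simp only [hΛ]
    congr 1
    ext z
    simp only [Set.mem_ofPred_eq]
    constructor
    · rintro ⟨h1, h2⟩ j
      have h3 := congrFun h1 j
      have h4 := congrFun h2 j
      simp only [wd_apply] at h3 h4
      simp [Equiv.arrowProdEquivProdArrow, h3, h4]
    · intro h1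
      constructor
      · funext j
        have := congrArg Prod.fst (h1 j)
        simpa [Equiv.arrowProdEquivProdArrow, wd_apply] using this
      · funext j
        have := congrArg Prod.snd (h1 j)
        simpa [Equiv.arrowProdEquivProdArrow, wd_apply] using this
  rw [h1]
  -- the averaged laws
  set Λn : ℕ → (Fin k → A × A) → ℝ := fun n w => (∑ t ∈ Finset.range (Mn n - k + 1), ∑ z,
      ind (∀ j : Fin k, ((ext S (Mn n) z.1 ((t + j : ℕ) : ℤ), ext S (Mn n) z.2 ((t + j : ℕ) : ℤ))
        : A × A) = w j) * p n z) / ((Mn n : ℝ) - k + 1) with hΛn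
  have hlim : Tendsto (fun n => Hent (Λn n)) U (𝓝 (Hent Λ)) := by
    unfold Hent
    refine tendsto_finsetSum _ fun w _ => ?_
    exact (Real.continuous_negMulLog.tendsto _).comp (tendsto_avg h k hk w)
  have hMn := h.tendsto_Mn
  have hle : ∀ᶠ n in (U : Filter ℕ), Hent (p n) / (Mn n : ℝ) ≤
      2 * k * Real.log (Fintype.card (A × A)) / (Mn n : ℝ) +
        (1 - ((k : ℝ) - 1) / (Mn n : ℝ)) / k * Hent (Λn n) := by
    filter_upwards [h.eventually_le k, h.eventually_le 1] with n hn hn1
    have h8 : (0 : ℝ) < Mn n := by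
      have : 0 < Mn n := hn1
      exact_mod_cast this
    have h3 := misi (h.law n) (fun z i => ((ext S (Mn n) z.1 (i : ℤ), ext S (Mn n) z.2 (i : ℤ))
        : A × A)) (Mn n) k hk hn (by
      intro z z' hz hz' heq
      have ha := h.supp n z hz
      have ha' := h.supp n z' hz'
      apply Prod.ext
      · rw [← wd_ext ha.1, ← wd_ext ha'.1]
        funext i
        exact congrArg Prod.fst (heq i i.2)
      · rw [← wd_ext ha.2.1, ← wd_ext ha'.2.1]
        funext i
        exact congrArg Prod.snd (heq i i.2))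
    have hk0 : (0 : ℝ) < k := by exact_mod_cast hk
    rw [div_le_iff₀ h8]
    refine h3.trans (le_of_eq ?_)
    have h9 : (1 - ((k : ℝ) - 1) / (Mn n : ℝ)) * Mn n = (Mn n : ℝ) - k + 1 := by
      field_simp
      ring
    have h10 : (2 * k * Real.log (Fintype.card (A × A)) / (Mn n : ℝ) +
        (1 - ((k : ℝ) - 1) / (Mn n : ℝ)) / k * Hent (Λn n)) * (Mn n : ℝ) =
        2 * k * Real.log (Fintype.card (A × A)) +
        ((1 - ((k : ℝ) - 1) / (Mn n : ℝ)) * Mn n) / k * Hent (Λn n) := by
      field_simp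
    rw [h10, h9]
  have hk0 : (0 : ℝ) < k := by exact_mod_cast hk
  have h4 : Tendsto (fun n => 2 * k * Real.log (Fintype.card (A × A)) / (Mn n : ℝ) +
        (1 - ((k : ℝ) - 1) / (Mn n : ℝ)) / k * Hent (Λn n)) U
      (𝓝 (0 + (1 - 0) / k * Hent Λ)) := by
    refine Tendsto.add (tendsto_const_nhds.div_atTop hMn) (Tendsto.mul ?_ hlim)
    exact (tendsto_const_nhds.sub (tendsto_const_nhds.div_atTop hMn)).div_const _
  have h5 := le_of_tendsto_of_tendsto hH h4 hle
  rw [zero_add, sub_zero] at h5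
  have h6 : (1 / (k : ℝ) * Hent Λ) * k = Hent Λ := by
    field_simp
  calc H * k ≤ (1 / (k : ℝ) * Hent Λ) * k := by gcongr
    _ = Hent Λ := h6

end Pool.Agent.RelEq
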