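import Pool.Agent.Lib_MP_50c299_an.LimDef
import Pool.Agent.Lib_MP_50c299_an.MeasExt

/-!
# The marginals of the limit are in the fibre
-/

open MeasureTheory Filter Topology

namespace Pool.Agent.RelEq

variable {A B : Type} [Fintype A] [Nonempty A] [TopologicalSpace A] [DiscreteTopology A]
  [MeasurableSpace A] [DiscreteMeasurableSpace A]
  [Fintype B] [TopologicalSpace B] [DiscreteTopology B] [MeasurableSpace B]
  [DiscreteMeasurableSpace B]

variable {S : Sys A B} {ν : Measure (ℤ → B)} [IsProbabilityMeasure ν] {Mn : ℕ → ℕ}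
  {p : ∀ n, PW A (Mn n) → ℝ} {U : Ultrafilter ℕ} {τ : Measure ((ℤ → A) × (ℤ → A))}

section aux

/-- averages along random orbits -/
noncomputable def lfAvg {Z : ℕ → Type} [∀ n, Fintype (Z n)] (Mn : ℕ → ℕ) (q : ∀ n, Z n → ℝ)
    (e : ∀ n, Z n → ℤ → A) (n : ℕ) (g : (ℤ → A) → ℝ) : ℝ :=
  ∑ z, q n z * ((∑ t ∈ Finset.range (Mn n), g (sh t (e n z))) / (Mn n : ℝ))

variable {Z : ℕ → Type} [∀ n, Fintype (Z n)] {q : ∀ n, Z n → ℝ} {e : ∀ n, Z n → ℤ → A}
  {μ : Measure (ℤ → A)}

theorem lf_tendsto_const_div (hM : ∀ n, n < Mn n) (le : (U : Filter ℕ) ≤ atTop) (K : ℝ) :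
    Tendsto (fun n => K / (Mn n : ℝ)) U (𝓝 0) := by
  have h1 : Tendsto Mn atTop atTop := tendsto_atTop_mono (fun n => (hM n).le) tendsto_id
  have h2 : Tendsto (fun n => (Mn n : ℝ)) atTop atTop := tendsto_natCast_atTop_atTop.comp h1
  exact (h2.const_div_atTop K).mono_left le

theorem lf_inv (hM : ∀ n, n < Mn n) (law : ∀ n, IsLaw (q n)) (le : (U : Filter ℕ) ≤ atTop)
    [IsProbabilityMeasure μ]
    (lim : ∀ g : (ℤ → A) → ℝ, Continuous g →
      Tendsto (fun n => lfAvg Mn q e n g) U (𝓝 (∫ x, g x ∂μ))) : Inv μ := by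
  apply inv_of_shift
  have hms : Measurable (shift : (ℤ → A) → ℤ → A) := measurable_sh 1
  have hcs : Continuous (shift : (ℤ → A) → ℤ → A) := continuous_sh 1
  refine ⟨hms, ?_⟩
  have : IsProbabilityMeasure (μ.map shift) := Measure.isProbabilityMeasure_map hms.aemeasurable
  apply ext_of_forall_integral_eq_of_IsFiniteMeasure
  intro f
  rw [integral_map hms.aemeasurable f.continuous.aestronglyMeasurable]
  have h1 := lim (fun x => f (shift x)) (f.continuous.comp hcs)
  have h2 := lim f f.continuous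
  have h3 : Tendsto (fun n => lfAvg Mn q e n (fun x => f (shift x)) - lfAvg Mn q e n f) U (𝓝 0) := by
    have hbd : ∀ n, |lfAvg Mn q e n (fun x => f (shift x)) - lfAvg Mn q e n f| ≤
        (2 * ‖f‖) / (Mn n : ℝ) := by
      intro n
      have hMp : (0 : ℝ) < Mn n := by exact_mod_cast (Nat.zero_le n).trans_lt (hM n)
      unfold lfAvg
      rw [← Finset.sum_sub_distrib]
      have hterm : ∀ z, q n z * ((∑ t ∈ Finset.range (Mn n), f (shift (sh t (e n z)))) / (Mn n : ℝ))
          - q n z * ((∑ t ∈ Finset.range (Mn n), f (sh t (e n z))) / (Mn n : ℝ)) =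
          q n z * ((f (sh (Mn n : ℕ) (e n z)) - f (sh (0 : ℕ) (e n z))) / (Mn n : ℝ)) := by
        intro z
        rw [← mul_sub, ← sub_div, ← Finset.sum_sub_distrib]
        congr 2
        rw [← Finset.sum_range_sub (fun t : ℕ => f (sh (t : ℤ) (e n z))) (Mn n)]
        refine Finset.sum_congr rfl fun t _ => ?_
        rw [shift_eq, sh_sh]
        congr 3
        push_cast
        ring
      rw [Finset.sum_congr rfl fun z _ => hterm z]
      refine (Finset.abs_sum_le_sum_abs _ _).trans ?_
      have hle : ∀ z ∈ (Finset.univ : Finset (Z n)),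
          |q n z * ((f (sh (Mn n : ℕ) (e n z)) - f (sh (0 : ℕ) (e n z))) / (Mn n : ℝ))| ≤
          q n z * ((2 * ‖f‖) / (Mn n : ℝ)) := by
        intro z _
        rw [abs_mul, abs_of_nonneg ((law n).nonneg z), abs_div, abs_of_pos hMp]
        refine mul_le_mul_of_nonneg_left ?_ ((law n).nonneg z)
        refine div_le_div_of_nonneg_right ?_ hMp.le
        have a1 := f.norm_coe_le_norm (sh (Mn n : ℕ) (e n z))
        have a2 := f.norm_coe_le_norm (sh (0 : ℕ) (e n z))
        rw [Real.norm_eq_abs] at a1 a2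
        have a3 := abs_sub (f (sh (Mn n : ℕ) (e n z))) (f (sh (0 : ℕ) (e n z)))
        linarith
      refine (Finset.sum_le_sum hle).trans ?_
      rw [← Finset.sum_mul, (law n).sum_one, one_mul]
    have hz := lf_tendsto_const_div (U := U) hM le (2 * ‖f‖)
    exact squeeze_zero_norm (fun n => by rw [Real.norm_eq_abs]; exact hbd n) hz
  have h4 := h1.sub h2
  have h5 := tendsto_nhds_unique h4 h3
  linarith

theorem lf_supp (law : ∀ n, IsLaw (q n))
    (hX : ∀ n z, q n z ≠ 0 → e n z ∈ S.X) [IsProbabilityMeasure μ]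
    (lim : ∀ g : (ℤ → A) → ℝ, Continuous g →
      Tendsto (fun n => lfAvg Mn q e n g) U (𝓝 (∫ x, g x ∂μ))) : μ S.Xᶜ = 0 := by
  let _ : MetricSpace (ℤ → A) := TopologicalSpace.metrizableSpaceMetric (ℤ → A)
  have hne : S.X.Nonempty := by
    by_contra hempty
    have h0 : ∀ z, q 0 z = 0 := by
      intro z
      by_contra hz
      exact hempty ⟨_, hX 0 z hz⟩
    have h1 := (law 0).sum_one
    rw [Finset.sum_eq_zero fun z _ => h0 z] at h1
    exact zero_ne_one h1
  have hgc : Continuous (fun x : ℤ → A => Metric.infDist x S.X) := Metric.continuous_infDist_pt _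
  have h1 := lim _ hgc
  have h2 : ∀ n, lfAvg Mn q e n (fun x : ℤ → A => Metric.infDist x S.X) = 0 := by
    intro n
    unfold lfAvg
    refine Finset.sum_eq_zero fun z _ => ?_
    by_cases hz : q n z = 0
    · rw [hz, zero_mul]
    · have : ∑ t ∈ Finset.range (Mn n), Metric.infDist (sh (t : ℤ) (e n z)) S.X = 0 := by
        refine Finset.sum_eq_zero fun t _ => ?_
        exact Metric.infDist_zero_of_mem (S.inv t _ (hX n z hz))
      rw [this, zero_div, mul_zero]
  have h3 : ∫ x, Metric.infDist x S.X ∂μ = 0 := by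
    refine tendsto_nhds_unique h1 ?_
    simp only [h2]
    exact tendsto_const_nhds
  have hint : Integrable (fun x : ℤ → A => Metric.infDist x S.X) μ :=
    hgc.integrable_of_hasCompactSupport (HasCompactSupport.of_compactSpace _)
  rw [integral_eq_zero_iff_of_nonneg (fun x => Metric.infDist_nonneg) hint] at h3
  have h4 : ∀ᵐ x ∂μ, x ∈ S.X := by
    filter_upwards [h3] with x hx
    rw [← S.closed.closure_eq, Metric.mem_closure_iff_infDist_zero hne]
    exact hx
  rw [ae_iff] at h4
  exact h4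

/-- reading the image of a word -/
theorem lf_imw_window (S : Sys A B) (M m t : ℕ) (hs : S.s ≤ t) (ht : t + m ≤ M - S.s)
    (hM : S.s ≤ M) (c : Fin m → B) (x : ℤ → A) :
    wd m (S.π (sh t x)) = c ↔
      ∀ i : Fin m, imw S M x ⟨t - S.s + i, by have := i.2; omega⟩ = c i := by
  rw [funext_iff]
  refine forall_congr' fun i => ?_
  rw [imw_apply, wd_apply, S.comm, sh_apply]
  have : (i : ℤ) + t = ((t - S.s + i : ℕ) : ℤ) + S.s := by
    push_cast [Nat.cast_sub hs]
    ring
  rw [this]

theorem lf_count {Z₀ : Type} [Fintype Z₀] {q₀ : Z₀ → ℝ} {e₀ : Z₀ → ℤ → A} {M : ℕ}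
    (himg : ∀ c, ∑ z, ind (imw S M (e₀ z) = c) * q₀ z = wl ν (M - 2 * S.s) c)
    (hν : Inv ν) (m t : ℕ) (hst : S.s ≤ t) (ht : t + m ≤ M - S.s) (c : Fin m → B) :
    ∑ z, q₀ z * ind (wd m (S.π (sh t (e₀ z))) = c) = wl ν m c := by
  classical
  have hs : S.s ≤ M := by omega
  set N := M - 2 * S.s with hN
  have hidx : ∀ i : Fin m, t - S.s + i < N := by
    intro i
    have := i.2
    omega
  -- the condition on image words
  let P : (Fin N → B) → Prop := fun w => ∀ i : Fin m, w ⟨t - S.s + i, hidx i⟩ = c i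
  have h1 : ∀ z, ind (wd m (S.π (sh t (e₀ z))) = c) = ind (P (imw S M (e₀ z))) := by
    intro z
    exact ind_congr (lf_imw_window S M m t hst ht hs c (e₀ z))
  have h2 : ∀ z, q₀ z * ind (wd m (S.π (sh t (e₀ z))) = c) =
      ∑ w : Fin N → B, ind (P w) * (ind (imw S M (e₀ z) = w) * q₀ z) := by
    intro z
    rw [h1 z]
    have := sum_ind_eq (imw S M (e₀ z)) (fun w => ind (P w) * q₀ z)
    rw [mul_comm, ← this]
    exact Finset.sum_congr rfl fun w _ => by ring
  rw [Finset.sum_congr rfl fun z _ => h2 z, Finset.sum_comm]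
  have h3 : ∀ w : Fin N → B, ∑ z, ind (P w) * (ind (imw S M (e₀ z) = w) * q₀ z) =
      ind (P w) * wl ν N w := by
    intro w
    rw [← Finset.mul_sum, himg w]
  rw [Finset.sum_congr rfl fun w _ => h3 w]
  -- now the measure computation
  have h4 : wl ν m c = ν.real {y | wd m (sh ((t - S.s : ℕ) : ℤ) y) = c} := by
    have hmp := hν ((t - S.s : ℕ) : ℤ)
    unfold wl
    have hms : MeasurableSet {x : ℤ → B | wd m x = c} :=
      measurable_wd m (measurableSet_singleton c)
    rw [measureReal_def, measureReal_def]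
    congr 1
    exact (hmp.measure_preimage hms.nullMeasurableSet).symm
  have h5 : {y : ℤ → B | wd m (sh ((t - S.s : ℕ) : ℤ) y) = c} =
      ⋃ w ∈ (Finset.univ.filter P), {y | wd N y = w} := by
    ext y
    simp only [Set.mem_ofPred_eq, Finset.mem_filter, Finset.mem_univ, true_and, Set.mem_iUnion,
      exists_prop]
    have key : wd m (sh ((t - S.s : ℕ) : ℤ) y) = c ↔ P (wd N y) := by
      rw [funext_iff]
      refine forall_congr' fun i => ?_
      rw [wd_apply, wd_apply, sh_apply]
      have : (i : ℤ) + ((t - S.s : ℕ) : ℤ) = ((t - S.s + i : ℕ) : ℤ) := by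
        push_cast
        ring
      rw [this]
    rw [key]
    constructor
    · intro h
      exact ⟨_, h, rfl⟩
    · rintro ⟨w, hw, rfl⟩
      exact hw
  rw [h4, h5, measureReal_biUnion_finset]
  · rw [Finset.sum_filter]
    refine Finset.sum_congr rfl fun w _ => ?_
    split_ifs with hw
    · rw [ind_pos hw, one_mul]; rfl
    · rw [ind_neg hw, zero_mul]
  · intro w _ w' _ hww
    rw [Function.onFun, Set.disjoint_left]
    intro y hy hy'
    exact hww (hy.symm.trans hy')
  · intro w _
    exact measurable_wd N (measurableSet_singleton w)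

theorem lf_wl_mem {C : Type} [MeasurableSpace C] (κ : Measure (ℤ → C)) [IsProbabilityMeasure κ]
    (m : ℕ) (c : Fin m → C) : 0 ≤ wl κ m c ∧ wl κ m c ≤ 1 :=
  ⟨measureReal_nonneg, measureReal_le_one⟩

theorem lf_words (hM : ∀ n, n < Mn n) (law : ∀ n, IsLaw (q n)) (le : (U : Filter ℕ) ≤ atTop)
    (himg : ∀ n c, ∑ z, ind (imw S (Mn n) (e n z) = c) * q n z = wl ν (Mn n - 2 * S.s) c)
    (hν : Inv ν) [IsProbabilityMeasure μ]
    (lim : ∀ g : (ℤ → A) → ℝ, Continuous g →
      Tendsto (fun n => lfAvg Mn q e n g) U (𝓝 (∫ x, g x ∂μ))) (m : ℕ) (c : Fin m → B) :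
    wl (μ.map S.π) m c = wl ν m c := by
  classical
  set w := wl ν m c with hw
  let g : (ℤ → A) → ℝ := fun x => ind (wd m (S.π x) = c)
  have hgc : Continuous g :=
    (continuous_of_discreteTopology (f := fun d : Fin m → B => ind (d = c))).comp
      ((continuous_wd m).comp S.continuous_π)
  have hset : MeasurableSet {x : ℤ → A | wd m (S.π x) = c} :=
    ((measurable_wd m).comp S.measurable_π) (measurableSet_singleton c)
  have h1 : ∫ x, g x ∂μ = wl (μ.map S.π) m c := by
    have e1 : g = Set.indicator {x : ℤ → A | wd m (S.π x) = c} 1 := by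
      funext x
      by_cases hx : wd m (S.π x) = c
      · rw [Set.indicator_of_mem (show x ∈ {x : ℤ → A | wd m (S.π x) = c} from hx)]
        exact ind_pos hx
      · rw [Set.indicator_of_notMem (show x ∉ {x : ℤ → A | wd m (S.π x) = c} from hx)]
        exact ind_neg hx
    rw [e1, integral_indicator_one hset]
    have hms : MeasurableSet {x : ℤ → B | wd m x = c} :=
      measurable_wd m (measurableSet_singleton c)
    unfold wl
    rw [map_measureReal_apply S.measurable_π hms]
    rfl
  rw [← h1]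
  have h2 := lim g hgc
  refine tendsto_nhds_unique h2 ?_
  -- the averages converge to `w`
  have hbd : ∀ n, |lfAvg Mn q e n g - w| ≤ ((2 * S.s + m : ℕ) : ℝ) / (Mn n : ℝ) := by
    intro n
    have hMp : (0 : ℝ) < Mn n := by exact_mod_cast (Nat.zero_le n).trans_lt (hM n)
    let a : ℕ → ℝ := fun t => ∑ z, q n z * g (sh (t : ℤ) (e n z))
    have ha : lfAvg Mn q e n g = (∑ t ∈ Finset.range (Mn n), a t) / (Mn n : ℝ) := by
      unfold lfAvg
      simp only [a]
      rw [Finset.sum_comm, Finset.sum_div]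
      refine Finset.sum_congr rfl fun z _ => ?_
      rw [← mul_div_assoc, Finset.mul_sum]
    have ha0 : ∀ t, 0 ≤ a t := fun t =>
      Finset.sum_nonneg fun z _ => mul_nonneg ((law n).nonneg z) (ind_nonneg _)
    have ha1 : ∀ t, a t ≤ 1 := by
      intro t
      rw [← (law n).sum_one]
      refine Finset.sum_le_sum fun z _ => ?_
      exact mul_le_of_le_one_right ((law n).nonneg z) (ind_le_one _)
    obtain ⟨hw0, hw1⟩ := lf_wl_mem ν m c
    rw [← hw] at hw0 hw1
    have hgood : ∀ t, S.s ≤ t → t + m ≤ Mn n - S.s → a t = w := by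
      intro t h3 h4
      exact lf_count (himg n) hν m t h3 h4 c
    have h3 : lfAvg Mn q e n g - w = (∑ t ∈ Finset.range (Mn n), (a t - w)) / (Mn n : ℝ) := by
      rw [ha, Finset.sum_sub_distrib, Finset.sum_const, Finset.card_range, nsmul_eq_mul, sub_div,
        mul_div_assoc, mul_div_cancel₀]
      exact hMp.ne'
    rw [h3, abs_div, abs_of_pos hMp]
    refine div_le_div_of_nonneg_right ?_ hMp.le
    refine (Finset.abs_sum_le_sum_abs _ _).trans ?_
    have h4 : ∀ t ∈ Finset.range (Mn n), |a t - w| ≤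
        if S.s ≤ t ∧ t + m ≤ Mn n - S.s then 0 else 1 := by
      intro t _
      split_ifs with ht
      · rw [hgood t ht.1 ht.2, sub_self, abs_zero]
      · rw [abs_le]
        constructor
        · linarith [ha0 t]
        · linarith [ha1 t]
    refine (Finset.sum_le_sum h4).trans ?_
    have h5 : ∑ t ∈ Finset.range (Mn n),
        (if S.s ≤ t ∧ t + m ≤ Mn n - S.s then (0 : ℝ) else 1) =
        (((Finset.range (Mn n)).filter
          (fun t => ¬ (S.s ≤ t ∧ t + m ≤ Mn n - S.s))).card : ℝ) := by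
      rw [Finset.card_filter]
      push_cast
      refine Finset.sum_congr rfl fun t _ => ?_
      by_cases ht : S.s ≤ t ∧ t + m ≤ Mn n - S.s
      · rw [if_pos ht, if_neg (not_not.2 ht)]
      · rw [if_neg ht, if_pos ht]
    rw [h5]
    have h6 : ((Finset.range (Mn n)).filter
          (fun t => ¬ (S.s ≤ t ∧ t + m ≤ Mn n - S.s))) ⊆
        Finset.range S.s ∪ Finset.Ico (Mn n - (S.s + m)) (Mn n) := by
      intro t ht
      rw [Finset.mem_filter, Finset.mem_range] at ht
      rw [Finset.mem_union, Finset.mem_range, Finset.mem_Ico]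
      omega
    have h7 := (Finset.card_le_card h6).trans (Finset.card_union_le _ _)
    rw [Finset.card_range, Nat.card_Ico] at h7
    have h8 : ((Finset.range (Mn n)).filter
          (fun t => ¬ (S.s ≤ t ∧ t + m ≤ Mn n - S.s))).card ≤ 2 * S.s + m := by omega
    exact_mod_cast h8
  have hz := lf_tendsto_const_div (U := U) hM le ((2 * S.s + m : ℕ) : ℝ)
  have h5 : Tendsto (fun n => lfAvg Mn q e n g - w) U (𝓝 0) :=
    squeeze_zero_norm (fun n => by rw [Real.norm_eq_abs]; exact hbd n) hz
  have h6 := h5.add_const w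
  simpa using h6

theorem lf_fib (hM : ∀ n, n < Mn n) (law : ∀ n, IsLaw (q n)) (le : (U : Filter ℕ) ≤ atTop)
    (hX : ∀ n z, q n z ≠ 0 → e n z ∈ S.X)
    (himg : ∀ n c, ∑ z, ind (imw S (Mn n) (e n z) = c) * q n z = wl ν (Mn n - 2 * S.s) c)
    (hν : Inv ν) [hμ : IsProbabilityMeasure μ]
    (lim : ∀ g : (ℤ → A) → ℝ, Continuous g →
      Tendsto (fun n => lfAvg Mn q e n g) U (𝓝 (∫ x, g x ∂μ))) : InFib S ν μ := by
  have hinv : Inv μ := lf_inv hM law le lim
  refine ⟨hμ, lf_supp law hX lim, hinv, ?_⟩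
  have : Nonempty B := ⟨S.π (fun _ => Classical.arbitrary A) 0⟩
  have hπ := S.measurable_π
  have hprob : IsProbabilityMeasure (μ.map S.π) := Measure.isProbabilityMeasure_map hπ.aemeasurable
  have hinv' : Inv (μ.map S.π) := by
    intro t
    refine ⟨measurable_sh t, ?_⟩
    rw [Measure.map_map (measurable_sh t) hπ]
    have : (sh t ∘ S.π : (ℤ → A) → ℤ → B) = S.π ∘ sh t := by
      funext x
      exact (S.comm t x).symm
    rw [this, ← Measure.map_map hπ (measurable_sh t), (hinv t).map_eq]
  have hmap : μ.map S.π = ν :=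
    ext_words hinv' hν (fun m c => lf_words hM law le himg hν lim m c)
  intro E hE
  rw [← hmap, Measure.map_apply hπ hE]

end aux

theorem lim_fib_fst (h : LimSit S ν Mn p U τ) (hν : Inv ν) : InFib S ν (τ.map Prod.fst) := by
  have := h.prob
  have hp : IsProbabilityMeasure (τ.map (Prod.fst : (ℤ → A) × (ℤ → A) → (ℤ → A))) :=
    Measure.isProbabilityMeasure_map measurable_fst.aemeasurable
  refine lf_fib (Z := fun n => PW A (Mn n)) (q := p) (e := fun n z => ext S (Mn n) z.1)
    h.hM h.law h.le ?_ h.img hν ?_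
  · intro n z hz
    exact ext_mem (h.supp n z hz).1
  · intro g hg
    rw [integral_map measurable_fst.aemeasurable hg.aestronglyMeasurable]
    exact h.lim (fun z => g z.1) (hg.comp continuous_fst)

theorem lim_fib_snd (h : LimSit S ν Mn p U τ) (hν : Inv ν) : InFib S ν (τ.map Prod.snd) := by
  have := h.prob
  have hp : IsProbabilityMeasure (τ.map (Prod.snd : (ℤ → A) × (ℤ → A) → (ℤ → A))) :=
    Measure.isProbabilityMeasure_map measurable_snd.aemeasurable
  refine lf_fib (Z := fun n => PW A (Mn n)) (q := p) (e := fun n z => ext S (Mn n) z.2)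
    h.hM h.law h.le ?_ ?_ hν ?_
  · intro n z hz
    exact ext_mem (h.supp n z hz).2.1
  · intro n c
    rw [← h.img n c]
    refine Finset.sum_congr rfl fun z _ => ?_
    by_cases hz : p n z = 0
    · rw [hz, mul_zero, mul_zero]
    · rw [(h.supp n z hz).2.2]
  · intro g hg
    rw [integral_map measurable_snd.aemeasurable hg.aestronglyMeasurable]
    exact h.lim (fun z => g z.2) (hg.comp continuous_snd)

end Pool.Agent.RelEq
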