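import Pool.Agent.Lib_MP_50c299_an.LimDef
import Pool.Agent.Lib_MP_50c299_an.Coup
import Pool.Agent.Lib_MP_50c299_an.MeasExt
import Pool.Agent.Lib_MP_50c299_an.LimFib
import Pool.Agent.Lib_MP_50c299_an.LimEnt
import Pool.Agent.Lib_MP_50c299_an.Marg

/-!
# Submodularity in the limit
-/

open MeasureTheory Filter Topology

namespace Pool.Agent.RelEq

variable {A B : Type} [Fintype A] [Nonempty A] [TopologicalSpace A] [DiscreteTopology A]
  [MeasurableSpace A] [DiscreteMeasurableSpace A]
  [Fintype B] [TopologicalSpace B] [DiscreteTopology B] [MeasurableSpace B]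
  [DiscreteMeasurableSpace B]

variable {S : Sys A B} {ν : Measure (ℤ → B)} [IsProbabilityMeasure ν] {Mn : ℕ → ℕ}
  {p : ∀ n, PW A (Mn n) → ℝ} {U : Ultrafilter ℕ} {τ : Measure ((ℤ → A) × (ℤ → A))}

omit [Fintype A] [Nonempty A] [DiscreteTopology A] [MeasurableSpace A] [DiscreteMeasurableSpace A]
  [Fintype B] [TopologicalSpace B] [DiscreteTopology B] [MeasurableSpace B]
  [DiscreteMeasurableSpace B] in
theorem imw_local (S : Sys A B) (k : ℕ) (x x' : ℤ → A) (h : wd k (sh 0 x) = wd k (sh 0 x')) :
    imw S k x = imw S k x' := by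
  rw [sh_zero, sh_zero] at h
  exact imw_congr h

omit [IsProbabilityMeasure ν] [Fintype B] [TopologicalSpace B] [DiscreteTopology B]
  [DiscreteMeasurableSpace B] in
/-- the two points have almost surely the same image words -/
theorem lim_same (h : LimSit S ν Mn p U τ) (k : ℕ) :
    ∀ᵐ z ∂τ, imw S k z.1 = imw S k z.2 := by
  have hτ : IsProbabilityMeasure τ := h.prob
  obtain ⟨φ, hφ⟩ := exists_factor (fun x : ℤ → A => imw S k x) k 0 (imw_local S k)
  simp only [sh_zero] at hφ
  set g : (ℤ → A) × (ℤ → A) → ℝ := fun z => ind (imw S k z.1 = imw S k z.2) with hg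
  have hgw : g = (fun q : (Fin k → A) × (Fin k → A) => ind (φ q.1 = φ q.2)) ∘
      (fun z : (ℤ → A) × (ℤ → A) => (wd k z.1, wd k z.2)) := by
    funext z
    simp only [hg, Function.comp, hφ]
  have hgc : Continuous g := by
    rw [hgw]
    exact (continuous_of_discreteTopology
      (f := fun q : (Fin k → A) × (Fin k → A) => ind (φ q.1 = φ q.2))).comp
      (((continuous_wd k).comp continuous_fst).prodMk ((continuous_wd k).comp continuous_snd))
  have hm : MeasurableSet {z : (ℤ → A) × (ℤ → A) | imw S k z.1 = imw S k z.2} := by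
    have h1 : {z : (ℤ → A) × (ℤ → A) | imw S k z.1 = imw S k z.2} =
        (fun z : (ℤ → A) × (ℤ → A) => (wd k z.1, wd k z.2)) ⁻¹'
          {q : (Fin k → A) × (Fin k → A) | φ q.1 = φ q.2} := by
      ext z
      simp only [Set.mem_ofPred_eq, Set.mem_preimage, hφ]
    rw [h1]
    exact (((measurable_wd k).comp measurable_fst).prodMk
      ((measurable_wd k).comp measurable_snd)) (Set.toFinite _).measurableSet
  have hlim := h.lim g hgc
  rw [hg, integral_ind hm] at hlim
  -- lower bound of the averages
  have hlow : ∀ᶠ n in (U : Filter ℕ), 1 - (k : ℝ) / (Mn n : ℝ) ≤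
      ∑ z, p n z * ((∑ t ∈ Finset.range (Mn n),
        g (sh t (ext S (Mn n) z.1), sh t (ext S (Mn n) z.2))) / (Mn n : ℝ)) := by
    filter_upwards [h.eventually_le k, h.eventually_le 1] with n hn hn1
    have h8 : (0 : ℝ) < Mn n := by
      have : 0 < Mn n := hn1
      exact_mod_cast this
    have h9 : ∀ z, p n z * (1 - (k : ℝ) / (Mn n : ℝ)) ≤ p n z * ((∑ t ∈ Finset.range (Mn n),
        g (sh t (ext S (Mn n) z.1), sh t (ext S (Mn n) z.2))) / (Mn n : ℝ)) := by
      intro z
      by_cases hz : p n z = 0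
      · rw [hz]; simp
      · refine mul_le_mul_of_nonneg_left ?_ ((h.law n).nonneg z)
        have hadm := h.supp n z hz
        have h10 : 1 - (k : ℝ) / (Mn n : ℝ) = ((Mn n : ℝ) - k) / Mn n := by
          field_simp
        rw [h10]
        refine div_le_div_of_nonneg_right ?_ h8.le
        have h11 : Finset.range (Mn n - k) ⊆ Finset.range (Mn n) := by
          intro t ht
          rw [Finset.mem_range] at ht ⊢
          omega
        calc ((Mn n : ℝ) - k) = ∑ t ∈ Finset.range (Mn n - k), (1 : ℝ) := by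
              rw [Finset.sum_const, Finset.card_range, nsmul_eq_mul, mul_one, Nat.cast_sub hn]
          _ ≤ ∑ t ∈ Finset.range (Mn n - k),
              g (sh t (ext S (Mn n) z.1), sh t (ext S (Mn n) z.2)) := by
              refine Finset.sum_le_sum fun t ht => ?_
              rw [Finset.mem_range] at ht
              simp only [hg]
              rw [ind_pos]
              funext i
              have hi := i.2
              rw [imw_apply, imw_apply, S.comm, S.comm, sh_apply, sh_apply]
              have h12 := congrFun hadm.2.2 ⟨(i : ℕ) + t, by omega⟩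
              rw [imw_apply, imw_apply] at h12
              have h13 : ((((⟨(i : ℕ) + t, by omega⟩ : Fin (Mn n - 2 * S.s)) : ℕ) : ℤ) +
                  (S.s : ℤ)) = (i : ℤ) + S.s + t := by
                push_cast
                ring
              rw [h13] at h12
              exact h12
          _ ≤ ∑ t ∈ Finset.range (Mn n),
              g (sh t (ext S (Mn n) z.1), sh t (ext S (Mn n) z.2)) :=
              Finset.sum_le_sum_of_subset_of_nonneg h11 fun t _ _ => ind_nonneg _
    calc 1 - (k : ℝ) / (Mn n : ℝ) = ∑ z, p n z * (1 - (k : ℝ) / (Mn n : ℝ)) := by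
          rw [← Finset.sum_mul, (h.law n).sum_one, one_mul]
      _ ≤ _ := Finset.sum_le_sum fun z _ => h9 z
  have hone : Tendsto (fun n => 1 - (k : ℝ) / (Mn n : ℝ)) U (𝓝 (1 - 0)) :=
    tendsto_const_nhds.sub (tendsto_const_nhds.div_atTop h.tendsto_Mn)
  have h14 := le_of_tendsto_of_tendsto hone hlim hlow
  rw [sub_zero] at h14
  have h15 : τ {z : (ℤ → A) × (ℤ → A) | imw S k z.1 = imw S k z.2} = 1 := by
    have h16 : τ.real {z : (ℤ → A) × (ℤ → A) | imw S k z.1 = imw S k z.2} = 1 :=
      le_antisymm measureReal_le_one h14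
    rw [measureReal_def] at h16
    rw [← ENNReal.ofReal_toReal (measure_ne_top τ {z : (ℤ → A) × (ℤ → A) |
      imw S k z.1 = imw S k z.2}), h16, ENNReal.ofReal_one]
  exact (prob_compl_eq_zero_iff hm).2 h15

theorem lim_sub (h : LimSit S ν Mn p U τ) (hν : Inv ν) (k : ℕ) :
    Hent (fun w : PW A k => τ.real {z | wd k z.1 = w.1 ∧ wd k z.2 = w.2}) +
      bent ν (k - 2 * S.s) ≤ bent (τ.map Prod.fst) k + bent (τ.map Prod.snd) k := by
  have hτ : IsProbabilityMeasure τ := h.prob
  have h1 := lim_fib_fst h hν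
  have h2 := lim_fib_snd h hν
  set P : PW A k → ℝ := fun w => τ.real {z | wd k z.1 = w.1 ∧ wd k z.2 = w.2} with hP
  have hmeas : Measurable (fun z : (ℤ → A) × (ℤ → A) => (wd k z.1, wd k z.2)) :=
    ((measurable_wd k).comp measurable_fst).prodMk ((measurable_wd k).comp measurable_snd)
  have hp1 : IsProbabilityMeasure (τ.map fun z : (ℤ → A) × (ℤ → A) => (wd k z.1, wd k z.2)) :=
    Measure.isProbabilityMeasure_map hmeas.aemeasurable
  have hPm : ∀ w, P w = (τ.map fun z : (ℤ → A) × (ℤ → A) => (wd k z.1, wd k z.2)).real {w} := by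
    intro w
    rw [map_measureReal_apply hmeas (measurableSet_singleton w)]
    simp only [hP]
    congr 1
    ext z
    simp only [Set.mem_ofPred_eq, Set.mem_preimage, Set.mem_singleton_iff, Prod.ext_iff]
  -- sums against `P` are integrals
  have hsum : ∀ φ : PW A k → ℝ, ∑ w, P w * φ w = ∫ z, φ (wd k z.1, wd k z.2) ∂τ := by
    intro φ
    have hφ : AEStronglyMeasurable φ
        (τ.map fun z : (ℤ → A) × (ℤ → A) => (wd k z.1, wd k z.2)) :=
      (measurable_of_finite φ).aestronglyMeasurable
    rw [← integral_map hmeas.aemeasurable hφ, integral_fintype Integrable.of_finite]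
    exact Finset.sum_congr rfl fun w _ => by rw [smul_eq_mul, hPm]
  have hlaw : IsLaw P := by
    refine ⟨fun w => measureReal_nonneg, ?_⟩
    have := hsum (fun _ => 1)
    simpa using this
  have hms : ∀ a : Fin k → A, MeasurableSet {x : ℤ → A | wd k x = a} := fun a =>
    (measurable_wd k) (measurableSet_singleton a)
  have hfst : (fun a => ∑ b, P (a, b)) = wl (τ.map Prod.fst) k := by
    funext a
    have h3 := hsum (fun w => ind (w.1 = a))
    have h4 : ∑ w : PW A k, P w * ind (w.1 = a) = ∑ b, P (a, b) := by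
      rw [Fintype.sum_prod_type]
      simp only [← Finset.sum_mul]
      rw [← sum_ind_eq' a (fun a => ∑ b, P (a, b))]
      exact Finset.sum_congr rfl fun c _ => mul_comm _ _
    rw [← h4, h3]
    simp only
    rw [integral_ind (P := fun z : (ℤ → A) × (ℤ → A) => wd k z.1 = a) (measurable_fst (hms a))]
    unfold wl
    rw [map_measureReal_apply measurable_fst (hms a)]
    rfl
  have hsnd : (fun b => ∑ a, P (a, b)) = wl (τ.map Prod.snd) k := by
    funext a
    have h3 := hsum (fun w => ind (w.2 = a))
    have h4 : ∑ w : PW A k, P w * ind (w.2 = a) = ∑ b, P (b, a) := by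
      rw [Fintype.sum_prod_type_right]
      simp only [← Finset.sum_mul]
      rw [← sum_ind_eq' a (fun a => ∑ b, P (b, a))]
      exact Finset.sum_congr rfl fun c _ => mul_comm _ _
    rw [← h4, h3]
    simp only
    rw [integral_ind (P := fun z : (ℤ → A) × (ℤ → A) => wd k z.2 = a) (measurable_snd (hms a))]
    unfold wl
    rw [map_measureReal_apply measurable_snd (hms a)]
    rfl
  have hs : ∀ z : PW A k, P z ≠ 0 → imw S k (ext S k z.1) = imw S k (ext S k z.2) := by
    intro w hw
    -- a point `z` in the intersection of the sets of full measure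
    have hX1 : ∀ᵐ z ∂τ, z.1 ∈ S.X := by
      have h3 := h1.supp
      rw [Measure.map_apply measurable_fst S.closed.measurableSet.compl] at h3
      exact h3
    have hX2 : ∀ᵐ z ∂τ, z.2 ∈ S.X := by
      have h3 := h2.supp
      rw [Measure.map_apply measurable_snd S.closed.measurableSet.compl] at h3
      exact h3
    have h3 : ∃ z : (ℤ → A) × (ℤ → A), (wd k z.1 = w.1 ∧ wd k z.2 = w.2) ∧
        (z.1 ∈ S.X ∧ z.2 ∈ S.X ∧ imw S k z.1 = imw S k z.2) := by
      by_contra hc
      apply hw
      have h4 : ∀ᵐ z ∂τ, ¬ (wd k z.1 = w.1 ∧ wd k z.2 = w.2) := by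
        filter_upwards [hX1, hX2, lim_same h k] with z hz1 hz2 hz3 hz4
        exact hc ⟨z, hz4, hz1, hz2, hz3⟩
      rw [ae_iff] at h4
      simp only [not_not] at h4
      simp only [hP]
      rw [measureReal_def, h4]
      rfl
    obtain ⟨z, ⟨hz1, hz2⟩, hzX1, hzX2, hz⟩ := h3
    have ha1 : AdmW S k w.1 := ⟨z.1, hzX1, hz1⟩
    have ha2 : AdmW S k w.2 := ⟨z.2, hzX2, hz2⟩
    have h5 : imw S k (ext S k w.1) = imw S k z.1 := imw_congr (by rw [wd_ext ha1, hz1])
    have h6 : imw S k (ext S k w.2) = imw S k z.2 := imw_congr (by rw [wd_ext ha2, hz2])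
    rw [h5, h6, hz]
  have key := submod hlaw (fun u => imw S k (ext S k u)) (fun u => imw S k (ext S k u)) hs
  have himg : (fun c => ∑ z : PW A k, ind (imw S k (ext S k z.1) = c) * P z) =
      wl ν (k - 2 * S.s) := by
    funext c
    rw [← wl_img hν h1 k c, ← hfst, Fintype.sum_prod_type]
    refine Finset.sum_congr rfl fun a _ => ?_
    rw [Finset.mul_sum]
  rw [hfst, hsnd, himg] at key
  exact key

end Pool.Agent.RelEq
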