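import Pool.Agent.Lib_MP_50c299_an.LimEx
import Pool.Agent.Lib_MP_50c299_an.LimFib
import Pool.Agent.Lib_MP_50c299_an.LimEnt
import Pool.Agent.Lib_MP_50c299_an.LimSub
import Pool.Agent.Lib_MP_50c299_an.BlockEnt

/-!
# From pairs of words to a pair of measures in the fibre
-/

open MeasureTheory Filter Topology

namespace Pool.Agent.RelEq

theorem Hent_le_log_card {α : Type} [Fintype α] [Nonempty α] {p : α → ℝ} (hp : IsLaw p) :
    Hent p ≤ Real.log (Fintype.card α) := by
  have hc : (0 : ℝ) < Fintype.card α := by exact_mod_cast Fintype.card_pos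
  have h := gibbs hp (q := fun _ => (Fintype.card α : ℝ)⁻¹) (fun _ => by positivity)
    (by
      rw [Finset.sum_const, Finset.card_univ, nsmul_eq_mul, mul_inv_cancel₀ hc.ne'])
    (fun _ _ => by positivity)
  refine h.trans (le_of_eq ?_)
  rw [← Finset.sum_mul, hp.sum_one, one_mul, Real.log_inv, neg_neg]

variable {A B : Type} [Fintype A] [Nonempty A] [TopologicalSpace A] [DiscreteTopology A]
  [MeasurableSpace A] [DiscreteMeasurableSpace A]
  [Fintype B] [TopologicalSpace B] [DiscreteTopology B] [MeasurableSpace B]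
  [DiscreteMeasurableSpace B]

omit [DiscreteTopology A] [MeasurableSpace A] [DiscreteMeasurableSpace A] [Fintype A] [Nonempty A]
  [TopologicalSpace A] [TopologicalSpace B] [DiscreteTopology B] [DiscreteMeasurableSpace B] in
/-- the entropy of the words of length `m - d`, divided by `m` -/
theorem tendsto_bent_sub (ν : Measure (ℤ → B))
    (hν : Tendsto (fun n : ℕ => bent ν n / n) atTop (𝓝 (hrate ν))) (d : ℕ) :
    Tendsto (fun m : ℕ => bent ν (m - d) / m) atTop (𝓝 (hrate ν)) := by
  have h1 : Tendsto (fun m : ℕ => bent ν (m - d) / ((m - d : ℕ) : ℝ)) atTop (𝓝 (hrate ν)) :=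
    hν.comp (tendsto_sub_atTop_nat d)
  have h2 : Tendsto (fun m : ℕ => ((m - d : ℕ) : ℝ) / m) atTop (𝓝 1) := by
    have h3 : Tendsto (fun m : ℕ => 1 - (d : ℝ) * ((m : ℝ))⁻¹) atTop (𝓝 (1 - d * 0)) :=
      tendsto_const_nhds.sub (tendsto_inv_atTop_nhds_zero_nat.const_mul _)
    rw [mul_zero, sub_zero] at h3
    refine h3.congr' ?_
    filter_upwards [eventually_gt_atTop d] with m hm
    have : (m : ℝ) ≠ 0 := by
      have : 0 < m := by omega
      positivity
    rw [Nat.cast_sub hm.le]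
    field_simp
  have h4 := h1.mul h2
  rw [mul_one] at h4
  refine h4.congr' ?_
  filter_upwards [eventually_gt_atTop d] with m hm
  have h5 : ((m - d : ℕ) : ℝ) ≠ 0 := by
    have : 0 < m - d := by omega
    positivity
  rw [div_mul_div_comm, mul_comm (((m - d : ℕ) : ℝ)) (m : ℝ), mul_div_mul_right _ _ h5]

theorem limit (S : Sys A B) (ν : Measure (ℤ → B)) [IsProbabilityMeasure ν] (hν : Inv ν)
    (f : (ℤ → A) → ℝ) (hf : Continuous f) (Q C : ℝ)
    (h : ∀ M₀ : ℕ, ∃ M ≥ M₀, ∃ p : PW A M → ℝ, IsLaw p ∧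
      (∀ z, p z ≠ 0 → AdmP S M z) ∧
      (∀ c, ∑ z, ind (imw S M (ext S M z.1) = c) * p z = wl ν (M - 2 * S.s) c) ∧
      Q * M - C ≤ Hent p + bent ν (M - 2 * S.s) + ∑ z, p z * En S M f z) :
    ∃ τ₁ τ₂ : Measure (ℤ → A), InFib S ν τ₁ ∧ InFib S ν τ₂ ∧
      Q ≤ (hrate τ₁ + ∫ x, f x ∂τ₁) + (hrate τ₂ + ∫ x, f x ∂τ₂) := by
  have hBne : Nonempty B := by
    obtain ⟨y⟩ : Nonempty (ℤ → B) := nonempty_of_isProbabilityMeasure ν
    exact ⟨y 0⟩
  choose Mn hMn p hlaw hsupp himg hQ using fun n : ℕ => h (n + 1)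
  obtain ⟨U, τ, hS⟩ := lim_exists S ν Mn p (fun n => hMn n) hlaw hsupp himg
  have hτ : IsProbabilityMeasure τ := hS.prob
  have h1 := lim_fib_fst hS hν
  have h2 := lim_fib_snd hS hν
  have hT1 : IsProbabilityMeasure (τ.map Prod.fst) := h1.prob
  have hT2 : IsProbabilityMeasure (τ.map Prod.snd) := h2.prob
  refine ⟨τ.map Prod.fst, τ.map Prod.snd, h1, h2, ?_⟩
  have hMtop := hS.tendsto_Mn
  -- the limit of the entropies
  obtain ⟨H, hH⟩ : ∃ H, Tendsto (fun n => Hent (p n) / (Mn n : ℝ)) U (𝓝 H) := by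
    have hb : ∀ n, Hent (p n) / (Mn n : ℝ) ∈ Set.Icc (0 : ℝ) (2 * Real.log (Fintype.card A)) := by
      intro n
      have h8 : (0 : ℝ) < Mn n := by
        have : 0 < Mn n := by
          have := hMn n
          omega
        exact_mod_cast this
      refine ⟨div_nonneg (Hent_nonneg (hlaw n)) h8.le, ?_⟩
      rw [div_le_iff₀ h8]
      refine (Hent_le_log_card (hlaw n)).trans (le_of_eq ?_)
      rw [Fintype.card_prod, Fintype.card_fun, Fintype.card_fin]
      push_cast
      have h9 : ((Fintype.card A : ℝ) ^ (Mn n)) ≠ 0 := by positivity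
      rw [Real.log_mul h9 h9, Real.log_pow]
      ring
    obtain ⟨H, -, hH⟩ := isCompact_Icc.ultrafilter_le_nhds
      (U.map fun n => Hent (p n) / (Mn n : ℝ)) (by
        rw [le_principal_iff, Ultrafilter.coe_map, mem_map]
        exact Filter.univ_mem' hb)
    exact ⟨H, hH⟩
  -- energies
  have hfi : ∀ (μ : Measure (ℤ → A)) [IsProbabilityMeasure μ], Integrable f μ := by
    intro μ hμ
    obtain ⟨K, hK⟩ := isCompact_univ.exists_bound_of_continuousOn hf.continuousOn
    exact Integrable.of_bound hf.aestronglyMeasurable K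
      (Filter.Eventually.of_forall fun x => hK x (Set.mem_univ x))
  have hEn : Tendsto (fun n => (∑ z, p n z * En S (Mn n) f z) / (Mn n : ℝ)) U
      (𝓝 (∫ x, f x ∂(τ.map Prod.fst) + ∫ x, f x ∂(τ.map Prod.snd))) := by
    have h3 := hS.lim (fun z => f z.1 + f z.2) (by fun_prop)
    have h4 : ∫ z, (f z.1 + f z.2) ∂τ =
        ∫ x, f x ∂(τ.map Prod.fst) + ∫ x, f x ∂(τ.map Prod.snd) := by
      rw [integral_map measurable_fst.aemeasurable hf.aestronglyMeasurable,
        integral_map measurable_snd.aemeasurable hf.aestronglyMeasurable]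
      refine integral_add ?_ ?_
      · exact (hfi (τ.map Prod.fst)).comp_measurable measurable_fst
      · exact (hfi (τ.map Prod.snd)).comp_measurable measurable_snd
    rw [h4] at h3
    refine h3.congr fun n => ?_
    rw [Finset.sum_div]
    refine Finset.sum_congr rfl fun z _ => ?_
    unfold En bsum
    rw [← Finset.sum_add_distrib]
    ring
  -- the main inequality in the limit
  have hbν : Tendsto (fun n => bent ν (Mn n - 2 * S.s) / (Mn n : ℝ)) U (𝓝 (hrate ν)) := by
    have h3 := tendsto_bent_sub ν (tendsto_bent ν hν) (2 * S.s)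
    have h4 : Tendsto Mn U atTop := by
      have : Tendsto Mn atTop atTop :=
        tendsto_atTop_mono (fun n => (Nat.le_succ n).trans (hMn n)) tendsto_id
      exact this.mono_left hS.le
    exact h3.comp h4
  have hmain : Q ≤ H + hrate ν +
      (∫ x, f x ∂(τ.map Prod.fst) + ∫ x, f x ∂(τ.map Prod.snd)) := by
    have h3 := (hH.add hbν).add hEn
    have h4 : Tendsto (fun n => Q - C / (Mn n : ℝ)) U (𝓝 (Q - 0)) :=
      tendsto_const_nhds.sub (tendsto_const_nhds.div_atTop hMtop)
    rw [sub_zero] at h4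
    refine le_of_tendsto_of_tendsto h4 h3 ?_
    refine Filter.Eventually.of_forall fun n => ?_
    have h8 : (0 : ℝ) < Mn n := by
      have : 0 < Mn n := by
        have := hMn n
        omega
      exact_mod_cast this
    have h9 := hQ n
    change Q - C / (Mn n : ℝ) ≤ Hent (p n) / (Mn n : ℝ) + bent ν (Mn n - 2 * S.s) / (Mn n : ℝ) +
      (∑ z, p n z * En S (Mn n) f z) / (Mn n : ℝ)
    rw [← add_div, ← add_div, le_div_iff₀ h8, sub_mul, div_mul_cancel₀ _ h8.ne']
    exact h9
  -- the entropy of the limit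
  have hi1 := h1.inv
  have hi2 := h2.inv
  have hH2 : H + hrate ν ≤ hrate (τ.map Prod.fst) + hrate (τ.map Prod.snd) := by
    have h3 : ∀ᶠ k : ℕ in atTop, H + bent ν (k - 2 * S.s) / k ≤
        bent (τ.map Prod.fst) k / k + bent (τ.map Prod.snd) k / k := by
      filter_upwards [eventually_ge_atTop 1] with k hk
      have hk0 : (0 : ℝ) < k := by exact_mod_cast hk
      have h4 := lim_ent hS k hk H hH
      have h5 := lim_sub hS hν k
      rw [← add_div, le_div_iff₀ hk0, add_mul, div_mul_cancel₀ _ hk0.ne']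
      linarith
    have h4 : Tendsto (fun k : ℕ => H + bent ν (k - 2 * S.s) / k) atTop (𝓝 (H + hrate ν)) :=
      tendsto_const_nhds.add (tendsto_bent_sub ν (tendsto_bent ν hν) (2 * S.s))
    exact le_of_tendsto_of_tendsto h4 ((tendsto_bent _ hi1).add (tendsto_bent _ hi2)) h3
  linarith

end Pool.Agent.RelEq
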