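import Pool.Agent.Lib_MP_50c299_an.BlockEnt
import Pool.Agent.Lib_MP_50c299_an.MeasExt

/-!
# The Kolmogorov-Sinai theorem for the shift
-/

open MeasureTheory Filter Topology

namespace Pool.Agent.RelEq

namespace KSaux

section gen

variable {Ω : Type} [MeasurableSpace Ω] {μ : Measure Ω} [IsProbabilityMeasure μ]

/-- distribution of a map -/
noncomputable def law (μ : Measure Ω) {β : Type} (f : Ω → β) (b : β) : ℝ := μ.real {x | f x = b}

lemma law_sum {β : Type} [Fintype β] [MeasurableSpace β] [MeasurableSingletonClass β]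
    {f : Ω → β} (hf : Measurable f) (φ : β → ℝ) : ∑ b, law μ f b * φ b = ∫ x, φ (f x) ∂μ := by
  have hφ : AEStronglyMeasurable φ (μ.map f) :=
    (measurable_of_finite φ).aestronglyMeasurable
  have hp : IsProbabilityMeasure (μ.map f) := Measure.isProbabilityMeasure_map hf.aemeasurable
  rw [← integral_map hf.aemeasurable hφ, integral_fintype]
  · refine Finset.sum_congr rfl fun b _ => ?_
    rw [smul_eq_mul, map_measureReal_apply hf (measurableSet_singleton b)]
    rfl
  · exact Integrable.of_finite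

lemma law_isLaw {β : Type} [Fintype β] [MeasurableSpace β] [MeasurableSingletonClass β]
    {f : Ω → β} (hf : Measurable f) : IsLaw (law μ f) := by
  refine ⟨fun b => measureReal_nonneg, ?_⟩
  have := law_sum (μ := μ) hf (fun _ => 1)
  simpa using this

lemma law_map {β γ : Type} [Fintype β] [MeasurableSpace β] [MeasurableSingletonClass β]
    {f : Ω → β} (hf : Measurable f) (g : β → γ) (c : γ) :
    ∑ b, ind (g b = c) * law μ f b = law μ (fun x => g (f x)) c := by
  have h1 := law_sum (μ := μ) hf (fun b => ind (g b = c))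
  have h2 : ∑ b, ind (g b = c) * law μ f b = ∑ b, law μ f b * ind (g b = c) :=
    Finset.sum_congr rfl fun b _ => mul_comm _ _
  rw [h2, h1]
  have h3 : (fun x => ind (g (f x) = c)) = Set.indicator {x | g (f x) = c} (fun _ => (1 : ℝ)) := by
    funext x
    by_cases h : g (f x) = c
    · rw [ind_pos h, Set.indicator_of_mem (by exact h)]
    · rw [ind_neg h, Set.indicator_of_notMem (by exact h)]
  rw [h3, integral_indicator_const]
  · simp [law]
  · exact hf (Set.Finite.measurableSet (Set.toFinite {b | g b = c}))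

/-- The conditional entropy inequality: `H(ξ) ≤ H(v) + E[-log c(ξ_i | b_i(v))]`. -/
lemma cond_ineq {k n m : ℕ} {A : Type} [Fintype A] [MeasurableSpace A] [DiscreteMeasurableSpace A]
    {ξ : Ω → (Fin n → Fin k)} {v : Ω → (Fin m → A)} (hξ : Measurable ξ) (hv : Measurable v)
    (b : (Fin m → A) → (Fin n → Fin k)) {ε : ℝ} (h0 : 0 < ε) (h1 : ε < 1) :
    Hent (law μ ξ) ≤ Hent (law μ v) + ∑ i : Fin n, (- Real.log (1 - ε) +
      μ.real {x | ξ x i ≠ b (v x) i} * Real.log (k / ε)) := by
  classical
  rcases Nat.eq_zero_or_pos k with hk | hk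
  · subst hk
    rcases Nat.eq_zero_or_pos n with hn | hn
    · subst hn
      have h3 : Hent (law μ ξ) = 0 := by
        have hl := law_isLaw (μ := μ) hξ
        unfold Hent
        have h5 : ∀ a, law μ ξ a = 1 := by
          intro a
          rw [← hl.sum_one, Fintype.sum_unique]
          congr 1
          exact Subsingleton.elim _ _
        rw [Fintype.sum_unique, h5]
        simp
      rw [h3]
      simp only [Finset.univ_eq_empty, Finset.sum_empty, add_zero]
      exact Hent_nonneg (law_isLaw hv)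
    · obtain ⟨x⟩ : Nonempty Ω := nonempty_of_isProbabilityMeasure μ
      exact (ξ x ⟨0, hn⟩).elim0
  have hk' : (0 : ℝ) < k := by exact_mod_cast hk
  set c : Fin k → Fin k → ℝ := fun a b => if a = b then 1 - ε else ε / k with hc
  have hcpos : ∀ a b, 0 < c a b := by
    intro a b
    simp only [hc]
    split_ifs
    · linarith
    · positivity
  have hcsum : ∀ b, ∑ a, c a b ≤ 1 := by
    intro b
    have h3 : ∀ a, c a b ≤ (if a = b then 1 - ε else 0) + ε / k := by
      intro a
      simp only [hc]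
      split_ifs
      · have : 0 < ε / k := by positivity
        linarith
      · linarith
    calc ∑ a, c a b ≤ ∑ a, ((if a = b then 1 - ε else 0) + ε / k) :=
          Finset.sum_le_sum fun a _ => h3 a
      _ = (1 - ε) + k * (ε / k) := by
          rw [Finset.sum_add_distrib, Finset.sum_ite_eq' Finset.univ b]
          simp
      _ = 1 := by field_simp; ring
  have hclog : ∀ a b, - Real.log (c a b) ≤ - Real.log (1 - ε) + ind (a ≠ b) * Real.log (k / ε) := by
    intro a b
    by_cases h : a = b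
    · rw [ind_neg (by simpa using h)]
      simp [hc, h]
    · rw [ind_pos h]
      simp only [hc, if_neg h]
      have h5 : Real.log (1 - ε) ≤ 0 := Real.log_nonpos (by linarith) (by linarith)
      have h6 : Real.log (k / ε) = - Real.log (ε / k) := by
        rw [← Real.log_inv, inv_div]
      rw [h6]
      linarith
  set f : Ω → (Fin n → Fin k) × (Fin m → A) := fun x => (ξ x, v x) with hf
  have hfm : Measurable f := hξ.prodMk hv
  set P := law μ f with hP
  have hPl : IsLaw P := law_isLaw hfm
  set q : (Fin n → Fin k) × (Fin m → A) → ℝ := fun z => law μ v z.2 * ∏ i, c (z.1 i) (b z.2 i)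
    with hq
  have hq0 : ∀ z, 0 ≤ q z := fun z =>
    mul_nonneg measureReal_nonneg (Finset.prod_nonneg fun i _ => (hcpos _ _).le)
  have hq1 : ∑ z, q z ≤ 1 := by
    rw [Fintype.sum_prod_type_right]
    calc ∑ y, ∑ x, q (x, y) = ∑ y, law μ v y * ∏ i, ∑ a, c a (b y i) := by
          refine Finset.sum_congr rfl fun y _ => ?_
          simp only [hq]
          rw [← Finset.mul_sum, Finset.prod_univ_sum, Fintype.piFinset_univ]
      _ ≤ ∑ y, law μ v y * 1 := by
          refine Finset.sum_le_sum fun y _ => ?_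
          refine mul_le_mul_of_nonneg_left ?_ measureReal_nonneg
          exact Finset.prod_le_one (fun i _ => Finset.sum_nonneg fun a _ => (hcpos _ _).le)
            (fun i _ => hcsum _)
      _ = 1 := by
          simp only [mul_one]
          exact (law_isLaw hv).sum_one
  have hPv : ∀ z, P z ≤ law μ v z.2 := by
    intro z
    refine measureReal_mono ?_
    intro x hx
    have : f x = z := hx
    rw [← this]
    rfl
  have hPq : ∀ z, P z ≠ 0 → q z ≠ 0 := by
    intro z hz
    have h5 : 0 < P z := lt_of_le_of_ne (hPl.nonneg z) (Ne.symm hz)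
    exact mul_ne_zero (lt_of_lt_of_le h5 (hPv z)).ne'
      (Finset.prod_ne_zero_iff.2 fun i _ => (hcpos _ _).ne')
  have h2 : Hent (law μ ξ) ≤ Hent P := by
    have h3 := Hent_map_le hPl Prod.fst
    have h4 : (fun w => ∑ a, ind (Prod.fst a = w) * P a) = law μ ξ := by
      funext w
      exact law_map hfm Prod.fst w
    rwa [h4] at h3
  refine h2.trans ((gibbs hPl hq0 hq1 hPq).trans ?_)
  have h3 : ∀ z, P z * (-Real.log (q z)) ≤ P z * (-Real.log (law μ v z.2)) +
      ∑ i, (P z * (- Real.log (1 - ε)) + P z * (ind (z.1 i ≠ b z.2 i) * Real.log (k / ε))) := by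
    intro z
    by_cases hz : P z = 0
    · rw [hz]; simp
    · have h5 : 0 < P z := lt_of_le_of_ne (hPl.nonneg z) (Ne.symm hz)
      have h6 : 0 < law μ v z.2 := lt_of_lt_of_le h5 (hPv z)
      simp only [hq]
      rw [Real.log_mul h6.ne' (Finset.prod_ne_zero_iff.2 fun i _ => (hcpos _ _).ne'),
        Real.log_prod (fun i _ => (hcpos _ _).ne')]
      have h7 : -(Real.log (law μ v z.2) + ∑ i, Real.log (c (z.1 i) (b z.2 i))) =
          -Real.log (law μ v z.2) + ∑ i, -Real.log (c (z.1 i) (b z.2 i)) := by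
        rw [neg_add, Finset.sum_neg_distrib]
      rw [h7, mul_add]
      refine add_le_add le_rfl ?_
      rw [Finset.mul_sum]
      refine Finset.sum_le_sum fun i _ => ?_
      rw [← mul_add]
      exact mul_le_mul_of_nonneg_left (hclog _ _) h5.le
  refine (Finset.sum_le_sum fun z _ => h3 z).trans ?_
  rw [Finset.sum_add_distrib]
  refine add_le_add ?_ ?_
  · have h4 : ∑ z, P z * (-Real.log (law μ v z.2)) = ∫ x, -Real.log (law μ v (v x)) ∂μ :=
      law_sum hfm (fun z => -Real.log (law μ v z.2))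
    have h5 : ∑ y, law μ v y * (-Real.log (law μ v y)) = ∫ x, -Real.log (law μ v (v x)) ∂μ :=
      law_sum hv (fun y => -Real.log (law μ v y))
    rw [h4, ← h5]
    unfold Hent
    refine Finset.sum_le_sum fun y _ => ?_
    rw [Real.negMulLog]
    linarith
  · rw [Finset.sum_comm]
    refine Finset.sum_le_sum fun i _ => ?_
    rw [Finset.sum_add_distrib, ← Finset.sum_mul, hPl.sum_one, one_mul]
    refine add_le_add le_rfl ?_
    have h4 : ∑ z, P z * (ind (z.1 i ≠ b z.2 i) * Real.log (k / ε)) =
        (∑ z, ind ((fun z : (Fin n → Fin k) × (Fin m → A) => (z.1 i ≠ b z.2 i : Prop)) z = True)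
          * P z) * Real.log (k / ε) := by
      rw [Finset.sum_mul]
      refine Finset.sum_congr rfl fun z _ => ?_
      rw [ind_congr (P := ((z.1 i ≠ b z.2 i) = True)) (Q := (z.1 i ≠ b z.2 i)) (by simp)]
      ring
    rw [h4, law_map hfm (fun z : (Fin n → Fin k) × (Fin m → A) => (z.1 i ≠ b z.2 i : Prop)) True]
    have h5 : law μ (fun x => (fun z : (Fin n → Fin k) × (Fin m → A) =>
        (z.1 i ≠ b z.2 i : Prop)) (f x)) True = μ.real {x | ξ x i ≠ b (v x) i} := by
      unfold law
      congr 1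
      ext x
      simp [hf]
    rw [h5]

end gen

variable {A B : Type} [Fintype A] [Nonempty A] [TopologicalSpace A] [DiscreteTopology A]
  [MeasurableSpace A] [DiscreteMeasurableSpace A]

omit [Fintype A] [TopologicalSpace A] [DiscreteTopology A] [Nonempty A] in
/-- approximation by a local map -/
lemma exists_local {μ : Measure (ℤ → A)} [IsProbabilityMeasure μ] {k : ℕ} {ξ : (ℤ → A) → Fin k}
    (hξ : Measurable ξ) {δ : ℝ} (hδ : 0 < δ) :
    ∃ (K : ℕ) (ξ' : (ℤ → A) → Fin k), (∀ x x' : ℤ → A, (∀ i : ℤ, -K ≤ i → i ≤ K → x i = x' i) →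
      ξ' x = ξ' x') ∧ μ.real {x | ξ x ≠ ξ' x} ≤ δ := by
  classical
  have hdense : μ.MeasureDense (measurableCylinders fun _ : ℤ => A) :=
    Measure.MeasureDense.of_generateFrom_isSetAlgebra_finite μ isSetAlgebra_measurableCylinders
      generateFrom_measurableCylinders.symm
  obtain ⟨x₀⟩ : Nonempty (ℤ → A) := nonempty_of_isProbabilityMeasure μ
  have hk : 0 < k := lt_of_le_of_lt (Nat.zero_le _) (ξ x₀).2
  have hk' : (0 : ℝ) < k := by exact_mod_cast hk
  have h1 : ∀ a : Fin k, ∃ C ∈ measurableCylinders (fun _ : ℤ => A),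
      μ (symmDiff (ξ ⁻¹' {a}) C) < ENNReal.ofReal (δ / k) := fun a =>
    hdense.approx _ (hξ (measurableSet_singleton a)) (measure_ne_top μ _) _ (by positivity)
  choose C hC hCμ using h1
  have h2 : ∀ a : Fin k, ∃ K : ℕ, ∀ x x' : ℤ → A, (∀ i : ℤ, -K ≤ i → i ≤ K → x i = x' i) →
      (x ∈ C a ↔ x' ∈ C a) := by
    intro a
    obtain ⟨s, S, hS, hCS⟩ := (mem_measurableCylinders _).1 (hC a)
    refine ⟨s.sup Int.natAbs, fun x x' hxx => ?_⟩
    rw [hCS, mem_cylinder, mem_cylinder]
    have : s.restrict x = s.restrict x' := by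
      funext i
      have hi : (i : ℤ).natAbs ≤ s.sup Int.natAbs := Finset.le_sup (f := Int.natAbs) i.2
      exact hxx i (by omega) (by omega)
    rw [this]
  choose K hK using h2
  refine ⟨Finset.univ.sup K, fun x => if h : ∃ a, x ∈ C a then h.choose else ⟨0, hk⟩, ?_, ?_⟩
  · intro x x' hxx
    have h3 : ∀ a, x ∈ C a ↔ x' ∈ C a := by
      intro a
      apply hK a
      intro i hi1 hi2
      have : K a ≤ Finset.univ.sup K := Finset.le_sup (Finset.mem_univ a)
      exact hxx i (by omega) (by omega)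
    have h4 : (fun a => x ∈ C a) = (fun a => x' ∈ C a) := by
      funext a
      exact propext (h3 a)
    have h5 : ∀ p p' : Fin k → Prop, p = p' →
        (if h : ∃ a, p a then h.choose else (⟨0, hk⟩ : Fin k)) =
        (if h : ∃ a, p' a then h.choose else (⟨0, hk⟩ : Fin k)) := by
      rintro p _ rfl
      rfl
    exact h5 _ _ h4
  · set ξ' : (ℤ → A) → Fin k := fun x => if h : ∃ a, x ∈ C a then h.choose else ⟨0, hk⟩ with hξ'
    have hsub : {x | ξ x ≠ ξ' x} ⊆ ⋃ a ∈ (Finset.univ : Finset (Fin k)),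
        symmDiff (ξ ⁻¹' {a}) (C a) := by
      intro x hx
      by_contra hc
      simp only [Finset.mem_univ, Set.iUnion_true, Set.mem_iUnion, not_exists] at hc
      have h3 : ∀ a, x ∈ C a ↔ ξ x = a := by
        intro a
        have := hc a
        rw [Set.mem_symmDiff] at this
        simp only [Set.mem_preimage, Set.mem_singleton_iff] at this
        tauto
      have hex : ∃ a, x ∈ C a := ⟨ξ x, (h3 _).2 rfl⟩
      have h4 : ξ' x = hex.choose := by
        simp only [hξ']
        rw [dif_pos hex]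
      have h5 := (h3 _).1 hex.choose_spec
      exact hx (h5.trans h4.symm)
    calc μ.real {x | ξ x ≠ ξ' x} ≤ μ.real (⋃ a ∈ (Finset.univ : Finset (Fin k)),
          symmDiff (ξ ⁻¹' {a}) (C a)) := measureReal_mono hsub (measure_ne_top μ _)
      _ ≤ ∑ a, μ.real (symmDiff (ξ ⁻¹' {a}) (C a)) := measureReal_biUnion_finset_le _ _
      _ ≤ ∑ a : Fin k, δ / k := by
          refine Finset.sum_le_sum fun a _ => ?_
          have h6 := (hCμ a).le
          rw [measureReal_def]
          exact ENNReal.toReal_le_of_le_ofReal (by positivity) h6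
      _ = δ := by
          simp only [Finset.sum_const, Finset.card_univ, Fintype.card_fin, nsmul_eq_mul]
          field_simp

lemma partitionEntropy_le {μ : Measure (ℤ → A)} [IsProbabilityMeasure μ]
    (hμ : MeasurePreserving shift μ μ) {k : ℕ} {ξ : (ℤ → A) → Fin k} (hξ : Measurable ξ)
    {ε δ : ℝ} (h0 : 0 < ε) (h1 : ε < 1) {K : ℕ} {ξ' : (ℤ → A) → Fin k}
    (hloc : ∀ x x' : ℤ → A, (∀ i : ℤ, -K ≤ i → i ≤ K → x i = x' i) → ξ' x = ξ' x')
    (hδ : μ.real {x | ξ x ≠ ξ' x} ≤ δ) (n : ℕ) :
    partitionEntropy shift μ ξ n ≤ bent μ (n + 2 * K) +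
      n * (- Real.log (1 - ε) + δ * Real.log (k / ε)) := by
  have hinv := inv_of_shift hμ
  obtain ⟨x₀⟩ : Nonempty (ℤ → A) := nonempty_of_isProbabilityMeasure μ
  have hk : 0 < k := lt_of_le_of_lt (Nat.zero_le _) (ξ x₀).2
  have hk' : (1 : ℝ) ≤ k := by exact_mod_cast hk
  -- the local map
  obtain ⟨b, hb⟩ := exists_factor (fun x : ℤ → A => fun i : Fin n => ξ' (sh (i : ℤ) x))
    (n + 2 * K) (-(K : ℤ)) (by
      intro x x' h
      rw [wd_eq_iff] at h
      funext i
      apply hloc
      intro j hj1 hj2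
      have hi := i.2
      have := h (j + i + K) (by omega) (by push_cast; omega)
      simp only [sh_apply] at this ⊢
      have h3 : j + (i : ℤ) + K + -(K : ℤ) = j + i := by ring
      rwa [h3] at this)
  have hm : Measurable (fun x : ℤ → A => fun i : Fin n => ξ (shift^[i] x)) := by
    refine measurable_pi_lambda _ fun i => ?_
    exact hξ.comp (hμ.measurable.iterate _)
  have hv : Measurable (fun x : ℤ → A => wd (n + 2 * K) (sh (-(K : ℤ)) x)) :=
    (measurable_wd _).comp (measurable_sh _)
  have key := cond_ineq (μ := μ) hm hv b h0 h1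
  have h2 : Hent (law μ (fun x : ℤ → A => fun i : Fin n => ξ (shift^[i] x))) =
      partitionEntropy shift μ ξ n := by
    unfold Hent partitionEntropy law
    refine Finset.sum_congr rfl fun w _ => ?_
    congr 2
    ext x
    simp only [Set.mem_ofPred_eq]
    exact funext_iff
  have h3 : law μ (fun x : ℤ → A => wd (n + 2 * K) (sh (-(K : ℤ)) x)) = wl μ (n + 2 * K) := by
    funext w
    unfold law wl
    have hms : MeasurableSet {x : ℤ → A | wd (n + 2 * K) x = w} :=
      (measurable_wd _) (measurableSet_singleton w)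
    exact (hinv (-(K : ℤ))).measureReal_preimage hms.nullMeasurableSet
  rw [h2, h3] at key
  refine key.trans (add_le_add le_rfl ?_)
  have h4 : ∀ i : Fin n, μ.real {x : ℤ → A | ξ (shift^[i] x) ≠ b (wd (n + 2 * K)
      (sh (-(K : ℤ)) x)) i} ≤ δ := by
    intro i
    have h5 : {x : ℤ → A | ξ (shift^[i] x) ≠ b (wd (n + 2 * K) (sh (-(K : ℤ)) x)) i} =
        sh (i : ℤ) ⁻¹' {x | ξ x ≠ ξ' x} := by
      ext x
      simp only [Set.mem_ofPred_eq, Set.mem_preimage]
      rw [← hb x, shift_iterate]
    rw [h5]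
    refine le_trans (le_of_eq ?_) hδ
    refine (hinv (i : ℤ)).measureReal_preimage ?_
    have hξ'm : Measurable ξ' := by
      refine measurable_of_local ξ' (2 * K + 1) (-(K : ℤ)) ?_
      intro x x' h
      rw [wd_eq_iff] at h
      apply hloc
      intro j hj1 hj2
      have := h (j + K) (by omega) (by push_cast; omega)
      simp only [sh_apply] at this
      have h3 : j + (K : ℤ) + -(K : ℤ) = j := by ring
      rwa [h3] at this
    exact (measurableSet_eq_fun hξ hξ'm).compl.nullMeasurableSet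
  have hlog : 0 ≤ Real.log (k / ε) := by
    apply Real.log_nonneg
    rw [le_div_iff₀ h0]
    linarith
  calc ∑ i : Fin n, (- Real.log (1 - ε) + μ.real {x : ℤ → A | ξ (shift^[i] x) ≠
        b (wd (n + 2 * K) (sh (-(K : ℤ)) x)) i} * Real.log (k / ε))
      ≤ ∑ i : Fin n, (- Real.log (1 - ε) + δ * Real.log (k / ε)) := by
        refine Finset.sum_le_sum fun i _ => add_le_add le_rfl ?_
        exact mul_le_mul_of_nonneg_right (h4 i) hlog
    _ = n * (- Real.log (1 - ε) + δ * Real.log (k / ε)) := by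
        simp only [Finset.sum_const, Finset.card_univ, Fintype.card_fin, nsmul_eq_mul]

lemma tendsto_aux {μ : Measure (ℤ → A)} [IsProbabilityMeasure μ]
    (hμ : MeasurePreserving shift μ μ) (K : ℕ) :
    Tendsto (fun n : ℕ => bent μ (n + 2 * K) / n) atTop (𝓝 (hrate μ)) := by
  have h1 := (tendsto_bent μ (inv_of_shift hμ)).comp (tendsto_add_atTop_nat (2 * K))
  have h2 : Tendsto (fun n : ℕ => ((n + 2 * K : ℕ) : ℝ) / n) atTop (𝓝 1) := by
    have h3 : Tendsto (fun n : ℕ => 1 + (2 * K : ℝ) * ((n : ℝ))⁻¹) atTop (𝓝 (1 + 2 * K * 0)) :=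
      tendsto_const_nhds.add (tendsto_inv_atTop_nhds_zero_nat.const_mul _)
    rw [mul_zero, add_zero] at h3
    refine h3.congr' ?_
    filter_upwards [eventually_gt_atTop 0] with n hn
    have : (n : ℝ) ≠ 0 := by positivity
    push_cast
    field_simp
  have h4 := h1.mul h2
  rw [mul_one] at h4
  refine h4.congr' ?_
  filter_upwards [eventually_gt_atTop 0] with n hn
  have hn0 : (n : ℝ) ≠ 0 := by positivity
  have hn1 : ((n + 2 * K : ℕ) : ℝ) ≠ 0 := by positivity
  simp only [Function.comp]
  field_simp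

omit [Fintype A] [Nonempty A] [TopologicalSpace A] [DiscreteTopology A]
  [DiscreteMeasurableSpace A] in
lemma partitionEntropy_nonneg {μ : Measure (ℤ → A)} [IsProbabilityMeasure μ] {k : ℕ}
    (ξ : (ℤ → A) → Fin k) (n : ℕ) : 0 ≤ partitionEntropy shift μ ξ n := by
  unfold partitionEntropy
  refine Finset.sum_nonneg fun w _ => Real.negMulLog_nonneg measureReal_nonneg ?_
  exact measureReal_le_one

lemma limsup_le_hrate {μ : Measure (ℤ → A)} [IsProbabilityMeasure μ]
    (hμ : MeasurePreserving shift μ μ) {k : ℕ} {ξ : (ℤ → A) → Fin k} (hξ : Measurable ξ) :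
    limsup (fun n : ℕ => partitionEntropy shift μ ξ n / n) atTop ≤ hrate μ := by
  refine le_of_forall_pos_le_add fun η hη => ?_
  -- choose `ε`, `δ`
  set ε : ℝ := 1 - Real.exp (-(η / 2)) with hε
  have hexp : Real.exp (-(η / 2)) < 1 := by
    rw [Real.exp_lt_one_iff]
    linarith
  have h0 : 0 < ε := by linarith
  have h1 : ε < 1 := by
    have := Real.exp_pos (-(η / 2))
    linarith
  obtain ⟨x₀⟩ : Nonempty (ℤ → A) := nonempty_of_isProbabilityMeasure μ
  have hk : 0 < k := lt_of_le_of_lt (Nat.zero_le _) (ξ x₀).2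
  have hk' : (1 : ℝ) ≤ k := by exact_mod_cast hk
  have hlog : 0 < Real.log (k / ε) := by
    apply Real.log_pos
    rw [lt_div_iff₀ h0]
    linarith
  set δ : ℝ := η / 2 / Real.log (k / ε) with hδ
  have hδ0 : 0 < δ := by positivity
  obtain ⟨K, ξ', hloc, hd⟩ := exists_local (μ := μ) hξ hδ0
  have h2 : - Real.log (1 - ε) + δ * Real.log (k / ε) = η := by
    have h3 : 1 - ε = Real.exp (-(η / 2)) := by rw [hε]; ring
    rw [h3, Real.log_exp, hδ]
    field_simp
    ring
  have h4 : ∀ᶠ n : ℕ in atTop, partitionEntropy shift μ ξ n / n ≤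
      bent μ (n + 2 * K) / n + η := by
    filter_upwards [eventually_gt_atTop 0] with n hn
    have hn0 : (0 : ℝ) < n := by positivity
    have := partitionEntropy_le hμ hξ h0 h1 hloc hd n
    rw [h2] at this
    rw [div_le_iff₀ hn0, add_mul, div_mul_cancel₀ _ hn0.ne']
    linarith
  have h5 : Tendsto (fun n : ℕ => bent μ (n + 2 * K) / n + η) atTop (𝓝 (hrate μ + η)) :=
    (tendsto_aux hμ K).add tendsto_const_nhds
  rw [← h5.limsup_eq]
  refine limsup_le_limsup h4 ?_ h5.isBoundedUnder_le
  refine isCoboundedUnder_le_of_le (x := 0) _ (fun n => ?_)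
  exact div_nonneg (partitionEntropy_nonneg ξ n) (Nat.cast_nonneg n)

lemma exists_eq (μ : Measure (ℤ → A)) [IsProbabilityMeasure μ]
    (hμ : MeasurePreserving shift μ μ) :
    ∃ ξ : (Σ k : ℕ, {ξ : (ℤ → A) → Fin k // Measurable ξ}),
      limsup (fun n : ℕ => partitionEntropy shift μ ξ.2.1 n / n) atTop = hrate μ := by
  classical
  set e := Fintype.equivFin A with he
  refine ⟨⟨Fintype.card A, fun x => e (x 0),
    (measurable_of_finite e).comp (measurable_pi_apply 0)⟩, ?_⟩
  have h1 : ∀ n : ℕ, partitionEntropy shift μ (fun x : ℤ → A => e (x 0)) n = bent μ n := by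
    intro n
    unfold partitionEntropy bent Hent
    rw [← Equiv.sum_comp (Equiv.arrowCongr (Equiv.refl (Fin n)) e)]
    refine Finset.sum_congr rfl fun w _ => ?_
    unfold wl
    congr 2
    ext x
    simp only [Set.mem_ofPred_eq]
    rw [funext_iff]
    refine forall_congr' fun i => ?_
    simp [shift_iterate, wd_apply]
  have h2 := tendsto_bent μ (inv_of_shift hμ)
  have h3 : (fun n : ℕ => partitionEntropy shift μ (fun x : ℤ → A => e (x 0)) n / n) =
      fun n : ℕ => bent μ n / n := by
    funext n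
    rw [h1]
  change limsup (fun n : ℕ => partitionEntropy shift μ (fun x : ℤ → A => e (x 0)) n / n) atTop = _
  rw [h3]
  exact h2.limsup_eq

end KSaux

variable {A B : Type} [Fintype A] [Nonempty A] [TopologicalSpace A] [DiscreteTopology A]
  [MeasurableSpace A] [DiscreteMeasurableSpace A]

theorem ks_eq {μ : Measure (ℤ → A)} [IsProbabilityMeasure μ]
    (hμ : MeasurePreserving shift μ μ) : ksEntropy shift μ = hrate μ := by
  obtain ⟨ξ₀, hξ₀⟩ := KSaux.exists_eq μ hμ
  have hle : ∀ ξ : (Σ k : ℕ, {ξ : (ℤ → A) → Fin k // Measurable ξ}),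
      limsup (fun n : ℕ => partitionEntropy shift μ ξ.2.1 n / n) atTop ≤ hrate μ := fun ξ =>
    KSaux.limsup_le_hrate hμ ξ.2.2
  unfold ksEntropy
  apply le_antisymm
  · have : Nonempty (Σ k : ℕ, {ξ : (ℤ → A) → Fin k // Measurable ξ}) := ⟨ξ₀⟩
    exact ciSup_le hle
  · rw [← hξ₀]
    refine le_ciSup (f := fun ξ : (Σ k : ℕ, {ξ : (ℤ → A) → Fin k // Measurable ξ}) =>
      limsup (fun n : ℕ => partitionEntropy shift μ ξ.2.1 n / n) atTop) ⟨hrate μ, ?_⟩ ξ₀
    rintro _ ⟨ξ, rfl⟩
    exact hle ξ

end Pool.Agent.RelEq
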