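import Pool.Agent.Lib_MP_50c299_an.CHL
import Pool.Agent.Lib_MP_50c299_an.KS

/-!
# Transfer of the hypotheses to the working definitions
-/

open MeasureTheory Filter Topology

namespace Pool.Agent.RelEq

variable {A B : Type} [Fintype A] [Nonempty A] [TopologicalSpace A] [DiscreteTopology A]
  [MeasurableSpace A] [DiscreteMeasurableSpace A]
  [Fintype B] [TopologicalSpace B] [DiscreteTopology B] [MeasurableSpace B]
  [DiscreteMeasurableSpace B]

omit [Fintype A] [Nonempty A] [TopologicalSpace A] [DiscreteTopology A]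
  [DiscreteMeasurableSpace A]
  [Fintype B] [TopologicalSpace B] [DiscreteTopology B] [MeasurableSpace B]
  [DiscreteMeasurableSpace B] in
theorem measure_preimage_eq {X : Set (ℤ → A)} {π π' : (ℤ → A) → (ℤ → B)}
    (hπ : ∀ x ∈ X, π' x = π x) {μ : Measure (ℤ → A)} (hμ : μ Xᶜ = 0) (E : Set (ℤ → B)) :
    μ (π' ⁻¹' E) = μ (X ∩ π ⁻¹' E) := by
  refine measure_congr ?_
  have hX : ∀ᵐ x ∂μ, x ∈ X := by
    rw [ae_iff]
    exact hμ
  filter_upwards [hX] with x hx
  apply propext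
  constructor
  · intro h
    refine ⟨hx, ?_⟩
    show π x ∈ E
    rw [← hπ x hx]
    exact h
  · rintro ⟨_, h⟩
    show π' x ∈ E
    rw [hπ x hx]
    exact h

theorem fibre_iff {X : Set (ℤ → A)} {π : (ℤ → A) → (ℤ → B)} (S : Sys A B) (hSX : S.X = X)
    (hSπ : ∀ x ∈ X, S.π x = π x) (ν : Measure (ℤ → B)) (μ : Measure (ℤ → A)) :
    μ ∈ fibre X π ν ↔ InFib S ν μ := by
  constructor
  · rintro ⟨h1, h2, h3, h4⟩
    refine ⟨h1, by rw [hSX]; exact h2, inv_of_shift h3, fun E hE => ?_⟩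
    rw [measure_preimage_eq hSπ h2 E]
    exact h4 E hE
  · rintro ⟨h1, h2, h3, h4⟩
    rw [hSX] at h2
    refine ⟨h1, h2, h3 1, fun E hE => ?_⟩
    rw [← measure_preimage_eq hSπ h2 E]
    exact h4 E hE

omit [Fintype A] [Nonempty A] [TopologicalSpace A] [DiscreteTopology A]
  [MeasurableSpace A] [DiscreteMeasurableSpace A]
  [Fintype B] [TopologicalSpace B] [DiscreteTopology B] [MeasurableSpace B]
  [DiscreteMeasurableSpace B] in
theorem reach_congr {X : Set (ℤ → A)} {π π' : (ℤ → A) → (ℤ → B)}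
    (hπ : ∀ x ∈ X, π' x = π x) {x x' : ℤ → A} (hx : x ∈ X) :
    Reach X π' x x' ↔ Reach X π x x' := by
  unfold Reach
  refine forall_congr' fun n => exists_congr fun v => and_congr_right fun hv => ?_
  rw [hπ v hv, hπ x hx]

theorem classes_eq {X : Set (ℤ → A)} {π : (ℤ → A) → (ℤ → B)} (S : Sys A B) (hSX : S.X = X)
    (hSπ : ∀ x ∈ X, S.π x = π x) (y : ℤ → B) :
    transitionClasses S.X S.π y = transitionClasses X π y := by
  rw [hSX]
  unfold transitionClasses
  have key : ∀ x ∈ X, {x' | x' ∈ X ∧ S.π x' = y ∧ Reach X S.π x x' ∧ Reach X S.π x' x} =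
      {x' | x' ∈ X ∧ π x' = y ∧ Reach X π x x' ∧ Reach X π x' x} := by
    intro x hx
    ext x'
    refine and_congr_right fun hx' => ?_
    rw [hSπ x' hx', reach_congr hSπ hx, reach_congr hSπ hx']
  ext C
  refine exists_congr fun x => and_congr_right fun hx => ?_
  rw [hSπ x hx, key x hx]

/-- Extension of a function in the Bowen class to a continuous function on all sequences. -/
theorem exists_cont {X : Set (ℤ → A)} (S : Sys A B) (hSX : S.X = X) (f : (ℤ → A) → ℝ)
    (hf : IsBowen X f) :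
    ∃ g : (ℤ → A) → ℝ, Continuous g ∧ (∀ x ∈ X, g x = f x) ∧ ∃ K : ℝ,
      ∀ n : ℕ, ∀ x ∈ S.X, ∀ x' ∈ S.X, (∀ i : ℤ, 0 ≤ i → i < n → x i = x' i) →
      |bsum g n x - bsum g n x'| ≤ K := by
  obtain ⟨hfc, K, hK⟩ := hf
  have hcl : IsClosed X := hSX ▸ S.closed
  obtain ⟨g, hg⟩ := ContinuousMap.exists_restrict_eq hcl
    (⟨X.domRestrict f, continuousOn_iff_continuous_domRestrict.1 hfc⟩ : C(X, ℝ))
  have hgf : ∀ x ∈ X, g x = f x := by
    intro x hx
    have := congrArg (fun h : C(X, ℝ) => h ⟨x, hx⟩) hg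
    exact this
  refine ⟨g, g.continuous, hgf, K, fun n x hx x' hx' hxx' => ?_⟩
  have key : ∀ x ∈ S.X, bsum g n x = birkhoffSum shift f n x := by
    intro x hx
    rw [← bsum_eq]
    unfold bsum
    refine Finset.sum_congr rfl fun t _ => hgf _ ?_
    rw [← hSX]
    exact S.inv t x hx
  rw [key x hx, key x' hx']
  rw [hSX] at hx hx'
  exact hK n x hx x' hx' hxx'

theorem pressure_eq {X : Set (ℤ → A)} (f g : (ℤ → A) → ℝ) (hfg : ∀ x ∈ X, g x = f x)
    {μ : Measure (ℤ → A)} [IsProbabilityMeasure μ] (hμX : μ Xᶜ = 0)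
    (hμ : MeasurePreserving shift μ μ) : pressure f μ = hrate μ + ∫ x, g x ∂μ := by
  unfold pressure
  rw [ks_eq hμ]
  congr 1
  refine integral_congr_ae ?_
  have hX : ∀ᵐ x ∂μ, x ∈ X := by
    rw [ae_iff]
    exact hμX
  filter_upwards [hX] with x hx
  exact (hfg x hx).symm

end Pool.Agent.RelEq
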