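import Pool.Agent.Lib_MP_50c299_an.Freq
import Pool.Agent.Lib_MP_50c299_an.Construct
import Pool.Agent.Lib_MP_50c299_an.Limit
import Pool.Agent.Lib_MP_50c299_an.Transfer

/-!
# Relative equilibrium states and class degree: assembly
-/

open MeasureTheory Filter Topology

namespace Pool.Agent.RelEq

variable {A B : Type} [Fintype A] [Nonempty A] [TopologicalSpace A] [DiscreteTopology A]
  [MeasurableSpace A] [DiscreteMeasurableSpace A]
  [Fintype B] [TopologicalSpace B] [DiscreteTopology B] [MeasurableSpace B]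
  [DiscreteMeasurableSpace B]

/-- There are no `c + 1` distinct ergodic maximisers. -/
theorem core (S : Sys A B) (ν : Measure (ℤ → B)) [IsProbabilityMeasure ν] (hν : Inv ν) (c : ℕ)
    (y₀ : ℤ → B) (hc : (transitionClasses S.X S.π y₀).encard ≤ c)
    (hfull : ∀ n : ℕ, 0 < ν {y | ∀ i : ℤ, -n ≤ i → i ≤ n → y i = y₀ i})
    (f : (ℤ → A) → ℝ) (hf : Continuous f) (K : ℝ)
    (hB : ∀ n : ℕ, ∀ x ∈ S.X, ∀ x' ∈ S.X, (∀ i : ℤ, 0 ≤ i → i < n → x i = x' i) →
      |bsum f n x - bsum f n x'| ≤ K)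
    (μ : Fin (c + 1) → Measure (ℤ → A)) (hinj : Function.Injective μ)
    (hμ : ∀ i, InFib S ν (μ i)) (he : ∀ i, Ergodic shift (μ i))
    (hmax : ∀ i, ∀ μ', InFib S ν μ' →
      hrate μ' + ∫ x, f x ∂μ' ≤ hrate (μ i) + ∫ x, f x ∂(μ i)) : False := by
  obtain ⟨L, i, j, hij, δ, hδ, hfreq⟩ := freq S ν hν c μ hμ y₀ hc hfull
  obtain ⟨η, hη, C, h⟩ := construct S ν hν (μ i) (μ j) (hμ i) (hμ j) (he i) (he j)
    (fun h => hij (hinj h)) f hf K hB L δ hδ hfreq
  obtain ⟨τ₁, τ₂, h₁, h₂, hQ⟩ := limit S ν hν f hf _ C h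
  have e1 := hmax i τ₁ h₁
  have e2 := hmax j τ₂ h₂
  linarith

theorem encard_le {X : Set (ℤ → A)} {Y : Set (ℤ → B)} {π : (ℤ → A) → (ℤ → B)}
    (hX : IsSFT X) (hπ : IsFactorCode X Y π) {ν : Measure (ℤ → B)} (hν : IsFullErgodic Y ν)
    {f : (ℤ → A) → ℝ} (hf : IsBowen X f) :
    (ergodicMaximizers X π ν f).encard ≤ classDegree X Y π := by
  by_contra hlt
  push Not at hlt
  unfold classDegree at hlt
  obtain ⟨y₀, hy⟩ := iInf_lt_iff.1 hlt
  obtain ⟨hy₀, hcard⟩ := iInf_lt_iff.1 hy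
  have hfin : (transitionClasses X π y₀).encard ≠ ⊤ := hcard.ne_top
  obtain ⟨c, hc⟩ := ENat.ne_top_iff_exists.1 hfin
  rw [← hc] at hcard
  have hcard' : ((c + 1 : ℕ) : ℕ∞) ≤ (ergodicMaximizers X π ν f).encard := by
    push_cast
    exact Order.add_one_le_of_lt hcard
  obtain ⟨T, hT, hTc⟩ := Set.exists_subset_encard_eq hcard'
  have hTfin : T.Finite := Set.finite_of_encard_eq_coe hTc
  have hTn : T.ncard = c + 1 := by
    have := hTfin.cast_ncard_eq
    rw [hTc] at this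
    exact_mod_cast this
  letI : Fintype T := hTfin.fintype
  have hTf : Fintype.card T = c + 1 := by
    rw [← hTn, Set.ncard_eq_toFinset_card', Set.toFinset_card]
  let e : Fin (c + 1) ≃ T := (Fintype.equivFinOfCardEq hTf).symm
  have hmem : ∀ i, (e i : Measure (ℤ → A)) ∈ ergodicMaximizers X π ν f := fun i => hT (e i).2
  have := hν.prob
  have hne : X.Nonempty := by
    rw [← hπ.image] at hy₀
    obtain ⟨x, hx, -⟩ := hy₀
    exact ⟨x, hx⟩
  obtain ⟨S, hSX, hSπ⟩ := exists_sys hX hπ hne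
  obtain ⟨g, hg, hgf, K, hB⟩ := exists_cont S hSX f hf
  refine core S ν (inv_of_shift hν.ergodic.toMeasurePreserving) c y₀ ?_ ?_ g hg K hB
    (fun i => (e i : Measure (ℤ → A))) ?_ ?_ ?_ ?_
  · rw [classes_eq S hSX hSπ, ← hc]
  · intro n
    have hU : IsOpen {y : ℤ → B | ∀ i : ℤ, -n ≤ i → i ≤ n → y i = y₀ i} := by
      have : {y : ℤ → B | ∀ i : ℤ, -n ≤ i → i ≤ n → y i = y₀ i} =
          ⋂ i ∈ Set.Icc (-(n : ℤ)) n, {y : ℤ → B | y i = y₀ i} := by
        ext y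
        simp [Set.mem_Icc]
      rw [this]
      refine (Set.finite_Icc _ _).isOpen_biInter fun i _ => ?_
      have hc : Continuous fun y : ℤ → B => y i := continuous_apply i
      exact (isOpen_discrete ({y₀ i} : Set B)).preimage hc
    exact hν.full _ hU ⟨y₀, fun i _ _ => rfl, hy₀⟩
  · intro i j hij
    exact e.injective (Subtype.ext hij)
  · intro i
    exact (fibre_iff S hSX hSπ ν _).1 (hmem i).1
  · intro i
    exact (hmem i).2.1
  · intro i μ' hμ'
    have hμ'f := (fibre_iff S hSX hSπ ν μ').2 hμ'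
    have h1 := (hmem i).2.2 μ' hμ'f
    have h2 := (hmem i).1
    have := hμ'f.1
    have := h2.1
    rw [pressure_eq f g hgf hμ'f.2.1 hμ'f.2.2.1, pressure_eq f g hgf h2.2.1 h2.2.2.1] at h1
    exact h1

end Pool.Agent.RelEq
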