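import Pool.Agent.Lib_MP_50c299_an.Basic

/-!
# A simultaneous coupling of several laws
-/

open MeasureTheory Filter Topology

namespace Pool.Agent.RelEq

theorem sum_prod_univ {ι α : Type} [Fintype ι] [Fintype α] [DecidableEq ι] (w : ι → α → ℝ) :
    ∑ u : ι → α, ∏ k, w k (u k) = ∏ k, ∑ a, w k a := by
  rw [Finset.prod_univ_sum, Fintype.piFinset_univ]

/-- Two-dimensional marginals of a product weight. -/
theorem prod_marginal {ι α : Type} [Fintype ι] [Fintype α] [DecidableEq ι] (w : ι → α → ℝ)
    (hw : ∀ k, ∑ a, w k a = 1) (F : α → α → ℝ) {i j : ι} (hij : i ≠ j) :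
    ∑ u : ι → α, (∏ k, w k (u k)) * F (u i) (u j) = ∑ a, ∑ b, w i a * w j b * F a b := by
  have key : ∀ a b : α, ∑ u : ι → α, (∏ k, w k (u k)) * (ind (u i = a) * ind (u j = b))
      = w i a * w j b := by
    intro a b
    have h1 : ∀ u : ι → α, (∏ k, w k (u k)) * (ind (u i = a) * ind (u j = b)) =
        ∏ k, (w k (u k) * ((if k = i then ind (u k = a) else 1) *
          (if k = j then ind (u k = b) else 1))) := by
      intro u
      rw [Finset.prod_mul_distrib, Finset.prod_mul_distrib, Finset.prod_ite_eq' Finset.univ i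
        (fun k => ind (u k = a)), Finset.prod_ite_eq' Finset.univ j (fun k => ind (u k = b)),
        if_pos (Finset.mem_univ i), if_pos (Finset.mem_univ j)]
    rw [Finset.sum_congr rfl fun u _ => h1 u]
    rw [sum_prod_univ (fun k x => w k x * ((if k = i then ind (x = a) else 1) *
          (if k = j then ind (x = b) else 1)))]
    have h2 : ∀ k, ∑ x, w k x * ((if k = i then ind (x = a) else 1) *
          (if k = j then ind (x = b) else 1)) =
          (if k = i then w i a else 1) * (if k = j then w j b else 1) := by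
      intro k
      by_cases hki : k = i
      · have hkj : k ≠ j := fun h => hij (hki.symm.trans h)
        subst hki
        simp only [if_true, if_neg hkj, mul_one]
        rw [← sum_ind_eq' a (fun x => w k x)]
        exact Finset.sum_congr rfl fun x _ => mul_comm _ _
      · by_cases hkj : k = j
        · subst hkj
          simp only [if_true, if_neg hki, one_mul]
          rw [← sum_ind_eq' b (fun x => w k x)]
          exact Finset.sum_congr rfl fun x _ => mul_comm _ _
        · simp only [if_neg hki, if_neg hkj, mul_one]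
          exact hw k
    rw [Finset.prod_congr rfl fun k _ => h2 k, Finset.prod_mul_distrib,
      Finset.prod_ite_eq' Finset.univ i (fun _ => w i a),
      Finset.prod_ite_eq' Finset.univ j (fun _ => w j b),
      if_pos (Finset.mem_univ i), if_pos (Finset.mem_univ j)]
  have h3 : ∀ u : ι → α, (∏ k, w k (u k)) * F (u i) (u j) =
      ∑ a, ∑ b, (∏ k, w k (u k)) * (ind (u i = a) * ind (u j = b)) * F a b := by
    intro u
    have h4 : F (u i) (u j) = ∑ a, ∑ b, ind (u i = a) * ind (u j = b) * F a b := by
      rw [← sum_ind_eq (u i) (fun a => F a (u j))]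
      refine Finset.sum_congr rfl fun a _ => ?_
      rw [← sum_ind_eq (u j) (fun b => F a b), Finset.mul_sum]
      exact Finset.sum_congr rfl fun b _ => by ring
    rw [h4, Finset.mul_sum]
    refine Finset.sum_congr rfl fun a _ => ?_
    rw [Finset.mul_sum]
    exact Finset.sum_congr rfl fun b _ => by ring
  rw [Finset.sum_congr rfl fun u _ => h3 u, Finset.sum_comm]
  refine Finset.sum_congr rfl fun a _ => ?_
  rw [Finset.sum_comm]
  refine Finset.sum_congr rfl fun b _ => ?_
  rw [← Finset.sum_mul, key a b]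

/-- If among any `c + 1` points with the same value `y` of `g`, `y ∈ E`, two are `G`-related,
then the pairwise conditionally independent couplings give `G` a total mass at least `n(E)`. -/
theorem multi {α γ : Type} [Fintype α] [Fintype γ] {c : ℕ} (p : Fin (c + 1) → α → ℝ)
    (hp : ∀ i, IsLaw (p i)) (g : α → γ) (n : γ → ℝ)
    (hn : ∀ i y, ∑ a, ind (g a = y) * p i a = n y) (G : α → α → Prop) (E : γ → Prop)
    (hG : ∀ (u : Fin (c + 1) → α) (y : γ), E y → (∀ i, g (u i) = y) → (∀ i, p i (u i) ≠ 0) →
      ∃ i j, i ≠ j ∧ G (u i) (u j)) :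
    ∑ y, ind (E y) * n y ≤
      ∑ i, ∑ j, ind (i ≠ j) * ∑ z : α × α, ind (G z.1 z.2) * coup (p i) (p j) g n z := by
  classical
  have hn0 : ∀ y, 0 ≤ n y := by
    intro y
    rw [← hn 0 y]
    exact Finset.sum_nonneg fun a _ => mul_nonneg (ind_nonneg _) ((hp 0).nonneg a)
  -- the value of the right side over a single `y`
  set T : γ → ℝ := fun y => ∑ i, ∑ j, ind (i ≠ j) * ∑ a, ∑ b, ind (G a b) *
    (ind (g a = y) * ind (g b = y) * (p i a * p j b / n y)) with hT
  have hT0 : ∀ y, 0 ≤ T y := by
    intro y
    refine Finset.sum_nonneg fun i _ => Finset.sum_nonneg fun j _ =>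
      mul_nonneg (ind_nonneg _) (Finset.sum_nonneg fun a _ => Finset.sum_nonneg fun b _ =>
        mul_nonneg (ind_nonneg _) (mul_nonneg (mul_nonneg (ind_nonneg _) (ind_nonneg _)) ?_))
    exact div_nonneg (mul_nonneg ((hp i).nonneg a) ((hp j).nonneg b)) (hn0 y)
  have hRHS : ∑ i, ∑ j, ind (i ≠ j) * ∑ z : α × α, ind (G z.1 z.2) * coup (p i) (p j) g n z
      = ∑ y, T y := by
    symm
    simp only [hT]
    rw [Finset.sum_comm]
    refine Finset.sum_congr rfl fun i _ => ?_
    rw [Finset.sum_comm]
    refine Finset.sum_congr rfl fun j _ => ?_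
    rw [← Finset.mul_sum]
    congr 1
    rw [Fintype.sum_prod_type, Finset.sum_comm]
    refine Finset.sum_congr rfl fun a _ => ?_
    rw [Finset.sum_comm]
    refine Finset.sum_congr rfl fun b _ => ?_
    rw [← Finset.mul_sum]
    congr 1
    unfold coup
    simp only
    rw [ind_congr (eq_comm (a := g a) (b := g b)),
      ← sum_ind_eq (g a) (fun y => ind (g b = y) * (p i a * p j b / n y))]
    exact Finset.sum_congr rfl fun y _ => by ring
  rw [hRHS]
  refine Finset.sum_le_sum fun y _ => ?_
  by_cases hE : E y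
  swap
  · rw [ind_neg hE, zero_mul]
    exact hT0 y
  rw [ind_pos hE, one_mul]
  rcases (hn0 y).eq_or_lt with h0 | hpos
  · rw [← h0]
    exact hT0 y
  -- the weights
  set w : Fin (c + 1) → α → ℝ := fun i a => ind (g a = y) * p i a / n y with hw
  have hw1 : ∀ i, ∑ a, w i a = 1 := by
    intro i
    rw [hw]
    simp only
    rw [← Finset.sum_div, hn i y, div_self hpos.ne']
  have hw0 : ∀ i a, 0 ≤ w i a := fun i a =>
    div_nonneg (mul_nonneg (ind_nonneg _) ((hp i).nonneg a)) hpos.le
  have htot : (1 : ℝ) = ∑ u : Fin (c + 1) → α, ∏ k, w k (u k) := by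
    rw [sum_prod_univ, Finset.prod_congr rfl fun k _ => hw1 k]
    simp
  have hle : ∀ u : Fin (c + 1) → α, ∏ k, w k (u k) ≤
      ∑ i, ∑ j, ind (i ≠ j) * ((∏ k, w k (u k)) * ind (G (u i) (u j))) := by
    intro u
    have hprod0 : 0 ≤ ∏ k, w k (u k) := Finset.prod_nonneg fun k _ => hw0 k (u k)
    have hterm : ∀ i j, 0 ≤ ind (i ≠ j) * ((∏ k, w k (u k)) * ind (G (u i) (u j))) :=
      fun i j => mul_nonneg (ind_nonneg _) (mul_nonneg hprod0 (ind_nonneg _))
    by_cases hz : ∏ k, w k (u k) = 0
    · rw [hz]
      refine Finset.sum_nonneg fun i _ => Finset.sum_nonneg fun j _ => ?_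
      simp
    · have hk : ∀ k, w k (u k) ≠ 0 := fun k hk => hz (Finset.prod_eq_zero (Finset.mem_univ k) hk)
      have hgk : ∀ k, g (u k) = y := by
        intro k
        by_contra hne
        apply hk k
        rw [hw]
        simp only
        rw [ind_neg hne, zero_mul, zero_div]
      have hpk : ∀ k, p k (u k) ≠ 0 := by
        intro k hne
        apply hk k
        rw [hw]
        simp only
        rw [hne, mul_zero, zero_div]
      obtain ⟨i, j, hij, hGij⟩ := hG u y hE hgk hpk
      calc ∏ k, w k (u k) = ind (i ≠ j) * ((∏ k, w k (u k)) * ind (G (u i) (u j))) := by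
            rw [ind_pos hij, ind_pos hGij]; ring
        _ ≤ ∑ j, ind (i ≠ j) * ((∏ k, w k (u k)) * ind (G (u i) (u j))) :=
            Finset.single_le_sum (f := fun j => ind (i ≠ j) *
              ((∏ k, w k (u k)) * ind (G (u i) (u j)))) (fun j _ => hterm i j) (Finset.mem_univ j)
        _ ≤ _ := Finset.single_le_sum (f := fun i => ∑ j, ind (i ≠ j) *
              ((∏ k, w k (u k)) * ind (G (u i) (u j))))
              (fun i _ => Finset.sum_nonneg fun j _ => hterm i j) (Finset.mem_univ i)
  have hone : (1 : ℝ) ≤ ∑ i, ∑ j, ind (i ≠ j) * ∑ a, ∑ b, w i a * w j b * ind (G a b) := by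
    calc (1 : ℝ) = ∑ u : Fin (c + 1) → α, ∏ k, w k (u k) := htot
      _ ≤ ∑ u : Fin (c + 1) → α,
          ∑ i, ∑ j, ind (i ≠ j) * ((∏ k, w k (u k)) * ind (G (u i) (u j))) :=
          Finset.sum_le_sum fun u _ => hle u
      _ = ∑ i, ∑ j, ind (i ≠ j) * ∑ u : Fin (c + 1) → α,
            ((∏ k, w k (u k)) * ind (G (u i) (u j))) := by
          rw [Finset.sum_comm]
          refine Finset.sum_congr rfl fun i _ => ?_
          rw [Finset.sum_comm]
          exact Finset.sum_congr rfl fun j _ => by rw [Finset.mul_sum]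
      _ = _ := by
          refine Finset.sum_congr rfl fun i _ => Finset.sum_congr rfl fun j _ => ?_
          by_cases hij : i ≠ j
          · rw [prod_marginal w hw1 (fun a b => ind (G a b)) hij]
          · rw [ind_neg hij, zero_mul, zero_mul]
  have hTy : T y = n y * ∑ i, ∑ j, ind (i ≠ j) * ∑ a, ∑ b, w i a * w j b * ind (G a b) := by
    rw [hT]
    simp only
    rw [Finset.mul_sum]
    refine Finset.sum_congr rfl fun i _ => ?_
    rw [Finset.mul_sum]
    refine Finset.sum_congr rfl fun j _ => ?_
    rw [mul_left_comm]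
    congr 1
    rw [Finset.mul_sum]
    refine Finset.sum_congr rfl fun a _ => ?_
    rw [Finset.mul_sum]
    refine Finset.sum_congr rfl fun b _ => ?_
    rw [hw]
    simp only
    field_simp
  rw [hTy]
  calc n y = n y * 1 := (mul_one _).symm
    _ ≤ _ := mul_le_mul_of_nonneg_left hone hpos.le

end Pool.Agent.RelEq
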