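import Pool.Agent.Lib_MP_50c299_an.Basic

/-!
# Swapping the tails of two points
-/

open MeasureTheory Filter Topology

namespace Pool.Agent.RelEq

variable {A B : Type} [TopologicalSpace A]

theorem sw_eq {S : Sys A B} {L : ℕ} {t : ℤ} {u v : ℤ → A} (h : Br S L t u v) :
    sw S L t u v = fun i : ℤ => if i < t then u i else if i < t + L then h.choose i else v i := by
  unfold sw
  rw [dif_pos h]

theorem sw_left {S : Sys A B} {L : ℕ} {t : ℤ} {u v : ℤ → A} (h : Br S L t u v) (i : ℤ)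
    (hi : i < t + S.r) : sw S L t u v i = u i := by
  obtain ⟨-, h1, h2, -⟩ := h.choose_spec
  rw [sw_eq h]
  simp only
  split_ifs with ha hb
  · rfl
  · exact h1 i (by omega) hi
  · rw [← h1 i (by omega) hi, h2 i (by omega) (by omega)]

theorem sw_right {S : Sys A B} {L : ℕ} {t : ℤ} {u v : ℤ → A} (h : Br S L t u v) (i : ℤ)
    (hi : t + L ≤ i) : sw S L t u v i = v i := by
  rw [sw_eq h]
  simp only
  rw [if_neg (by omega), if_neg (by omega)]

/-- In the window of the bridge the swapped point is the bridge. -/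
theorem sw_mid {S : Sys A B} {L : ℕ} {t : ℤ} {u v : ℤ → A} (h : Br S L t u v) (i : ℤ)
    (hi : t ≤ i) (hi' : i < t + L + S.r) : sw S L t u v i = h.choose i := by
  obtain ⟨-, h1, h2, -⟩ := h.choose_spec
  rw [sw_eq h]
  simp only
  rw [if_neg (by omega)]
  split_ifs with hb
  · rfl
  · exact (h2 i (by omega) hi').symm

theorem sw_mem {S : Sys A B} {L : ℕ} {t : ℤ} {u v : ℤ → A} (hu : u ∈ S.X) (hv : v ∈ S.X)
    (h : Br S L t u v) : sw S L t u v ∈ S.X := by
  obtain ⟨hp, h1, h2, -⟩ := h.choose_spec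
  have g1 := S.glue u hu h.choose hp t (fun i hi hi' => (h1 i hi hi').symm)
  have g2 := S.glue _ g1 v hv (t + L) (fun i hi hi' => by
    rw [if_neg (by omega)]
    exact h2 i hi hi')
  have : sw S L t u v =
      fun i : ℤ => if i < t + L then (fun i : ℤ => if i < t then u i else h.choose i) i
        else v i := by
    rw [sw_eq h]
    funext i
    simp only
    split_ifs with ha hb hc
    · rfl
    · omega
    · rfl
    · rfl
  rw [this]
  exact g2

theorem sw_img_left {S : Sys A B} {L : ℕ} {t : ℤ} {u v : ℤ → A} (h : Br S L t u v) (i : ℤ)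
    (hi : i < t + L + S.r - S.s) : S.π (sw S L t u v) i = S.π u i := by
  have hr := S.hr
  by_cases ha : i < t + S.r - S.s
  · exact S.loc _ _ i fun k hk hk' => sw_left h k (by omega)
  · obtain ⟨-, -, -, h3⟩ := h.choose_spec
    rw [← h3 i (by omega) hi]
    exact S.loc _ _ i fun k hk hk' => sw_mid h k (by omega) (by omega)

theorem sw_img_right {S : Sys A B} {L : ℕ} {t : ℤ} {u v : ℤ → A} (h : Br S L t u v) (i : ℤ)
    (hi : t + L + S.s ≤ i) : S.π (sw S L t u v) i = S.π v i :=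
  S.loc _ _ i fun k hk hk' => sw_right h k (by omega)

theorem good_symm {S : Sys A B} {L : ℕ} {t : ℤ} {u v : ℤ → A} :
    Good S L t u v ↔ Good S L t v u :=
  ⟨fun h => ⟨h.2, h.1⟩, fun h => ⟨h.2, h.1⟩⟩

theorem br_local {S : Sys A B} {L : ℕ} {t : ℤ} {u v u' v' : ℤ → A}
    (hu : ∀ i, t ≤ i → i < t + L + S.r → u i = u' i)
    (hv : ∀ i, t ≤ i → i < t + L + S.r → v i = v' i) (h : Br S L t u v) : Br S L t u' v' := by
  obtain ⟨p, hp, h1, h2, h3⟩ := h
  refine ⟨p, hp, fun i hi hi' => ?_, fun i hi hi' => ?_, fun i hi hi' => ?_⟩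
  · rw [h1 i hi hi', hu i hi (by omega)]
  · rw [h2 i hi hi', hv i (by omega) (by omega)]
  · rw [h3 i hi hi']
    exact S.loc _ _ i fun k hk hk' => hu k (by omega) (by omega)

theorem good_local {S : Sys A B} {L : ℕ} {t : ℤ} {u v u' v' : ℤ → A}
    (hu : ∀ i, t ≤ i → i < t + L + S.r → u i = u' i)
    (hv : ∀ i, t ≤ i → i < t + L + S.r → v i = v' i) :
    Good S L t u v ↔ Good S L t u' v' := by
  have hu' : ∀ i, t ≤ i → i < t + L + S.r → u' i = u i := fun i h h' => (hu i h h').symm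
  have hv' : ∀ i, t ≤ i → i < t + L + S.r → v' i = v i := fun i h h' => (hv i h h').symm
  exact ⟨fun h => ⟨br_local hu hv h.1, br_local hv hu h.2⟩,
    fun h => ⟨br_local hu' hv' h.1, br_local hv' hu' h.2⟩⟩

theorem br_sh {S : Sys A B} {L : ℕ} {t k : ℤ} {u v : ℤ → A} (h : Br S L (t + k) u v) :
    Br S L t (sh k u) (sh k v) := by
  obtain ⟨p, hp, h1, h2, h3⟩ := h
  refine ⟨sh k p, S.inv k p hp, fun i hi hi' => ?_, fun i hi hi' => ?_, fun i hi hi' => ?_⟩
  · exact h1 (i + k) (by omega) (by omega)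
  · exact h2 (i + k) (by omega) (by omega)
  · rw [S.comm, S.comm]
    exact h3 (i + k) (by omega) (by omega)

theorem good_sh {S : Sys A B} {L : ℕ} {t k : ℤ} {u v : ℤ → A} :
    Good S L (t + k) u v ↔ Good S L t (sh k u) (sh k v) := by
  constructor
  · exact fun h => ⟨br_sh h.1, br_sh h.2⟩
  · intro h
    have h' : Good S L ((t + k) + (-k)) (sh k u) (sh k v) := by
      rw [add_neg_cancel_right]
      exact h
    have h1 := br_sh h'.1
    have h2 := br_sh h'.2
    rw [sh_sh, sh_sh, neg_add_cancel, sh_zero, sh_zero] at h1 h2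
    exact ⟨h1, h2⟩

end Pool.Agent.RelEq
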