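import Pool.Agent.Lib_MP_50c299_an.TransBlock
import Pool.Agent.Lib_MP_50c299_an.Multi
import Pool.Agent.Lib_MP_50c299_an.Marg
import Pool.Agent.Lib_MP_50c299_an.Coup
import Pool.Agent.Lib_MP_50c299_an.Swap

/-!
# A pair of measures with a positive frequency of two-way bridges
-/

open MeasureTheory Filter Topology

namespace Pool.Agent.RelEq

variable {A B : Type} [Fintype A] [Nonempty A] [TopologicalSpace A] [DiscreteTopology A]
  [MeasurableSpace A] [DiscreteMeasurableSpace A]
  [Fintype B] [TopologicalSpace B] [DiscreteTopology B] [MeasurableSpace B]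
  [DiscreteMeasurableSpace B]

/-- The probability of an event that depends on the word in the window `[0, n)`. -/
theorem freq_sum_ind {C : Type} [Fintype C] [MeasurableSpace C] [DiscreteMeasurableSpace C]
    (ν : Measure (ℤ → C)) [IsProbabilityMeasure ν] (n : ℕ) (E : (Fin n → C) → Prop) :
    ∑ w, ind (E w) * wl ν n w = ν.real {y | E (wd n y)} := by
  classical
  have h1 : {y : ℤ → C | E (wd n y)} = ⋃ w ∈ Finset.univ.filter E, {y : ℤ → C | wd n y = w} := by
    ext y
    simp
  rw [h1, measureReal_biUnion_finset]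
  · rw [Finset.sum_filter]
    refine Finset.sum_congr rfl fun w _ => ?_
    by_cases h : E w
    · rw [ind_pos h, if_pos h, one_mul]
      rfl
    · rw [ind_neg h, if_neg h, zero_mul]
  · intro w _ w' _ hww'
    refine Set.disjoint_left.2 fun y hy hy' => hww' ?_
    rw [← show wd n y = w from hy, ← show wd n y = w' from hy']
  · intro w _
    exact measurable_wd n (measurableSet_singleton w)

/-- The law of the word of length `n`. -/
theorem freq_isLaw {C : Type} [Fintype C] [MeasurableSpace C] [DiscreteMeasurableSpace C]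
    (ν : Measure (ℤ → C)) [IsProbabilityMeasure ν] (n : ℕ) : IsLaw (wl ν n) := by
  refine ⟨fun w => measureReal_nonneg, ?_⟩
  have h := freq_sum_ind ν n (fun _ => True)
  simp only [ind_pos trivial, one_mul, Set.ofPred_true] at h
  rw [h]
  simp

/-- The contribution of a single time `t`. -/
theorem freq_time (S : Sys A B) (ν : Measure (ℤ → B)) [IsProbabilityMeasure ν] (hν : Inv ν) (c : ℕ)
    (μ : Fin (c + 1) → Measure (ℤ → A)) (hμ : ∀ i, InFib S ν (μ i)) (y₀ : ℤ → B) (L k : ℕ)
    (hLk : ∀ u : Fin (c + 1) → (ℤ → A), (∀ i, u i ∈ S.X) →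
      (∀ i, ∀ j : ℤ, -k ≤ j → j ≤ L + k → S.π (u i) j = y₀ j) →
      ∃ i j, i ≠ j ∧ Good S L 0 (u i) (u j))
    (M t : ℕ) (ht1 : L + k + S.s ≤ t) (ht2 : t + (L + k + S.s) < M) :
    ν.real {y | ∀ i : ℤ, -((L + k : ℕ) : ℤ) ≤ i → i ≤ ((L + k : ℕ) : ℤ) → y i = y₀ i} ≤
      ∑ i, ∑ j, ind (i ≠ j) * ∑ z : PW A M,
        ind (Good S L t (ext S M z.1) (ext S M z.2)) * lamb S M ν (μ i) (μ j) z := by
  classical
  have hprob : ∀ i, IsProbabilityMeasure (μ i) := fun i => (hμ i).prob
  set E : (Fin (M - 2 * S.s) → B) → Prop := fun w => ∀ j : Fin (M - 2 * S.s),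
    -((L + k : ℕ) : ℤ) ≤ (j : ℤ) + S.s - t → (j : ℤ) + S.s - t ≤ ((L + k : ℕ) : ℤ) →
      w j = y₀ ((j : ℤ) + S.s - t) with hE
  have h := multi (fun i => wl (μ i) M) (fun i => freq_isLaw (μ i) M)
    (fun u => imw S M (ext S M u)) (wl ν (M - 2 * S.s))
    (fun i y => wl_img hν (hμ i) M y)
    (fun u v => Good S L t (ext S M u) (ext S M v)) E ?_
  · refine le_trans (le_of_eq ?_) h
    rw [freq_sum_ind ν (M - 2 * S.s) E]
    have hset : {y : ℤ → B | E (wd (M - 2 * S.s) y)} = sh ((t : ℤ) - S.s) ⁻¹'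
        {y | ∀ i : ℤ, -((L + k : ℕ) : ℤ) ≤ i → i ≤ ((L + k : ℕ) : ℤ) → y i = y₀ i} := by
      ext y
      simp only [hE, Set.mem_ofPred_eq, Set.mem_preimage, sh_apply, wd_apply]
      constructor
      · intro hy i hi1 hi2
        have h1 := hy ⟨(i + ((t : ℤ) - S.s)).toNat, by omega⟩
        have h2 : (((i + ((t : ℤ) - S.s)).toNat : ℕ) : ℤ) = i + ((t : ℤ) - S.s) :=
          Int.toNat_of_nonneg (by omega)
        simp only [h2] at h1
        have h3 : i + ((t : ℤ) - S.s) + S.s - t = i := by ring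
        rw [h3] at h1
        exact h1 hi1 hi2
      · intro hy j hj1 hj2
        have h1 := hy ((j : ℤ) + S.s - t) hj1 hj2
        have h3 : (j : ℤ) + S.s - t + ((t : ℤ) - S.s) = j := by ring
        rwa [h3] at h1
    rw [hset, measureReal_def, measureReal_def, (hν _).measure_preimage]
    refine MeasurableSet.nullMeasurableSet ?_
    have : {y : ℤ → B | ∀ i : ℤ, -((L + k : ℕ) : ℤ) ≤ i → i ≤ ((L + k : ℕ) : ℤ) → y i = y₀ i} =
        ⋂ i : ℤ, {y | -((L + k : ℕ) : ℤ) ≤ i → i ≤ ((L + k : ℕ) : ℤ) → y i = y₀ i} := by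
      ext y
      simp
    rw [this]
    refine MeasurableSet.iInter fun i => ?_
    by_cases h1 : -((L + k : ℕ) : ℤ) ≤ i
    · by_cases h2 : i ≤ ((L + k : ℕ) : ℤ)
      · have : {y : ℤ → B | -((L + k : ℕ) : ℤ) ≤ i → i ≤ ((L + k : ℕ) : ℤ) → y i = y₀ i} =
          (fun y => y i) ⁻¹' {y₀ i} := by
          ext y
          simp only [Set.mem_ofPred_eq, Set.mem_preimage, Set.mem_singleton_iff]
          exact ⟨fun h => h h1 h2, fun h _ _ => h⟩
        rw [this]
        exact measurable_pi_apply i (measurableSet_singleton _)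
      · have : {y : ℤ → B | -((L + k : ℕ) : ℤ) ≤ i → i ≤ ((L + k : ℕ) : ℤ) → y i = y₀ i} =
          Set.univ := by
          ext y
          simp only [Set.mem_ofPred_eq, Set.mem_univ, iff_true]
          exact fun _ h => absurd h h2
        rw [this]
        exact MeasurableSet.univ
    · have : {y : ℤ → B | -((L + k : ℕ) : ℤ) ≤ i → i ≤ ((L + k : ℕ) : ℤ) → y i = y₀ i} =
          Set.univ := by
        ext y
        simp only [Set.mem_ofPred_eq, Set.mem_univ, iff_true]
        exact fun h => absurd h h1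
      rw [this]
      exact MeasurableSet.univ
  · intro u y hy hg hne
    have hX : ∀ i, ext S M (u i) ∈ S.X := fun i => ext_mem (wl_adm (hμ i).supp (hne i))
    obtain ⟨i, j, hij, hG⟩ := hLk (fun i => sh t (ext S M (u i))) (fun i => S.inv _ _ (hX i)) (by
      intro i j hj1 hj2
      rw [S.comm, sh_apply]
      have h1 := congrFun (hg i) ⟨(j + t - S.s).toNat, by omega⟩
      have h2 : (((j + t - S.s).toNat : ℕ) : ℤ) = j + t - S.s :=
        Int.toNat_of_nonneg (by omega)
      have h3 := hy ⟨(j + t - S.s).toNat, by omega⟩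
      simp only [h2] at h3
      have h4 : j + t - S.s + S.s - t = j := by ring
      rw [h4] at h3
      simp only [imw_apply, h2] at h1
      have h5 : j + t - S.s + S.s = j + t := by ring
      rw [h5] at h1
      rw [h1]
      exact h3 (by push_cast; omega) (by push_cast; omega))
    refine ⟨i, j, hij, ?_⟩
    have h := (good_sh (S := S) (L := L) (t := 0) (k := t) (u := ext S M (u i))
      (v := ext S M (u j))).2 hG
    rwa [zero_add] at h

theorem freq (S : Sys A B) (ν : Measure (ℤ → B)) [IsProbabilityMeasure ν] (hν : Inv ν) (c : ℕ)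
    (μ : Fin (c + 1) → Measure (ℤ → A)) (hμ : ∀ i, InFib S ν (μ i)) (y₀ : ℤ → B)
    (hc : (transitionClasses S.X S.π y₀).encard ≤ c)
    (hfull : ∀ n : ℕ, 0 < ν {y | ∀ i : ℤ, -n ≤ i → i ≤ n → y i = y₀ i}) :
    ∃ (L : ℕ) (i j : Fin (c + 1)), i ≠ j ∧ ∃ δ > (0 : ℝ), ∀ M₀ : ℕ, ∃ M ≥ M₀,
      δ * M ≤ ∑ t ∈ Finset.range M, ∑ z : PW A M,
        ind (Good S L t (ext S M z.1) (ext S M z.2)) * lamb S M ν (μ i) (μ j) z := by
  classical
  obtain ⟨L, k, hLk⟩ := exists_block S c y₀ hc
  set β : ℝ := ν.real {y | ∀ i : ℤ, -((L + k : ℕ) : ℤ) ≤ i → i ≤ ((L + k : ℕ) : ℤ) → y i = y₀ i}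
    with hβ
  have hβ0 : 0 < β := by
    rw [hβ, measureReal_def]
    exact ENNReal.toReal_pos (hfull _).ne' (measure_ne_top _ _)
  refine ⟨L, ?_⟩
  by_contra hcon
  push Not at hcon
  have hcc : (0 : ℝ) < ((c : ℝ) + 1) ^ 2 := by positivity
  set δ : ℝ := β / (2 * ((c : ℝ) + 1) ^ 2) with hδ
  have hδ0 : 0 < δ := by positivity
  choose M₀ hM₀ using fun (i j : Fin (c + 1)) (hij : i ≠ j) => hcon i j hij δ hδ0
  -- a large M
  set K : ℕ := L + k + S.s with hK
  set N : ℕ := (∑ i, ∑ j, if h : i ≠ j then M₀ i j h else 0) + 4 * K + 1 with hN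
  have hN1 : ∀ i j (hij : i ≠ j), M₀ i j hij ≤ N := by
    intro i j hij
    have h1 : (if h : i ≠ j then M₀ i j h else 0) ≤
        ∑ j, (if h : i ≠ j then M₀ i j h else 0) :=
      Finset.single_le_sum (f := fun j => if h : i ≠ j then M₀ i j h else 0)
        (fun _ _ => Nat.zero_le _) (Finset.mem_univ j)
    have h2 : (∑ j, (if h : i ≠ j then M₀ i j h else 0)) ≤
        ∑ i, ∑ j, (if h : i ≠ j then M₀ i j h else 0) :=
      Finset.single_le_sum (f := fun i => ∑ j, (if h : i ≠ j then M₀ i j h else 0))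
        (fun _ _ => Nat.zero_le _) (Finset.mem_univ i)
    rw [dif_pos hij] at h1
    omega
  have hN2 : 4 * K < N := by omega
  -- the sum over the times
  have hF0 : ∀ (t : ℕ) (i j : Fin (c + 1)), 0 ≤ ∑ z : PW A N,
      ind (Good S L t (ext S N z.1) (ext S N z.2)) * lamb S N ν (μ i) (μ j) z := by
    intro t i j
    refine Finset.sum_nonneg fun z _ => mul_nonneg (ind_nonneg _) ?_
    unfold lamb coup
    exact mul_nonneg (ind_nonneg _) (div_nonneg (mul_nonneg measureReal_nonneg measureReal_nonneg)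
      measureReal_nonneg)
  have hsum : β * (N - 2 * K : ℕ) ≤ ∑ i, ∑ j, ind (i ≠ j) * ∑ t ∈ Finset.range N, ∑ z : PW A N,
      ind (Good S L t (ext S N z.1) (ext S N z.2)) * lamb S N ν (μ i) (μ j) z := by
    have h1 : ∑ i, ∑ j, ind (i ≠ j) * ∑ t ∈ Finset.range N, ∑ z : PW A N,
        ind (Good S L t (ext S N z.1) (ext S N z.2)) * lamb S N ν (μ i) (μ j) z =
        ∑ t ∈ Finset.range N, ∑ i, ∑ j, ind (i ≠ j) * ∑ z : PW A N,
        ind (Good S L t (ext S N z.1) (ext S N z.2)) * lamb S N ν (μ i) (μ j) z := by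
      rw [Finset.sum_comm (s := Finset.range N)]
      refine Finset.sum_congr rfl fun i _ => ?_
      rw [Finset.sum_comm (s := Finset.range N)]
      refine Finset.sum_congr rfl fun j _ => ?_
      rw [Finset.mul_sum]
    rw [h1]
    have h2 : ∑ t ∈ Finset.Ico K (N - K), ∑ i, ∑ j, ind (i ≠ j) * ∑ z : PW A N,
        ind (Good S L t (ext S N z.1) (ext S N z.2)) * lamb S N ν (μ i) (μ j) z ≤
        ∑ t ∈ Finset.range N, ∑ i, ∑ j, ind (i ≠ j) * ∑ z : PW A N,
        ind (Good S L t (ext S N z.1) (ext S N z.2)) * lamb S N ν (μ i) (μ j) z := by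
      refine Finset.sum_le_sum_of_subset_of_nonneg ?_ ?_
      · intro t ht
        rw [Finset.mem_Ico] at ht
        rw [Finset.mem_range]
        omega
      · intro t _ _
        exact Finset.sum_nonneg fun i _ => Finset.sum_nonneg fun j _ =>
          mul_nonneg (ind_nonneg _) (hF0 t i j)
    refine le_trans ?_ h2
    have h3 : ∑ t ∈ Finset.Ico K (N - K), β ≤ ∑ t ∈ Finset.Ico K (N - K),
        ∑ i, ∑ j, ind (i ≠ j) * ∑ z : PW A N,
        ind (Good S L t (ext S N z.1) (ext S N z.2)) * lamb S N ν (μ i) (μ j) z := by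
      refine Finset.sum_le_sum fun t ht => ?_
      rw [Finset.mem_Ico] at ht
      exact freq_time S ν hν c μ hμ y₀ L k hLk N t (by omega) (by omega)
    refine le_trans (le_of_eq ?_) h3
    rw [Finset.sum_const, Nat.card_Ico, nsmul_eq_mul, mul_comm]
    congr 2
    omega
  have hle : ∑ i, ∑ j, ind (i ≠ j) * ∑ t ∈ Finset.range N, ∑ z : PW A N,
      ind (Good S L t (ext S N z.1) (ext S N z.2)) * lamb S N ν (μ i) (μ j) z ≤
      ∑ _i : Fin (c + 1), ∑ _j : Fin (c + 1), δ * N := by
    refine Finset.sum_le_sum fun i _ => Finset.sum_le_sum fun j _ => ?_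
    by_cases hij : i ≠ j
    · rw [ind_pos hij, one_mul]
      exact (hM₀ i j hij N (hN1 i j hij)).le
    · rw [ind_neg hij, zero_mul]
      positivity
  have hcard : ∑ _i : Fin (c + 1), ∑ _j : Fin (c + 1), δ * (N : ℝ) = β * N / 2 := by
    simp only [Finset.sum_const, Finset.card_univ, Fintype.card_fin, nsmul_eq_mul]
    rw [hδ]
    push_cast
    field_simp
  have hfin := (hsum.trans hle).trans_eq hcard
  have hcast : ((N - 2 * K : ℕ) : ℝ) = (N : ℝ) - 2 * K := by
    rw [Nat.cast_sub (by omega)]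
    push_cast
    ring
  rw [hcast] at hfin
  have hN3 : (4 : ℝ) * K < N := by exact_mod_cast hN2
  nlinarith

end Pool.Agent.RelEq
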