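import Pool.Agent.Lib_MP_50c299_an.Basic

/-!
# Gibbs inequality and the entropy of a random step
-/

open MeasureTheory Filter Topology

namespace Pool.Agent.RelEq

/-- Gibbs inequality, termwise. -/
theorem gibbs_term {x y : ℝ} (hx : 0 ≤ x) (hy : 0 ≤ y) (h : x ≠ 0 → y ≠ 0) :
    Real.negMulLog x ≤ x * (-Real.log y) + (y - x) := by
  rcases hx.eq_or_lt with h0 | h0
  · rw [← h0, Real.negMulLog_zero]
    linarith
  · have hy0 : 0 < y := lt_of_le_of_ne hy (fun e => h h0.ne' e.symm)
    have h1 : Real.log (y / x) ≤ y / x - 1 := Real.log_le_sub_one_of_pos (by positivity)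
    rw [Real.log_div hy0.ne' h0.ne'] at h1
    have h2 := mul_le_mul_of_nonneg_left h1 h0.le
    have h3 : x * (y / x - 1) = y - x := by
      field_simp
    rw [h3] at h2
    unfold Real.negMulLog
    linarith

/-- Gibbs inequality. -/
theorem gibbs {α : Type} [Fintype α] {p q : α → ℝ} (hp : IsLaw p) (hq0 : ∀ a, 0 ≤ q a)
    (hq1 : ∑ a, q a ≤ 1) (hpq : ∀ a, p a ≠ 0 → q a ≠ 0) :
    Hent p ≤ ∑ a, p a * (-Real.log (q a)) := by
  have h : Hent p ≤ ∑ a, (p a * (-Real.log (q a)) + (q a - p a)) :=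
    Finset.sum_le_sum fun a _ => gibbs_term (hp.nonneg a) (hq0 a) (hpq a)
  rw [Finset.sum_add_distrib, Finset.sum_sub_distrib, hp.sum_one] at h
  linarith

theorem map_nonneg {α β : Type} [Fintype α] {p : α → ℝ} (hp : IsLaw p) (f : α → β) (b : β) :
    0 ≤ ∑ a, ind (f a = b) * p a :=
  Finset.sum_nonneg fun a _ => mul_nonneg (ind_nonneg _) (hp.nonneg a)

theorem map_sum {α β : Type} [Fintype α] [Fintype β] (p : α → ℝ) (f : α → β) (ψ : β → ℝ) :
    ∑ b, (∑ a, ind (f a = b) * p a) * ψ b = ∑ a, p a * ψ (f a) := by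
  calc ∑ b, (∑ a, ind (f a = b) * p a) * ψ b
      = ∑ b, ∑ a, ind (f a = b) * (p a * ψ b) := by
        refine Finset.sum_congr rfl fun b _ => ?_
        rw [Finset.sum_mul]
        exact Finset.sum_congr rfl fun a _ => by ring
    _ = ∑ a, ∑ b, ind (f a = b) * (p a * ψ b) := Finset.sum_comm
    _ = _ := Finset.sum_congr rfl fun a _ => sum_ind_eq (f a) fun b => p a * ψ b

theorem map_isLaw {α β : Type} [Fintype α] [Fintype β] {p : α → ℝ} (hp : IsLaw p)
    (f : α → β) : IsLaw (fun b => ∑ a, ind (f a = b) * p a) := by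
  refine ⟨map_nonneg hp f, ?_⟩
  have h := map_sum p f (fun _ => (1 : ℝ))
  simp only [mul_one] at h
  rw [h, hp.sum_one]

/-- The entropy of a function of a random variable is at most that of the variable. -/
theorem Hent_map_le {α β : Type} [Fintype α] [Fintype β] {p : α → ℝ} (hp : IsLaw p)
    (f : α → β) : Hent (fun b => ∑ a, ind (f a = b) * p a) ≤ Hent p := by
  have h1 : Hent (fun b => ∑ a, ind (f a = b) * p a) =
      ∑ a, p a * (-Real.log (∑ a', ind (f a' = f a) * p a')) := by
    rw [← map_sum p f (fun b => -Real.log (∑ a', ind (f a' = b) * p a'))]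
    unfold Hent
    refine Finset.sum_congr rfl fun b _ => ?_
    unfold Real.negMulLog
    ring
  rw [h1]
  unfold Hent
  refine Finset.sum_le_sum fun a _ => ?_
  rcases (hp.nonneg a).eq_or_lt with h0 | h0
  · rw [← h0, Real.negMulLog_zero, zero_mul]
  · have h2 : p a ≤ ∑ a', ind (f a' = f a) * p a' := by
      have h3 : ind (f a = f a) * p a ≤ ∑ a', ind (f a' = f a) * p a' :=
        Finset.single_le_sum (f := fun a' => ind (f a' = f a) * p a')
          (fun a' _ => mul_nonneg (ind_nonneg _) (hp.nonneg a')) (Finset.mem_univ a)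
      rwa [ind_pos rfl, one_mul] at h3
    have h4 : Real.log (p a) ≤ Real.log (∑ a', ind (f a' = f a) * p a') :=
      Real.log_le_log h0 h2
    unfold Real.negMulLog
    have := mul_le_mul_of_nonneg_left h4 h0.le
    linarith

theorem step_sum {α R : Type} [Fintype α] (p : α → ℝ) (C : α → Finset R) (a : α → R → α)
    (ψ : α → ℝ) :
    ∑ z', stepLaw p C a z' * ψ z' = ∑ z, p z * ((∑ ρ ∈ C z, ψ (a z ρ)) / (C z).card) := by
  unfold stepLaw
  calc ∑ z', (∑ z, ∑ ρ ∈ C z, ind (a z ρ = z') * (p z / (C z).card)) * ψ z'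
      = ∑ z', ∑ z, ∑ ρ ∈ C z, ind (a z ρ = z') * (p z / (C z).card * ψ z') := by
        refine Finset.sum_congr rfl fun z' _ => ?_
        rw [Finset.sum_mul]
        refine Finset.sum_congr rfl fun z _ => ?_
        rw [Finset.sum_mul]
        exact Finset.sum_congr rfl fun ρ _ => by ring
    _ = ∑ z, ∑ z', ∑ ρ ∈ C z, ind (a z ρ = z') * (p z / (C z).card * ψ z') := Finset.sum_comm
    _ = ∑ z, ∑ ρ ∈ C z, ∑ z', ind (a z ρ = z') * (p z / (C z).card * ψ z') :=
        Finset.sum_congr rfl fun z _ => Finset.sum_comm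
    _ = ∑ z, ∑ ρ ∈ C z, p z / (C z).card * ψ (a z ρ) := by
        refine Finset.sum_congr rfl fun z _ => Finset.sum_congr rfl fun ρ _ => ?_
        exact sum_ind_eq (a z ρ) fun z' => p z / (C z).card * ψ z'
    _ = _ := by
        refine Finset.sum_congr rfl fun z _ => ?_
        rw [← Finset.mul_sum]
        ring

theorem step_nonneg {α R : Type} [Fintype α] {p : α → ℝ} (hp : IsLaw p) (C : α → Finset R)
    (a : α → R → α) (z' : α) : 0 ≤ stepLaw p C a z' :=
  Finset.sum_nonneg fun z _ => Finset.sum_nonneg fun _ _ =>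
    mul_nonneg (ind_nonneg _) (div_nonneg (hp.nonneg z) (Nat.cast_nonneg _))

theorem step_isLaw {α R : Type} [Fintype α] {p : α → ℝ} (hp : IsLaw p) (C : α → Finset R)
    (hC : ∀ z, (C z).Nonempty) (a : α → R → α) : IsLaw (stepLaw p C a) := by
  refine ⟨step_nonneg hp C a, ?_⟩
  have h := step_sum p C a (fun _ => (1 : ℝ))
  simp only [mul_one, Finset.sum_const, nsmul_eq_mul] at h
  rw [h, ← hp.sum_one]
  refine Finset.sum_congr rfl fun z _ => ?_
  have : ((C z).card : ℝ) ≠ 0 := by
    have := (hC z).card_pos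
    positivity
  rw [div_self this, mul_one]

theorem step_supp {α R : Type} [Fintype α] {p : α → ℝ} (hp : IsLaw p) (C : α → Finset R)
    (a : α → R → α) {z' : α} (h : stepLaw p C a z' ≠ 0) :
    ∃ z, p z ≠ 0 ∧ ∃ ρ ∈ C z, a z ρ = z' := by
  by_contra hcon
  push Not at hcon
  apply h
  unfold stepLaw
  refine Finset.sum_eq_zero fun z _ => Finset.sum_eq_zero fun ρ hρ => ?_
  by_cases hz : p z = 0
  · rw [hz, zero_div, mul_zero]
  · rw [ind_neg (hcon z hz ρ hρ), zero_mul]

/-- Entropy gain of a random step: `q z ρ` are weights with which `(z, ρ)` can be recovered from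
`a z ρ`. -/
theorem step_entropy {α R : Type} [Fintype α] {p : α → ℝ} (hp : IsLaw p) (C : α → Finset R)
    (hC : ∀ z, (C z).Nonempty) (a : α → R → α) (q : α → R → ℝ)
    (hq0 : ∀ z, ∀ ρ ∈ C z, 0 < q z ρ)
    (hq1 : ∀ z', ∑ z, ∑ ρ ∈ C z, ind (a z ρ = z') * q z ρ ≤ 1) :
    Hent p + ∑ z, p z * (Real.log (C z).card + (∑ ρ ∈ C z, Real.log (q z ρ)) / (C z).card)
      ≤ Hent (stepLaw p C a) := by
  have hcard : ∀ z, (0 : ℝ) < (C z).card := fun z => by
    have := (hC z).card_pos
    positivity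
  have hlaw := step_isLaw hp C hC a
  -- the entropy of the new law as a double sum
  have h1 : Hent (stepLaw p C a) =
      ∑ z, ∑ ρ ∈ C z, p z / (C z).card * (-Real.log (stepLaw p C a (a z ρ))) := by
    have h := step_sum p C a (fun z' => -Real.log (stepLaw p C a z'))
    have h' : Hent (stepLaw p C a) = ∑ z', stepLaw p C a z' * -Real.log (stepLaw p C a z') := by
      unfold Hent
      refine Finset.sum_congr rfl fun z' _ => ?_
      unfold Real.negMulLog
      ring
    rw [h', h]
    refine Finset.sum_congr rfl fun z _ => ?_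
    rw [← Finset.mul_sum]
    ring
  -- termwise Gibbs inequality
  have h2 : ∑ z, ∑ ρ ∈ C z, Real.negMulLog (p z / (C z).card) ≤
      ∑ z, ∑ ρ ∈ C z, (p z / (C z).card * (-Real.log (stepLaw p C a (a z ρ) * q z ρ)) +
        (stepLaw p C a (a z ρ) * q z ρ - p z / (C z).card)) := by
    refine Finset.sum_le_sum fun z _ => Finset.sum_le_sum fun ρ hρ => ?_
    refine gibbs_term (div_nonneg (hp.nonneg z) (hcard z).le)
      (mul_nonneg (step_nonneg hp C a _) (hq0 z ρ hρ).le) fun hne => ?_
    have hpz : p z ≠ 0 := fun h => hne (by rw [h, zero_div])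
    have hpz' : 0 < p z := lt_of_le_of_ne (hp.nonneg z) (Ne.symm hpz)
    have : 0 < stepLaw p C a (a z ρ) := by
      have h3 : ind (a z ρ = a z ρ) * (p z / (C z).card) ≤ stepLaw p C a (a z ρ) := by
        unfold stepLaw
        refine le_trans ?_ (Finset.single_le_sum (f := fun z₁ => ∑ ρ₁ ∈ C z₁,
          ind (a z₁ ρ₁ = a z ρ) * (p z₁ / (C z₁).card)) (fun z₁ _ => Finset.sum_nonneg fun _ _ =>
            mul_nonneg (ind_nonneg _) (div_nonneg (hp.nonneg z₁) (Nat.cast_nonneg _)))
          (Finset.mem_univ z))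
        exact Finset.single_le_sum (f := fun ρ₁ => ind (a z ρ₁ = a z ρ) * (p z / (C z).card))
          (fun ρ₁ _ => mul_nonneg (ind_nonneg _) (div_nonneg (hp.nonneg z) (Nat.cast_nonneg _)))
          hρ
      rw [ind_pos rfl, one_mul] at h3
      exact lt_of_lt_of_le (div_pos hpz' (hcard z)) h3
    exact (mul_pos this (hq0 z ρ hρ)).ne'
  -- total mass of the reference weights
  have h3 : ∑ z, ∑ ρ ∈ C z, stepLaw p C a (a z ρ) * q z ρ ≤ 1 := by
    calc ∑ z, ∑ ρ ∈ C z, stepLaw p C a (a z ρ) * q z ρ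
        = ∑ z, ∑ ρ ∈ C z, ∑ z', ind (a z ρ = z') * (stepLaw p C a z' * q z ρ) := by
          refine Finset.sum_congr rfl fun z _ => Finset.sum_congr rfl fun ρ _ => ?_
          rw [sum_ind_eq (a z ρ) fun z' => stepLaw p C a z' * q z ρ]
      _ = ∑ z', stepLaw p C a z' * ∑ z, ∑ ρ ∈ C z, ind (a z ρ = z') * q z ρ := by
          rw [Finset.sum_congr rfl fun z _ => Finset.sum_comm, Finset.sum_comm]
          refine Finset.sum_congr rfl fun z' _ => ?_
          rw [Finset.mul_sum]
          refine Finset.sum_congr rfl fun z _ => ?_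
          rw [Finset.mul_sum]
          exact Finset.sum_congr rfl fun ρ _ => by ring
      _ ≤ ∑ z', stepLaw p C a z' * 1 :=
          Finset.sum_le_sum fun z' _ =>
            mul_le_mul_of_nonneg_left (hq1 z') (step_nonneg hp C a z')
      _ = 1 := by
          simp only [mul_one]
          exact hlaw.sum_one
  have h4 : ∑ z, ∑ ρ ∈ C z, p z / ((C z).card : ℝ) = 1 := by
    rw [← hp.sum_one]
    refine Finset.sum_congr rfl fun z _ => ?_
    rw [Finset.sum_const, nsmul_eq_mul]
    field_simp [(hcard z).ne']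
  -- the left-hand side
  have h5 : ∑ z, ∑ ρ ∈ C z, Real.negMulLog (p z / (C z).card) =
      Hent p + ∑ z, p z * Real.log (C z).card := by
    unfold Hent
    rw [← Finset.sum_add_distrib]
    refine Finset.sum_congr rfl fun z _ => ?_
    rw [Finset.sum_const, nsmul_eq_mul]
    rcases (hp.nonneg z).eq_or_lt with h0 | h0
    · rw [← h0, zero_div, Real.negMulLog_zero]
      ring
    · unfold Real.negMulLog
      rw [Real.log_div h0.ne' (hcard z).ne']
      field_simp [(hcard z).ne']
      ring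
  -- the logarithm of the reference weights
  have h6 : ∑ z, ∑ ρ ∈ C z, (p z / (C z).card * (-Real.log (stepLaw p C a (a z ρ) * q z ρ))) =
      Hent (stepLaw p C a) - ∑ z, p z * ((∑ ρ ∈ C z, Real.log (q z ρ)) / (C z).card) := by
    rw [h1, ← Finset.sum_sub_distrib]
    refine Finset.sum_congr rfl fun z _ => ?_
    have h7 : p z * ((∑ ρ ∈ C z, Real.log (q z ρ)) / (C z).card) =
        ∑ ρ ∈ C z, p z / (C z).card * Real.log (q z ρ) := by
      rw [← Finset.mul_sum]
      ring
    rw [h7, ← Finset.sum_sub_distrib]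
    refine Finset.sum_congr rfl fun ρ hρ => ?_
    rcases (hp.nonneg z).eq_or_lt with h0 | h0
    · rw [← h0]
      ring
    · have hs : stepLaw p C a (a z ρ) ≠ 0 := by
        intro hs0
        have h3' : ind (a z ρ = a z ρ) * (p z / (C z).card) ≤ stepLaw p C a (a z ρ) := by
          unfold stepLaw
          refine le_trans ?_ (Finset.single_le_sum (f := fun z₁ => ∑ ρ₁ ∈ C z₁,
            ind (a z₁ ρ₁ = a z ρ) * (p z₁ / (C z₁).card)) (fun z₁ _ => Finset.sum_nonneg
              fun _ _ => mul_nonneg (ind_nonneg _) (div_nonneg (hp.nonneg z₁)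
                (Nat.cast_nonneg _))) (Finset.mem_univ z))
          exact Finset.single_le_sum (f := fun ρ₁ => ind (a z ρ₁ = a z ρ) *
            (p z / (C z).card)) (fun ρ₁ _ => mul_nonneg (ind_nonneg _)
              (div_nonneg (hp.nonneg z) (Nat.cast_nonneg _))) hρ
        rw [ind_pos rfl, one_mul, hs0] at h3'
        have := div_pos h0 (hcard z)
        linarith
      rw [Real.log_mul hs (hq0 z ρ hρ).ne']
      ring
  have h8 : ∑ z, p z * (Real.log (C z).card + (∑ ρ ∈ C z, Real.log (q z ρ)) / (C z).card) =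
      ∑ z, p z * Real.log (C z).card +
        ∑ z, p z * ((∑ ρ ∈ C z, Real.log (q z ρ)) / (C z).card) := by
    rw [← Finset.sum_add_distrib]
    exact Finset.sum_congr rfl fun z _ => by ring
  have h9 : ∑ z, ∑ ρ ∈ C z, (p z / (C z).card * (-Real.log (stepLaw p C a (a z ρ) * q z ρ)) +
        (stepLaw p C a (a z ρ) * q z ρ - p z / (C z).card)) =
      ∑ z, ∑ ρ ∈ C z, (p z / (C z).card * (-Real.log (stepLaw p C a (a z ρ) * q z ρ))) +
      (∑ z, ∑ ρ ∈ C z, stepLaw p C a (a z ρ) * q z ρ - ∑ z, ∑ ρ ∈ C z, p z / (C z).card) := by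
    rw [← Finset.sum_sub_distrib, ← Finset.sum_add_distrib]
    refine Finset.sum_congr rfl fun z _ => ?_
    rw [← Finset.sum_sub_distrib, ← Finset.sum_add_distrib]
  rw [h9, h5, h6, h4] at h2
  rw [h8]
  linarith

end Pool.Agent.RelEq
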