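import Pool.Agent.Lib_MP_50c299_an.OneStep

/-!
# Iteration over the blocks
-/

open MeasureTheory Filter Topology

namespace Pool.Agent.RelEq

variable {A B : Type} [Fintype A] [Nonempty A] [TopologicalSpace A] [DiscreteTopology A]
  [MeasurableSpace A] [DiscreteMeasurableSpace A]
  [Fintype B] [TopologicalSpace B] [DiscreteTopology B] [MeasurableSpace B]
  [DiscreteMeasurableSpace B]

theorem iterate_aux (S : Sys A B) (M : ℕ) (P : Par A) (hP : P.OK S) (f : (ℤ → A) → ℝ) (F K : ℝ)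
    (hF : ∀ x, |f x| ≤ F) (hK : 0 ≤ K)
    (hB : ∀ n : ℕ, ∀ x ∈ S.X, ∀ x' ∈ S.X, (∀ i : ℤ, 0 ≤ i → i < n → x i = x' i) →
      |bsum f n x - bsum f n x'| ≤ K)
    (p : PW A M → ℝ) (hp : IsLaw p) (hs : ∀ z, p z ≠ 0 → AdmP S M z) (m : ℕ)
    (hm : m * P.W ≤ M) :
    ∃ p' : PW A M → ℝ, IsLaw p' ∧ (∀ z, p' z ≠ 0 → AdmP S M z) ∧
      (∀ c, ∑ z, ind (imw S M (ext S M z.1) = c) * p' z =
        ∑ z, ind (imw S M (ext S M z.1) = c) * p z) ∧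
      Hent p + ∑ i ∈ Finset.range m, ∑ z, p z * gfun S M P z (i * P.W : ℕ) ≤ Hent p' ∧
      ∑ z, p z * En S M f z - m * (6 * K + 4 * P.L * F) ≤ ∑ z, p' z * En S M f z ∧
      ∀ a' : ℕ, m * P.W ≤ a' → a' + P.W ≤ M →
        ∑ z, p' z * gfun S M P z a' = ∑ z, p z * gfun S M P z a' := by
  induction m with
  | zero =>
    refine ⟨p, hp, hs, fun c => rfl, ?_, ?_, fun a' _ _ => rfl⟩
    · simp
    · simp
  | succ m ih =>
    have hm1 : m * P.W + P.W ≤ M := by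
      calc m * P.W + P.W = (m + 1) * P.W := by ring
        _ ≤ M := hm
    obtain ⟨p₁, h1, h2, h3, h4, h5, h6⟩ := ih (by omega)
    obtain ⟨p₂, k1, k2, k3, k4, k5, k6⟩ := one_step S M P hP f F K hF hK hB (m * P.W) hm1 p₁ h1 h2
    refine ⟨p₂, k1, k2, fun c => (k3 c).trans (h3 c), ?_, ?_, ?_⟩
    · rw [Finset.sum_range_succ, ← h6 (m * P.W) le_rfl hm1]
      linarith
    · push_cast
      linarith
    · intro a' ha ha'
      have hmw : (m + 1) * P.W = m * P.W + P.W := by ring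
      rw [hmw] at ha
      rw [k6 a' ha ha', h6 a' (by omega) ha']

theorem iterate (S : Sys A B) (M : ℕ) (P : Par A) (hP : P.OK S) (f : (ℤ → A) → ℝ) (F K : ℝ)
    (hF : ∀ x, |f x| ≤ F) (hK : 0 ≤ K)
    (hB : ∀ n : ℕ, ∀ x ∈ S.X, ∀ x' ∈ S.X, (∀ i : ℤ, 0 ≤ i → i < n → x i = x' i) →
      |bsum f n x - bsum f n x'| ≤ K)
    (p : PW A M → ℝ) (hp : IsLaw p) (hs : ∀ z, p z ≠ 0 → AdmP S M z) (m : ℕ)
    (hm : m * P.W ≤ M) :
    ∃ p' : PW A M → ℝ, IsLaw p' ∧ (∀ z, p' z ≠ 0 → AdmP S M z) ∧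
      (∀ c, ∑ z, ind (imw S M (ext S M z.1) = c) * p' z =
        ∑ z, ind (imw S M (ext S M z.1) = c) * p z) ∧
      Hent p + ∑ i ∈ Finset.range m, ∑ z, p z * gfun S M P z (i * P.W : ℕ) ≤ Hent p' ∧
      ∑ z, p z * En S M f z - m * (6 * K + 4 * P.L * F) ≤ ∑ z, p' z * En S M f z := by
  obtain ⟨p', h1, h2, h3, h4, h5, -⟩ :=
    iterate_aux S M P hP f F K hF hK hB p hp hs m hm
  exact ⟨p', h1, h2, h3, h4, h5⟩

end Pool.Agent.RelEq
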