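import Pool.Agent.Lib_MP_50c299_an.Basic

/-!
# Limits of empirical measures: the situation
-/

open MeasureTheory Filter Topology

namespace Pool.Agent.RelEq

/-- A sequence of laws on pairs of words, and a limit `τ` along an ultrafilter of the averaged
distributions of the corresponding pairs of points. -/
structure LimSit {A B : Type} [Fintype A] [Nonempty A] [TopologicalSpace A] [MeasurableSpace A]
    [MeasurableSpace B] (S : Sys A B) (ν : Measure (ℤ → B)) (Mn : ℕ → ℕ)
    (p : ∀ n, PW A (Mn n) → ℝ) (U : Ultrafilter ℕ) (τ : Measure ((ℤ → A) × (ℤ → A))) :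
    Prop where
  hM : ∀ n, n < Mn n
  law : ∀ n, IsLaw (p n)
  supp : ∀ n z, p n z ≠ 0 → AdmP S (Mn n) z
  img : ∀ n c, ∑ z, ind (imw S (Mn n) (ext S (Mn n) z.1) = c) * p n z =
    wl ν (Mn n - 2 * S.s) c
  le : (U : Filter ℕ) ≤ atTop
  prob : IsProbabilityMeasure τ
  lim : ∀ g : (ℤ → A) × (ℤ → A) → ℝ, Continuous g →
    Tendsto (fun n => ∑ z, p n z * ((∑ t ∈ Finset.range (Mn n),
      g (sh t (ext S (Mn n) z.1), sh t (ext S (Mn n) z.2))) / (Mn n : ℝ))) U
      (𝓝 (∫ z, g z ∂τ))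

end Pool.Agent.RelEq
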