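import Pool.Agent.Lib_MP_50c299_an.LimDef

/-!
# Existence of the limit
-/

open MeasureTheory Filter Topology

namespace Pool.Agent.RelEq

variable {A B : Type} [Fintype A] [Nonempty A] [TopologicalSpace A] [DiscreteTopology A]
  [MeasurableSpace A] [DiscreteMeasurableSpace A]
  [Fintype B] [TopologicalSpace B] [DiscreteTopology B] [MeasurableSpace B]
  [DiscreteMeasurableSpace B]

section emp

variable {E Z : Type} [MeasurableSpace E] [Fintype Z]

/-- The empirical measure: mixture, with weights `p z / M`, of the Dirac masses at `φ z t`. -/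
noncomputable def emp (p : Z → ℝ) (M : ℕ) (φ : Z → ℕ → E) : Measure E :=
  ∑ x ∈ (Finset.univ : Finset Z) ×ˢ Finset.range M,
    ENNReal.ofReal (p x.1 / M) • Measure.dirac (φ x.1 x.2)

theorem emp_prob {p : Z → ℝ} (hp : IsLaw p) {M : ℕ} (hM : 0 < M) (φ : Z → ℕ → E) :
    IsProbabilityMeasure (emp p M φ) := by
  constructor
  have hM' : (0 : ℝ) < M := by exact_mod_cast hM
  unfold emp
  rw [Measure.finsetSum_apply]
  simp only [Measure.smul_apply, measure_univ, smul_eq_mul, mul_one]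
  rw [← ENNReal.ofReal_sum_of_nonneg
    (fun x _ => div_nonneg (hp.nonneg _) hM'.le), Finset.sum_product]
  simp only [Finset.sum_const, Finset.card_range, nsmul_eq_mul]
  have h1 : ∑ x, (M : ℝ) * (p x / M) = 1 := by
    rw [← hp.sum_one]
    refine Finset.sum_congr rfl fun x _ => ?_
    field_simp
  rw [h1, ENNReal.ofReal_one]

theorem emp_integral [MeasurableSingletonClass E] {p : Z → ℝ} (hp : IsLaw p) {M : ℕ}
    (hM : 0 < M) (φ : Z → ℕ → E) (g : E → ℝ) :
    ∫ z, g z ∂(emp p M φ) = ∑ z, p z * ((∑ t ∈ Finset.range M, g (φ z t)) / (M : ℝ)) := by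
  have hM' : (0 : ℝ) < M := by exact_mod_cast hM
  unfold emp
  rw [integral_finsetSum_measure]
  · simp only [integral_smul_measure, integral_dirac, smul_eq_mul]
    rw [Finset.sum_product]
    refine Finset.sum_congr rfl fun z _ => ?_
    rw [Finset.sum_div, Finset.mul_sum]
    refine Finset.sum_congr rfl fun t _ => ?_
    rw [ENNReal.toReal_ofReal (div_nonneg (hp.nonneg _) hM'.le)]
    ring
  · intro x _
    exact (integrable_dirac (by finiteness)).smul_measure (by finiteness)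

end emp

theorem lim_exists (S : Sys A B) (ν : Measure (ℤ → B)) (Mn : ℕ → ℕ)
    (p : ∀ n, PW A (Mn n) → ℝ) (hM : ∀ n, n < Mn n) (law : ∀ n, IsLaw (p n))
    (supp : ∀ n z, p n z ≠ 0 → AdmP S (Mn n) z)
    (img : ∀ n c, ∑ z, ind (imw S (Mn n) (ext S (Mn n) z.1) = c) * p n z =
      wl ν (Mn n - 2 * S.s) c) :
    ∃ (U : Ultrafilter ℕ) (τ : Measure ((ℤ → A) × (ℤ → A))), LimSit S ν Mn p U τ := by
  classical
  have hpos : ∀ n, 0 < Mn n := fun n => lt_of_le_of_lt (Nat.zero_le n) (hM n)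
  let φ : ∀ n, PW A (Mn n) → ℕ → (ℤ → A) × (ℤ → A) := fun n z t =>
    (sh t (ext S (Mn n) z.1), sh t (ext S (Mn n) z.2))
  let P : ℕ → ProbabilityMeasure ((ℤ → A) × (ℤ → A)) := fun n =>
    ⟨emp (p n) (Mn n) (φ n), emp_prob (law n) (hpos n) (φ n)⟩
  let U : Ultrafilter ℕ := Filter.hyperfilter ℕ
  obtain ⟨τ, -, hτ⟩ := isCompact_univ.ultrafilter_le_nhds (U.map P) (by simp)
  have hτ' : Tendsto P U (𝓝 τ) := hτ
  refine ⟨U, τ, ⟨hM, law, supp, img, ?_, inferInstance, ?_⟩⟩
  · rw [← Nat.cofinite_eq_atTop]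
    exact Filter.hyperfilter_le_cofinite
  · intro g hg
    rw [ProbabilityMeasure.tendsto_iff_forall_integral_tendsto] at hτ'
    have h1 := hτ' (BoundedContinuousFunction.mkOfCompact ⟨g, hg⟩)
    refine (h1.congr fun n => ?_)
    exact emp_integral (law n) (hpos n) (φ n) g

end Pool.Agent.RelEq
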