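import Pool.Agent.Lib_MP_50c299_an.Gibbs
import Pool.Agent.Lib_MP_50c299_an.DecodeSw
import Pool.Agent.Lib_MP_50c299_an.Energy

/-!
# The step for one block
-/

open MeasureTheory Filter Topology

set_option linter.unusedSectionVars false

namespace Pool.Agent.RelEq

section
variable {A B : Type} [Fintype A] [Nonempty A] [TopologicalSpace A] [DiscreteTopology A]
  [MeasurableSpace A] [DiscreteMeasurableSpace A]
  [Fintype B] [TopologicalSpace B] [DiscreteTopology B] [MeasurableSpace B]
  [DiscreteMeasurableSpace B]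

/-- The choices in the block starting at `a`. -/
noncomputable def os_Cset (S : Sys A B) (M : ℕ) (P : Par A) (a : ℕ) (z : PW A M) :
    Finset (Option ℕ) := by
  classical
  exact if AdmP S M z ∧ P.θ ≤ (Gam S M P z a).card then
      (Gam S M P z a).image fun t => some (a + t)
    else {none}

/-- The weights used to recover the pair and the choice. -/
noncomputable def os_qwt (S : Sys A B) (M : ℕ) (P : Par A) (a : ℕ) (z : PW A M) : Option ℕ → ℝ
  | none => 1 / 2
  | some τ => 1 / 4 * ((Fintype.card A : ℝ) ^ (2 * P.L))⁻¹ / (2 * (P.D + 1)) *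
      Real.exp (-|(((τ : ℤ) - cen P (ext S M (act S P.L M z (some τ)).1) a
        (sgn S M P z a) : ℤ) : ℝ)| / P.D)

theorem os_Cset_pos {S : Sys A B} {M : ℕ} {P : Par A} {a : ℕ} {z : PW A M}
    (h : AdmP S M z ∧ P.θ ≤ (Gam S M P z a).card) :
    os_Cset S M P a z = (Gam S M P z a).image fun t => some (a + t) := by
  classical
  unfold os_Cset
  rw [if_pos h]

theorem os_Cset_neg {S : Sys A B} {M : ℕ} {P : Par A} {a : ℕ} {z : PW A M}
    (h : ¬ (AdmP S M z ∧ P.θ ≤ (Gam S M P z a).card)) :
    os_Cset S M P a z = {none} := by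
  classical
  unfold os_Cset
  rw [if_neg h]

theorem os_Cset_nonempty {S : Sys A B} {M : ℕ} {P : Par A} (hP : P.OK S) (a : ℕ) (z : PW A M) :
    (os_Cset S M P a z).Nonempty := by
  by_cases h : AdmP S M z ∧ P.θ ≤ (Gam S M P z a).card
  · rw [os_Cset_pos h]
    have h1 : (1 : ℝ) ≤ (Gam S M P z a).card := hP.hθ.trans h.2
    have h2 : 0 < (Gam S M P z a).card := by
      have : (0 : ℝ) < (Gam S M P z a).card := by linarith
      exact_mod_cast this
    exact (Finset.card_pos.1 h2).image _
  · rw [os_Cset_neg h]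
    exact Finset.singleton_nonempty _

theorem os_Cset_mem {S : Sys A B} {M : ℕ} {P : Par A} {a : ℕ} {z : PW A M} {ρ : Option ℕ}
    (h : ρ ∈ os_Cset S M P a z) : ρ = none ∨ ∃ t ∈ Gam S M P z a, ρ = some (a + t) := by
  by_cases h' : AdmP S M z ∧ P.θ ≤ (Gam S M P z a).card
  · rw [os_Cset_pos h'] at h
    rw [Finset.mem_image] at h
    obtain ⟨t, ht, rfl⟩ := h
    exact Or.inr ⟨t, ht, rfl⟩
  · rw [os_Cset_neg h', Finset.mem_singleton] at h
    exact Or.inl h

theorem os_card_Cset {S : Sys A B} {M : ℕ} {P : Par A} {a : ℕ} {z : PW A M}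
    (h : AdmP S M z ∧ P.θ ≤ (Gam S M P z a).card) :
    (os_Cset S M P a z).card = (Gam S M P z a).card := by
  rw [os_Cset_pos h, Finset.card_image_of_injective]
  intro x y hxy
  simpa using hxy

theorem os_qwt_pos {S : Sys A B} {M : ℕ} {P : Par A} (hP : P.OK S) (a : ℕ) (z : PW A M)
    (ρ : Option ℕ) : 0 < os_qwt S M P a z ρ := by
  have hD := hP.hD
  have hA : (0 : ℝ) < (Fintype.card A : ℝ) := by exact_mod_cast Fintype.card_pos
  cases ρ with
  | none => unfold os_qwt; norm_num
  | some τ =>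
    unfold os_qwt
    positivity

theorem os_avg_eq {R : Type} {C : Finset R} (hC : C.Nonempty) {g : R → ℝ} {b : ℝ}
    (h : ∀ ρ ∈ C, g ρ = b) : (∑ ρ ∈ C, g ρ) / C.card = b := by
  rw [Finset.sum_congr rfl h, Finset.sum_const, nsmul_eq_mul]
  have : (0 : ℝ) < C.card := by exact_mod_cast Finset.card_pos.2 hC
  field_simp

theorem os_avg_ge {R : Type} {C : Finset R} (hC : C.Nonempty) {g : R → ℝ} {b : ℝ}
    (h : ∀ ρ ∈ C, b ≤ g ρ) : b ≤ (∑ ρ ∈ C, g ρ) / C.card := by
  have h0 : (0 : ℝ) < C.card := by exact_mod_cast Finset.card_pos.2 hC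
  rw [le_div_iff₀ h0]
  calc b * C.card = ∑ ρ ∈ C, b := by rw [Finset.sum_const, nsmul_eq_mul]; ring
    _ ≤ ∑ ρ ∈ C, g ρ := Finset.sum_le_sum h

/-- The number of pairs with a given swapped pair, given swap time. -/
theorem os_card_fibre {S : Sys A B} {M : ℕ} {P : Par A} (hP : P.OK S) {a : ℕ}
    (ha : a + P.W ≤ M) (z' : PW A M) (t : ℕ) (T : Finset (PW A M))
    (hT : ∀ z ∈ T, AdmP S M z ∧ t ∈ Gam S M P z a ∧ act S P.L M z (some (a + t)) = z') :
    (T.card : ℝ) ≤ (Fintype.card A : ℝ) ^ (2 * P.L) := by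
  classical
  have htM : T.Nonempty → a + t + P.L ≤ M := by
    rintro ⟨z, hz⟩
    obtain ⟨h1, h2, h3⟩ := hT z hz
    have := (swOK_of_mem hP ha h1 h2).le
    omega
  by_cases hTe : T.Nonempty
  · have htM' := htM hTe
    let F : PW A M → (Fin P.L → A) × (Fin P.L → A) := fun z =>
      (fun i => z.1 ⟨a + t + i, by have := i.2; omega⟩,
        fun i => z.2 ⟨a + t + i, by have := i.2; omega⟩)
    have hinj : Set.InjOn F T := by
      intro z hz z1 hz1 he
      obtain ⟨h1, h2, h3⟩ := hT z hz
      obtain ⟨h1', h2', h3'⟩ := hT z1 hz1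
      refine act_inj (t := a + t) (swOK_of_mem hP ha h1 h2) (swOK_of_mem hP ha h1' h2')
        (h3.trans h3'.symm) ?_
      intro i hi1 hi2
      have e1 := congrFun (congrArg Prod.fst he) ⟨(i : ℕ) - (a + t), by omega⟩
      have e2 := congrFun (congrArg Prod.snd he) ⟨(i : ℕ) - (a + t), by omega⟩
      have hidx : (⟨a + t + ((i : ℕ) - (a + t)), by omega⟩ : Fin M) = i := by
        apply Fin.ext
        simp only
        omega
      simp only [F] at e1 e2
      rw [hidx] at e1 e2
      exact ⟨e1, e2⟩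
    have hc : T.card ≤ Fintype.card ((Fin P.L → A) × (Fin P.L → A)) := by
      rw [← Finset.card_univ]
      exact Finset.card_le_card_of_injOn F (fun _ _ => Finset.mem_coe.2 (Finset.mem_univ _)) hinj
    have hc2 : Fintype.card ((Fin P.L → A) × (Fin P.L → A)) = Fintype.card A ^ (2 * P.L) := by
      rw [Fintype.card_prod, Fintype.card_fun, Fintype.card_fin, two_mul, pow_add]
    rw [hc2] at hc
    exact_mod_cast hc
  · rw [Finset.not_nonempty_iff_eq_empty] at hTe
    rw [hTe]
    simp only [Finset.card_empty, Nat.cast_zero]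
    positivity

theorem os_q_sum {S : Sys A B} {M : ℕ} {P : Par A} (hP : P.OK S) {a : ℕ}
    (ha : a + P.W ≤ M) (z' : PW A M) :
    ∑ z, ∑ ρ ∈ os_Cset S M P a z, ind (act S P.L M z ρ = z') * os_qwt S M P a z ρ ≤ 1 := by
  classical
  have hD := hP.hD
  have hA : (0 : ℝ) < (Fintype.card A : ℝ) := by exact_mod_cast Fintype.card_pos
  set κ : ℝ := 1 / 4 * ((Fintype.card A : ℝ) ^ (2 * P.L))⁻¹ / (2 * (P.D + 1)) with hκ
  have hκ0 : 0 ≤ κ := by positivity
  -- weight of a time for a given order
  set ω : Prop → ℕ → ℝ := fun σ t =>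
    κ * Real.exp (-|(((t : ℤ) - (cen P (ext S M z'.1) a σ - a) : ℤ) : ℝ)| / P.D) with hω
  have hω0 : ∀ σ t, 0 ≤ ω σ t := fun σ t => by
    rw [hω]; simp only; positivity
  -- pointwise bound
  have key : ∀ z, ∑ ρ ∈ os_Cset S M P a z, ind (act S P.L M z ρ = z') * os_qwt S M P a z ρ ≤
      ind (z = z') * (1 / 2) +
      ∑ t ∈ Finset.range (P.J * P.V),
        (ind (AdmP S M z ∧ t ∈ Gam S M P z a ∧ act S P.L M z (some (a + t)) = z') *
          (ω True t + ω False t)) := by
    intro z
    by_cases h : AdmP S M z ∧ P.θ ≤ (Gam S M P z a).card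
    · rw [os_Cset_pos h, Finset.sum_image (by
        intro x _ y _ hxy
        simpa using hxy)]
      have h1 : (0 : ℝ) ≤ ind (z = z') * (1 / 2) := by
        have := ind_nonneg (z = z')
        positivity
      have h2 : ∑ t ∈ Gam S M P z a,
          ind (act S P.L M z (some (a + t)) = z') * os_qwt S M P a z (some (a + t)) ≤
          ∑ t ∈ Finset.range (P.J * P.V),
        (ind (AdmP S M z ∧ t ∈ Gam S M P z a ∧ act S P.L M z (some (a + t)) = z') *
          (ω True t + ω False t)) := by
        have hsub : Gam S M P z a ⊆ Finset.range (P.J * P.V) := by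
          unfold Gam
          exact Finset.filter_subset _ _
        refine le_trans (Finset.sum_le_sum fun t ht => ?_)
          (Finset.sum_le_sum_of_subset_of_nonneg hsub fun t _ _ => ?_)
        · by_cases he : act S P.L M z (some (a + t)) = z'
          · rw [ind_pos he, ind_pos ⟨h.1, ht, he⟩, one_mul, one_mul]
            have hcen : os_qwt S M P a z (some (a + t)) = ω (sgn S M P z a) t := by
              rw [hω]
              unfold os_qwt
              simp only
              rw [he]
              have hint : (((a + t : ℕ) : ℤ) - cen P (ext S M z'.1) a (sgn S M P z a)) =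
                  ((t : ℤ) - (cen P (ext S M z'.1) a (sgn S M P z a) - a)) := by
                push_cast
                ring
              rw [hint]
            rw [hcen]
            by_cases hs : sgn S M P z a
            · have : sgn S M P z a = True := propext ⟨fun _ => trivial, fun _ => hs⟩
              rw [this]
              linarith [hω0 False t]
            · have : sgn S M P z a = False := propext ⟨fun h => hs h, fun h => h.elim⟩
              rw [this]
              linarith [hω0 True t]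
          · rw [ind_neg he, zero_mul]
            exact mul_nonneg (ind_nonneg _) (add_nonneg (hω0 _ _) (hω0 _ _))
        · exact mul_nonneg (ind_nonneg _) (add_nonneg (hω0 _ _) (hω0 _ _))
      linarith
    · rw [os_Cset_neg h, Finset.sum_singleton]
      have h1 : ind (act S P.L M z none = z') * os_qwt S M P a z none = ind (z = z') * (1 / 2) := rfl
      rw [h1]
      have h2 : 0 ≤ ∑ t ∈ Finset.range (P.J * P.V),
        (ind (AdmP S M z ∧ t ∈ Gam S M P z a ∧ act S P.L M z (some (a + t)) = z') *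
          (ω True t + ω False t)) :=
        Finset.sum_nonneg fun t _ =>
          mul_nonneg (ind_nonneg _) (add_nonneg (hω0 _ _) (hω0 _ _))
      linarith
  refine le_trans (Finset.sum_le_sum fun z _ => key z) ?_
  rw [Finset.sum_add_distrib]
  have h1 : ∑ z : PW A M, ind (z = z') * (1 / 2) = 1 / 2 :=
    sum_ind_eq' z' fun _ => (1 / 2 : ℝ)
  rw [h1, Finset.sum_comm]
  -- the sum for each time
  have h2 : ∀ t, ∑ z : PW A M,
      (ind (AdmP S M z ∧ t ∈ Gam S M P z a ∧ act S P.L M z (some (a + t)) = z') *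
          (ω True t + ω False t)) ≤
      (Fintype.card A : ℝ) ^ (2 * P.L) * (ω True t + ω False t) := by
    intro t
    rw [← Finset.sum_mul]
    refine mul_le_mul_of_nonneg_right ?_ (add_nonneg (hω0 _ _) (hω0 _ _))
    have e : ∑ z : PW A M,
        ind (AdmP S M z ∧ t ∈ Gam S M P z a ∧ act S P.L M z (some (a + t)) = z') =
        ((Finset.univ.filter fun z : PW A M =>
          AdmP S M z ∧ t ∈ Gam S M P z a ∧ act S P.L M z (some (a + t)) = z').card : ℝ) := by
      rw [Finset.card_filter]
      push_cast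
      refine Finset.sum_congr rfl fun z _ => ?_
      by_cases hh : AdmP S M z ∧ t ∈ Gam S M P z a ∧ act S P.L M z (some (a + t)) = z'
      · rw [ind_pos hh, if_pos hh]
      · rw [ind_neg hh, if_neg hh]
    rw [e]
    refine os_card_fibre hP ha z' t _ fun z hz => ?_
    exact (Finset.mem_filter.1 hz).2
  have h3 : ∀ σ, ∑ t ∈ Finset.range (P.J * P.V),
      (Fintype.card A : ℝ) ^ (2 * P.L) * ω σ t ≤ 1 / 4 := by
    intro σ
    rw [hω]
    simp only
    have e := exp_sum P.D hD (cen P (ext S M z'.1) a σ - a) (P.J * P.V)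
    have e2 : ∑ t ∈ Finset.range (P.J * P.V), (Fintype.card A : ℝ) ^ (2 * P.L) *
        (κ * Real.exp (-|(((t : ℤ) - (cen P (ext S M z'.1) a σ - a) : ℤ) : ℝ)| / P.D)) =
        ((Fintype.card A : ℝ) ^ (2 * P.L) * κ) * ∑ t ∈ Finset.range (P.J * P.V),
          Real.exp (-|(((t : ℤ) - (cen P (ext S M z'.1) a σ - a) : ℤ) : ℝ)| / P.D) := by
      rw [Finset.mul_sum]
      refine Finset.sum_congr rfl fun t _ => by ring
    rw [e2]
    have e3 : (Fintype.card A : ℝ) ^ (2 * P.L) * κ = 1 / 4 / (2 * (P.D + 1)) := by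
      rw [hκ]
      have : (Fintype.card A : ℝ) ^ (2 * P.L) ≠ 0 := by positivity
      field_simp
    rw [e3]
    calc 1 / 4 / (2 * (P.D + 1)) * ∑ t ∈ Finset.range (P.J * P.V),
          Real.exp (-|(((t : ℤ) - (cen P (ext S M z'.1) a σ - a) : ℤ) : ℝ)| / P.D) ≤
        1 / 4 / (2 * (P.D + 1)) * (2 * (P.D + 1)) :=
          mul_le_mul_of_nonneg_left (by exact_mod_cast e) (by positivity)
      _ = 1 / 4 := by
          have : (2 * (P.D + 1)) ≠ 0 := by positivity
          field_simp
  have h4 : ∑ t ∈ Finset.range (P.J * P.V), ∑ z : PW A M,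
      (ind (AdmP S M z ∧ t ∈ Gam S M P z a ∧ act S P.L M z (some (a + t)) = z') *
          (ω True t + ω False t)) ≤ 1 / 2 := by
    refine le_trans (Finset.sum_le_sum fun t _ => h2 t) ?_
    have : ∑ t ∈ Finset.range (P.J * P.V),
        (Fintype.card A : ℝ) ^ (2 * P.L) * (ω True t + ω False t) =
        ∑ t ∈ Finset.range (P.J * P.V), (Fintype.card A : ℝ) ^ (2 * P.L) * ω True t +
        ∑ t ∈ Finset.range (P.J * P.V), (Fintype.card A : ℝ) ^ (2 * P.L) * ω False t := by
      rw [← Finset.sum_add_distrib]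
      refine Finset.sum_congr rfl fun t _ => by ring
    rw [this]
    linarith [h3 True, h3 False]
  linarith

theorem os_gain_ge {S : Sys A B} {M : ℕ} {P : Par A} (hP : P.OK S) {a : ℕ}
    (ha : a + P.W ≤ M) {z : PW A M} (hz : AdmP S M z) :
    gfun S M P z a ≤ Real.log (os_Cset S M P a z).card +
      (∑ ρ ∈ os_Cset S M P a z, Real.log (os_qwt S M P a z ρ)) / (os_Cset S M P a z).card := by
  have hD := hP.hD
  have hA : (0 : ℝ) < (Fintype.card A : ℝ) := by exact_mod_cast Fintype.card_pos
  have herr : (0 : ℝ) ≤ (2 * (err S M P z a : ℝ) + 7) * P.V / P.D := by positivity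
  have hlog2 : (0 : ℝ) ≤ Real.log 2 := Real.log_nonneg (by norm_num)
  by_cases h : P.θ ≤ (Gam S M P z a).card
  · have hb : -Real.log 4 - 2 * P.L * Real.log (Fintype.card A) - Real.log (2 * (P.D + 1)) -
        (2 * (err S M P z a : ℝ) + 7) * P.V / P.D ≤
        (∑ ρ ∈ os_Cset S M P a z, Real.log (os_qwt S M P a z ρ)) / (os_Cset S M P a z).card := by
      refine os_avg_ge (os_Cset_nonempty hP a z) fun ρ hρ => ?_
      rw [os_Cset_pos ⟨hz, h⟩, Finset.mem_image] at hρ
      obtain ⟨t, ht, rfl⟩ := hρ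
      unfold os_qwt
      simp only
      have hp1 : (0 : ℝ) < (Fintype.card A : ℝ) ^ (2 * P.L) := by positivity
      rw [Real.log_mul (x := 1 / 4 * ((Fintype.card A : ℝ) ^ (2 * P.L))⁻¹ / (2 * (P.D + 1)))
        (by positivity) (by positivity), Real.log_exp,
        Real.log_div (by positivity) (by positivity),
        Real.log_mul (x := 1 / 4) (by positivity) (by positivity),
        Real.log_inv, Real.log_pow]
      have hq : Real.log (1 / 4) = -Real.log 4 := by
        rw [one_div, Real.log_inv]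
      rw [hq]
      have hdc := decode_close hP ha hz ht
      have hdc' : |((((a + t : ℕ) : ℤ) - cen P (ext S M (act S P.L M z (some (a + t))).1) a
          (sgn S M P z a) : ℤ) : ℝ)| ≤ (2 * (err S M P z a : ℝ) + 7) * P.V := by
        exact_mod_cast hdc
      have hdiv : -((2 * (err S M P z a : ℝ) + 7) * P.V / P.D) ≤
          -|((((a + t : ℕ) : ℤ) - cen P (ext S M (act S P.L M z (some (a + t))).1) a
          (sgn S M P z a) : ℤ) : ℝ)| / P.D := by
        rw [neg_div]
        exact neg_le_neg (div_le_div_of_nonneg_right hdc' (by linarith))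
      push_cast at hdiv ⊢
      linarith
    rw [os_card_Cset ⟨hz, h⟩] at hb ⊢
    have hθ : Real.log P.θ ≤ Real.log (Gam S M P z a).card :=
      Real.log_le_log (by linarith [hP.hθ]) h
    unfold gfun
    rw [ind_pos h]
    linarith
  · rw [os_Cset_neg (fun hh => h hh.2), Finset.sum_singleton, Finset.card_singleton]
    unfold gfun os_qwt
    rw [ind_neg h]
    simp only [Nat.cast_one, Real.log_one, div_one, zero_mul, one_div, Real.log_inv]
    linarith

theorem one_step (S : Sys A B) (M : ℕ) (P : Par A) (hP : P.OK S) (f : (ℤ → A) → ℝ) (F K : ℝ)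
    (hF : ∀ x, |f x| ≤ F) (hK : 0 ≤ K)
    (hB : ∀ n : ℕ, ∀ x ∈ S.X, ∀ x' ∈ S.X, (∀ i : ℤ, 0 ≤ i → i < n → x i = x' i) →
      |bsum f n x - bsum f n x'| ≤ K)
    (a : ℕ) (ha : a + P.W ≤ M) (p : PW A M → ℝ) (hp : IsLaw p)
    (hs : ∀ z, p z ≠ 0 → AdmP S M z) :
    ∃ p' : PW A M → ℝ, IsLaw p' ∧ (∀ z, p' z ≠ 0 → AdmP S M z) ∧
      (∀ c, ∑ z, ind (imw S M (ext S M z.1) = c) * p' z =
        ∑ z, ind (imw S M (ext S M z.1) = c) * p z) ∧
      Hent p + ∑ z, p z * gfun S M P z a ≤ Hent p' ∧
      ∑ z, p z * En S M f z - (6 * K + 4 * P.L * F) ≤ ∑ z, p' z * En S M f z ∧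
      ∀ a' : ℕ, a + P.W ≤ a' → a' + P.W ≤ M →
        ∑ z, p' z * gfun S M P z a' = ∑ z, p z * gfun S M P z a' := by
  classical
  have hF0 : 0 ≤ F := (abs_nonneg _).trans (hF fun _ => Classical.arbitrary A)
  have hCne : ∀ z, (os_Cset S M P a z).Nonempty := os_Cset_nonempty hP a
  -- a general transfer principle
  have htr : ∀ ψ : PW A M → ℝ,
      (∀ z, AdmP S M z → ∀ t ∈ Gam S M P z a, ψ (act S P.L M z (some (a + t))) = ψ z) →
      ∑ z', stepLaw p (os_Cset S M P a) (act S P.L M) z' * ψ z' = ∑ z, p z * ψ z := by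
    intro ψ hψ
    rw [step_sum]
    refine Finset.sum_congr rfl fun z _ => ?_
    by_cases hz : p z = 0
    · rw [hz, zero_mul, zero_mul]
    · congr 1
      refine os_avg_eq (hCne z) fun ρ hρ => ?_
      rcases os_Cset_mem hρ with rfl | ⟨t, ht, rfl⟩
      · rfl
      · exact hψ z (hs z hz) t ht
  refine ⟨stepLaw p (os_Cset S M P a) (act S P.L M), step_isLaw hp _ hCne _, ?_, ?_, ?_, ?_, ?_⟩
  · intro z' hz'
    obtain ⟨z, hz, ρ, hρ, rfl⟩ := step_supp hp _ _ hz'
    rcases os_Cset_mem hρ with rfl | ⟨t, ht, rfl⟩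
    · exact hs z hz
    · exact act_adm (swOK_of_mem hP ha (hs z hz) ht)
  · intro c
    have h := htr (fun z => ind (imw S M (ext S M z.1) = c)) (fun z hz t ht => by
      rw [act_img (swOK_of_mem hP ha hz ht)])
    refine (Finset.sum_congr rfl fun z _ => mul_comm _ _).trans
      (h.trans (Finset.sum_congr rfl fun z _ => mul_comm _ _))
  · have h := step_entropy hp (os_Cset S M P a) hCne (act S P.L M) (os_qwt S M P a)
      (fun z ρ _ => os_qwt_pos hP a z ρ) (os_q_sum hP ha)
    refine le_trans ?_ h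
    have h2 : ∑ z, p z * gfun S M P z a ≤ ∑ z, p z * (Real.log (os_Cset S M P a z).card +
        (∑ ρ ∈ os_Cset S M P a z, Real.log (os_qwt S M P a z ρ)) / (os_Cset S M P a z).card) := by
      refine Finset.sum_le_sum fun z _ => ?_
      by_cases hz : p z = 0
      · rw [hz, zero_mul, zero_mul]
      · exact mul_le_mul_of_nonneg_left (os_gain_ge hP ha (hs z hz)) (hp.nonneg z)
    linarith
  · rw [step_sum]
    have h1 : ∑ z, p z * En S M f z - (6 * K + 4 * P.L * F) =
        ∑ z, p z * (En S M f z - (6 * K + 4 * P.L * F)) := by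
      simp only [mul_sub, Finset.sum_sub_distrib, ← Finset.sum_mul, hp.sum_one]
      ring
    rw [h1]
    refine Finset.sum_le_sum fun z _ => ?_
    by_cases hz : p z = 0
    · rw [hz, zero_mul, zero_mul]
    · refine mul_le_mul_of_nonneg_left ?_ (hp.nonneg z)
      refine os_avg_ge (hCne z) fun ρ hρ => ?_
      rcases os_Cset_mem hρ with rfl | ⟨t, ht, rfl⟩
      · have : (0 : ℝ) ≤ 6 * K + 4 * P.L * F := by positivity
        show En S M f z - _ ≤ En S M f z
        linarith
      · have := act_energy (swOK_of_mem hP ha (hs z hz) ht) f F K hF hB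
        have := (abs_le.1 this).1
        linarith
  · intro a' haa' ha'
    exact htr (fun z => gfun S M P z a') fun z hz t ht => gfun_act hP ha hz ht a' haa' ha'

end

end Pool.Agent.RelEq
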