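import Pool.Agent.Lib_MP_50c299_an.Basic

/-!
# Shifts of finite type: closed, invariant, gluing
-/

open MeasureTheory Filter Topology

namespace Pool.Agent.RelEq

variable {A : Type}

theorem sft_closed [TopologicalSpace A] [DiscreteTopology A] {X : Set (ℤ → A)} (h : IsSFT X) :
    IsClosed X := by
  obtain ⟨m, W, rfl⟩ := h
  have : {x : ℤ → A | ∀ i : ℤ, (fun j : Fin m => x (i + j)) ∈ W} =
      ⋂ i : ℤ, (fun (x : ℤ → A) (j : Fin m) => x (i + j)) ⁻¹' W := by
    ext x
    simp
  rw [this]
  refine isClosed_iInter fun i => ?_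
  exact (isClosed_discrete W).preimage (continuous_pi fun j => continuous_apply _)

theorem sft_inv {X : Set (ℤ → A)} (h : IsSFT X) (t : ℤ) (x : ℤ → A) : x ∈ X ↔ sh t x ∈ X := by
  obtain ⟨m, W, rfl⟩ := h
  constructor
  · intro hx i
    have := hx (i + t)
    have e : (fun j : Fin m => sh t x (i + j)) = fun j : Fin m => x (i + t + j) := by
      funext j
      simp only [sh_apply]
      congr 1
      ring
    rw [e]
    exact this
  · intro hx i
    have := hx (i - t)
    have e : (fun j : Fin m => x (i + j)) = fun j : Fin m => sh t x (i - t + j) := by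
      funext j
      simp only [sh_apply]
      congr 1
      ring
    rw [e]
    exact this

theorem sft_glue {X : Set (ℤ → A)} (h : IsSFT X) :
    ∃ r₀ : ℕ, ∀ r ≥ r₀, ∀ p ∈ X, ∀ q ∈ X, ∀ t : ℤ, (∀ i : ℤ, t ≤ i → i < t + r → p i = q i) →
      (fun i : ℤ => if i < t then p i else q i) ∈ X := by
  obtain ⟨m, W, rfl⟩ := h
  refine ⟨m, fun r hr p hp q hq t hpq i => ?_⟩
  by_cases hi : i < t
  · have e : (fun j : Fin m => if i + (j : ℤ) < t then p (i + j) else q (i + j)) =
        fun j : Fin m => p (i + j) := by
      funext j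
      have := j.2
      split_ifs with h
      · rfl
      · exact (hpq _ (by omega) (by omega)).symm
    change (fun j : Fin m => if i + (j : ℤ) < t then p (i + j) else q (i + j)) ∈ W
    rw [e]
    exact hp i
  · have e : (fun j : Fin m => if i + (j : ℤ) < t then p (i + j) else q (i + j)) =
        fun j : Fin m => q (i + j) := by
      funext j
      rw [if_neg (by omega)]
    change (fun j : Fin m => if i + (j : ℤ) < t then p (i + j) else q (i + j)) ∈ W
    rw [e]
    exact hq i

end Pool.Agent.RelEq
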