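import Pool.Agent.Lib_MP_50c299_an.Basic

/-!
# Transition blocks from the class degree
-/

open MeasureTheory Filter Topology

namespace Pool.Agent.RelEq

variable {A B : Type} [Fintype A] [TopologicalSpace A] [DiscreteTopology A]

namespace TB

/-- The points of `X` over `y₀`. -/
def Zs {A B : Type} [TopologicalSpace A] (S : Sys A B) (y₀ : ℤ → B) : Set (ℤ → A) :=
  {z | z ∈ S.X ∧ S.π z = y₀}

/-- Follow `p` before time `t` and `q` from time `t` on. -/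
def gl {A : Type} (t : ℤ) (p q : ℤ → A) : ℤ → A := fun i => if i < t then p i else q i

theorem gl_lt {A : Type} {t : ℤ} {p q : ℤ → A} {i : ℤ} (h : i < t) : gl t p q i = p i := by
  unfold gl
  exact if_pos h

theorem gl_ge {A : Type} {t : ℤ} {p q : ℤ → A} {i : ℤ} (h : t ≤ i) : gl t p q i = q i := by
  unfold gl
  exact if_neg (by omega)

theorem gl_lt' {A : Type} {t : ℤ} {r : ℤ} {p q : ℤ → A} {i : ℤ}
    (hpq : ∀ i : ℤ, t ≤ i → i < t + r → p i = q i) (h : i < t + r) : gl t p q i = p i := by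
  by_cases hi : i < t
  · exact gl_lt hi
  · rw [gl_ge (by omega)]
    exact (hpq i (by omega) h).symm

omit [Fintype A] [DiscreteTopology A] in
theorem gl_mem {S : Sys A B} {y₀ : ℤ → B} {p q : ℤ → A} (hp : p ∈ Zs S y₀) (hq : q ∈ Zs S y₀)
    {t : ℤ} (hpq : ∀ i : ℤ, t ≤ i → i < t + S.r → p i = q i) : gl t p q ∈ Zs S y₀ := by
  refine ⟨S.glue p hp.1 q hq.1 t hpq, ?_⟩
  funext i
  have hr := S.hr
  by_cases hi : i + S.s < t + S.r
  · rw [S.loc (gl t p q) p i, hp.2]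
    intro k _ hk2
    exact gl_lt' hpq (by omega)
  · rw [S.loc (gl t p q) q i, hq.2]
    intro k hk1 _
    exact gl_ge (by omega)

/-- Compactness in the form in which it is used. -/
theorem compactness (K : Set (ℤ → A)) (hK : IsClosed K) (P : ℕ → (ℤ → A) → Prop)
    (hmono : ∀ m m' p, m ≤ m' → P m p → P m' p)
    (hloc : ∀ p ∈ K, ∃ m N : ℕ, ∀ p' ∈ K, (∀ i : ℤ, -(N : ℤ) ≤ i → i ≤ N → p' i = p i) →
      P m p') :
    ∃ m, ∀ p ∈ K, P m p := by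
  have hc : IsCompact K := hK.isCompact
  refine hc.induction_on (p := fun s => ∃ m, ∀ p ∈ s, p ∈ K → P m p) ⟨0, by simp⟩ ?_ ?_ ?_ |>.imp
    fun m hm p hp => hm p hp hp
  · rintro s t hst ⟨m, hm⟩
    exact ⟨m, fun p hp => hm p (hst hp)⟩
  · rintro s t ⟨m, hm⟩ ⟨m', hm'⟩
    refine ⟨max m m', fun p hp hpK => ?_⟩
    rcases hp with hp | hp
    · exact hmono m _ p (le_max_left _ _) (hm p hp hpK)
    · exact hmono m' _ p (le_max_right _ _) (hm' p hp hpK)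
  · intro p hp
    obtain ⟨m, N, h⟩ := hloc p hp
    refine ⟨{p' | ∀ i : ℤ, -(N : ℤ) ≤ i → i ≤ N → p' i = p i} , ?_, m, fun p' hp' hpK =>
      h p' hpK hp'⟩
    apply mem_nhdsWithin_of_mem_nhds
    have hopen : IsOpen {p' : ℤ → A | ∀ i : ℤ, -(N : ℤ) ≤ i → i ≤ N → p' i = p i} := by
      have : {p' : ℤ → A | ∀ i : ℤ, -(N : ℤ) ≤ i → i ≤ N → p' i = p i} =
          ⋂ i ∈ Finset.Icc (-(N : ℤ)) N, (fun p' : ℤ → A => p' i) ⁻¹' {p i} := by
        ext p'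
        simp only [Set.mem_ofPred_eq, Set.mem_iInter, Finset.mem_Icc, Set.mem_preimage,
          Set.mem_singleton_iff]
        exact ⟨fun h i hi => h i hi.1 hi.2, fun h i h1 h2 => h i ⟨h1, h2⟩⟩
      rw [this]
      exact isOpen_biInter_finset fun i _ => (isOpen_discrete _).preimage (continuous_apply i)
    exact hopen.mem_nhds fun i _ _ => rfl

omit [Fintype A] in
theorem isClosed_of_local (K : Set (ℤ → A)) (a b : ℤ)
    (h : ∀ p p' : ℤ → A, (∀ i : ℤ, a ≤ i → i ≤ b → p i = p' i) → p ∈ K → p' ∈ K) :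
    IsClosed K := by
  rw [← isOpen_compl_iff, isOpen_iff_mem_nhds]
  intro p hp
  have hopen : IsOpen {p' : ℤ → A | ∀ i : ℤ, a ≤ i → i ≤ b → p' i = p i} := by
    have : {p' : ℤ → A | ∀ i : ℤ, a ≤ i → i ≤ b → p' i = p i} =
        ⋂ i ∈ Finset.Icc a b, (fun p' : ℤ → A => p' i) ⁻¹' {p i} := by
      ext p'
      simp only [Set.mem_ofPred_eq, Set.mem_iInter, Finset.mem_Icc, Set.mem_preimage,
        Set.mem_singleton_iff]
      exact ⟨fun h i hi => h i hi.1 hi.2, fun h i h1 h2 => h i ⟨h1, h2⟩⟩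
    rw [this]
    exact isOpen_biInter_finset fun i _ => (isOpen_discrete _).preimage (continuous_apply i)
  refine Filter.mem_of_superset (hopen.mem_nhds fun i _ _ => rfl) ?_
  intro p' hp' hK
  exact hp (h p' p hp' hK)

omit [Fintype A] in
theorem isClosed_Zs (S : Sys A B) (y₀ : ℤ → B) : IsClosed (Zs S y₀) := by
  have : Zs S y₀ = S.X ∩ ⋂ i : ℤ, {z | S.π z i = y₀ i} := by
    ext z
    simp only [Zs, Set.mem_ofPred_eq, Set.mem_inter_iff, Set.mem_iInter]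
    exact ⟨fun h => ⟨h.1, fun i => congrFun h.2 i⟩, fun h => ⟨h.1, funext h.2⟩⟩
  rw [this]
  refine S.closed.inter (isClosed_iInter fun i => ?_)
  refine isClosed_of_local _ (i - S.s) (i + S.s) fun p p' hpp' hp => ?_
  show S.π p' i = y₀ i
  rw [← S.loc p p' i hpp']
  exact hp

omit [Fintype A] [DiscreteTopology A] in
/-- Choice of representatives of the transition classes. -/
theorem exists_rep (S : Sys A B) (c : ℕ) (y₀ : ℤ → B)
    (hc : (transitionClasses S.X S.π y₀).encard ≤ c) :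
    ∃ ρ : (ℤ → A) → (ℤ → A), (ρ '' Zs S y₀).encard ≤ c ∧
      ∀ z ∈ Zs S y₀, ρ z ∈ Zs S y₀ ∧ Reach S.X S.π z (ρ z) ∧ Reach S.X S.π (ρ z) z := by
  classical
  let Cl : (ℤ → A) → Set (ℤ → A) := fun x =>
    {x' | x' ∈ S.X ∧ S.π x' = y₀ ∧ Reach S.X S.π x x' ∧ Reach S.X S.π x' x}
  by_cases hne : (Zs S y₀).Nonempty
  · obtain ⟨x₀, hx₀⟩ := hne
    let G : Set (ℤ → A) → (ℤ → A) := fun C => if h : C.Nonempty then h.some else x₀
    refine ⟨fun x => G (Cl x), ?_, ?_⟩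
    · have h1 : (fun x => G (Cl x)) '' Zs S y₀ ⊆ G '' transitionClasses S.X S.π y₀ := by
        rintro _ ⟨x, hx, rfl⟩
        exact ⟨Cl x, ⟨x, hx.1, hx.2, rfl⟩, rfl⟩
      exact (Set.encard_le_encard h1).trans ((Set.encard_image_le _ _).trans hc)
    · intro z hz
      have hr : Reach S.X S.π z z := fun n => ⟨z, hz.1, rfl, fun i _ => rfl, n, le_refl n,
        fun i _ => rfl⟩
      have hne : (Cl z).Nonempty := ⟨z, hz.1, hz.2, hr, hr⟩
      have hG : G (Cl z) ∈ Cl z := by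
        show (if h : (Cl z).Nonempty then h.some else x₀) ∈ Cl z
        rw [dif_pos hne]
        exact hne.some_mem
      exact ⟨⟨hG.1, hG.2.1⟩, hG.2.2.1, hG.2.2.2⟩
  · rw [Set.not_nonempty_iff_eq_empty] at hne
    refine ⟨id, ?_, ?_⟩
    · rw [hne]; simp
    · rw [hne]; simp

/-- Uniform bounds over finitely many cases. -/
theorem uniform {α β : Type} (Z : Set α) (F : α → β) (hF : (F '' Z).Finite) (P : ℕ → α → Prop)
    (hmono : ∀ m m' p, m ≤ m' → P m p → P m' p)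
    (hex : ∀ z ∈ Z, ∃ m, P m z)
    (hloc : ∀ z ∈ Z, ∀ z' ∈ Z, F z = F z' → ∀ m, P m z → P m z') :
    ∃ m, ∀ z ∈ Z, P m z := by
  classical
  have h1 : ∀ b ∈ F '' Z, ∃ m, ∀ z ∈ Z, F z = b → P m z := by
    rintro _ ⟨z, hz, rfl⟩
    obtain ⟨m, hm⟩ := hex z hz
    exact ⟨m, fun z' hz' h => hloc z hz z' hz' h.symm m hm⟩
  choose! g hg using h1
  refine ⟨hF.toFinset.sup g, fun z hz => ?_⟩
  have hb : F z ∈ F '' Z := ⟨z, hz, rfl⟩
  exact hmono _ _ z (Finset.le_sup (f := g) (hF.mem_toFinset.2 hb)) (hg (F z) hb z hz rfl)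

omit [DiscreteTopology A] in
/-- Step (a): uniform time of connection to the representative. -/
theorem step_a (S : Sys A B) (c : ℕ) (y₀ : ℤ → B) (ρ : (ℤ → A) → (ℤ → A))
    (hρc : (ρ '' Zs S y₀).encard ≤ c)
    (hρ : ∀ z ∈ Zs S y₀, ρ z ∈ Zs S y₀ ∧ Reach S.X S.π z (ρ z) ∧ Reach S.X S.π (ρ z) z) :
    ∃ n : ℕ, ∀ z ∈ Zs S y₀, ∃ v ∈ Zs S y₀, (∀ i : ℤ, i < S.r → v i = z i) ∧
      ∀ i : ℤ, n ≤ i → v i = ρ z i := by
  classical
  refine uniform (Zs S y₀) (fun z => (wd S.r z, ρ z)) ?_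
    (fun n z => ∃ v ∈ Zs S y₀, (∀ i : ℤ, i < S.r → v i = z i) ∧ ∀ i : ℤ, n ≤ i → v i = ρ z i)
    ?_ ?_ ?_
  · have hfin : (ρ '' Zs S y₀).Finite :=
      Set.finite_of_encard_le_coe hρc
    refine ((Set.finite_univ (α := Fin S.r → A)).prod hfin).subset ?_
    rintro _ ⟨z, hz, rfl⟩
    exact ⟨Set.mem_univ _, z, hz, rfl⟩
  · rintro m m' z hmm ⟨v, hv, h1, h2⟩
    exact ⟨v, hv, h1, fun i hi => h2 i (by omega)⟩
  · intro z hz
    obtain ⟨v, hvX, hvπ, h1, m, _, h2⟩ := (hρ z hz).2.1 (S.r - 1)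
    refine ⟨m.toNat, v, ⟨hvX, hvπ.trans hz.2⟩, fun i hi => h1 i (by omega), fun i hi =>
      h2 i (by omega)⟩
  · rintro z hz z' hz' hF m ⟨v, hv, h1, h2⟩
    have hF1 : wd S.r z = wd S.r z' := congrArg Prod.fst hF
    have hF2 : ρ z = ρ z' := congrArg Prod.snd hF
    rw [wd_eq_iff] at hF1
    have hr := S.hr
    have hag : ∀ i : ℤ, 0 ≤ i → i < 0 + S.r → z' i = v i := fun i hi0 hir => by
      rw [h1 i (by omega), hF1 i hi0 (by omega)]
    refine ⟨gl 0 z' v, gl_mem hz' hv hag, fun i hi => gl_lt' hag (by omega), fun i hi => ?_⟩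
    rw [gl_ge (by omega), h2 i hi, hF2]

/-- Step (b): every point over `y₀` can be routed through a representative at time `n` and
back to itself at time `b`. -/
theorem step_b (S : Sys A B) (c : ℕ) (y₀ : ℤ → B) (ρ : (ℤ → A) → (ℤ → A))
    (hρc : (ρ '' Zs S y₀).encard ≤ c)
    (hρ : ∀ z ∈ Zs S y₀, ρ z ∈ Zs S y₀ ∧ Reach S.X S.π z (ρ z) ∧ Reach S.X S.π (ρ z) z) :
    ∃ n b : ℕ, n + S.r ≤ b ∧ ∀ z ∈ Zs S y₀, ∃ R ∈ ρ '' Zs S y₀, ∃ v ∈ Zs S y₀,
      (∀ i : ℤ, i < S.r → v i = z i) ∧ (∀ i : ℤ, n ≤ i → i < n + S.r → v i = R i) ∧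
      ∀ i : ℤ, b ≤ i → v i = z i := by
  obtain ⟨n, hn⟩ := step_a S c y₀ ρ hρc hρ
  have hr := S.hr
  suffices h : ∃ m : ℕ, ∀ z ∈ Zs S y₀, ∃ R ∈ ρ '' Zs S y₀, ∃ v ∈ Zs S y₀,
      (∀ i : ℤ, i < S.r → v i = z i) ∧ (∀ i : ℤ, n ≤ i → i < n + S.r → v i = R i) ∧
      ∀ i : ℤ, ((n + S.r + m : ℕ) : ℤ) ≤ i → v i = z i by
    obtain ⟨m, hm⟩ := h
    exact ⟨n, n + S.r + m, by omega, hm⟩
  refine compactness (Zs S y₀) (isClosed_Zs S y₀)
    (fun m z => ∃ R ∈ ρ '' Zs S y₀, ∃ v ∈ Zs S y₀,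
      (∀ i : ℤ, i < S.r → v i = z i) ∧ (∀ i : ℤ, n ≤ i → i < n + S.r → v i = R i) ∧
      ∀ i : ℤ, ((n + S.r + m : ℕ) : ℤ) ≤ i → v i = z i) ?_ ?_
  · rintro m m' z hmm ⟨R, hR, v, hv, h1, h2, h3⟩
    exact ⟨R, hR, v, hv, h1, h2, fun i hi => h3 i (by push_cast at hi ⊢; omega)⟩
  · intro z hz
    obtain ⟨v, hv, hv1, hv2⟩ := hn z hz
    obtain ⟨v', hvX', hvπ', h1', m, _, h2'⟩ := (hρ z hz).2.2 (n + S.r)
    have hv' : v' ∈ Zs S y₀ := ⟨hvX', hvπ'.trans (hρ z hz).1.2⟩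
    refine ⟨m.toNat, n + S.r + m.toNat + S.r, fun z' hz' hzz' => ?_⟩
    set b : ℕ := n + S.r + m.toNat with hb
    -- glue `z'`, `v`, `v'`, `z'` at `0`, `n`, `b`
    have a1 : ∀ i : ℤ, 0 ≤ i → i < 0 + S.r → z' i = v i := fun i hi0 hir => by
      rw [hv1 i (by omega)]
      exact hzz' i (by omega) (by omega)
    have m1 := gl_mem hz' hv a1
    have a2 : ∀ i : ℤ, n ≤ i → i < n + S.r → gl 0 z' v i = v' i := fun i hi0 hir => by
      rw [gl_ge (by omega), hv2 i hi0, h1' i (by omega)]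
    have m2 := gl_mem m1 hv' a2
    have a3 : ∀ i : ℤ, (b : ℤ) ≤ i → i < b + S.r → gl n (gl 0 z' v) v' i = z' i :=
      fun i hi0 hir => by
        rw [gl_ge (by omega), h2' i (by omega)]
        exact (hzz' i (by omega) (by omega)).symm
    have m3 := gl_mem m2 hz' a3
    refine ⟨ρ z, ⟨z, hz, rfl⟩, _, m3, fun i hi => ?_, fun i hi1 hi2 => ?_, fun i hi => ?_⟩
    · rw [gl_lt (by omega), gl_lt' a2 (by omega), gl_lt' a1 (by omega)]
    · rw [gl_lt (by omega), gl_ge (by omega), h1' i (by omega)]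
    · exact gl_ge hi

/-- Step (c): points whose image is close to `y₀` are close to points over `y₀`. -/
theorem step_c (S : Sys A B) (y₀ : ℤ → B) (N : ℕ) :
    ∃ k : ℕ, ∀ p ∈ S.X, (∀ j : ℤ, -k ≤ j → j ≤ k → S.π p j = y₀ j) →
      ∃ z ∈ Zs S y₀, ∀ i : ℤ, 0 ≤ i → i < N → z i = p i := by
  have hK : IsClosed (S.X ∩ {p | ¬ ∃ z ∈ Zs S y₀, ∀ i : ℤ, 0 ≤ i → i < N → z i = p i}) := by
    refine S.closed.inter (isClosed_of_local _ 0 N fun p p' hpp' hp => ?_)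
    rintro ⟨z, hz, hz1⟩
    exact hp ⟨z, hz, fun i h1 h2 => by rw [hz1 i h1 h2, hpp' i h1 (by omega)]⟩
  suffices h : ∃ k : ℕ, ∀ p ∈ S.X ∩ {p | ¬ ∃ z ∈ Zs S y₀, ∀ i : ℤ, 0 ≤ i → i < N → z i = p i},
      ∃ j : ℤ, -k ≤ j ∧ j ≤ k ∧ S.π p j ≠ y₀ j by
    obtain ⟨k, hk⟩ := h
    refine ⟨k, fun p hp h => ?_⟩
    by_contra hne
    obtain ⟨j, h1, h2, h3⟩ := hk p ⟨hp, hne⟩
    exact h3 (h j h1 h2)
  refine compactness _ hK
    (fun k p => ∃ j : ℤ, -k ≤ j ∧ j ≤ k ∧ S.π p j ≠ y₀ j) ?_ ?_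
  · rintro m m' p hmm ⟨j, h1, h2, h3⟩
    exact ⟨j, by omega, by omega, h3⟩
  · rintro p ⟨hp, hne⟩
    have h1 : ∃ j, S.π p j ≠ y₀ j := by
      by_contra hall
      push Not at hall
      exact hne ⟨p, ⟨hp, funext hall⟩, fun i _ _ => rfl⟩
    obtain ⟨j, hj⟩ := h1
    refine ⟨j.natAbs, j.natAbs + S.s, fun p' _ hpp' => ⟨j, by omega, by omega, ?_⟩⟩
    rw [S.loc p' p j fun i hi1 hi2 => hpp' i (by omega) (by omega)]
    exact hj

end TB

open TB in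
/-- The existence of a transition block: over the window `[-k, L + k]` of some point `y₀` of the
image, any `c + 1` points of `X` contain two with two-way bridges at time `0`. -/
theorem exists_block (S : Sys A B) (c : ℕ) (y₀ : ℤ → B)
    (hc : (transitionClasses S.X S.π y₀).encard ≤ c) :
    ∃ L k : ℕ, ∀ u : Fin (c + 1) → (ℤ → A), (∀ i, u i ∈ S.X) →
      (∀ i, ∀ j : ℤ, -k ≤ j → j ≤ L + k → S.π (u i) j = y₀ j) →
      ∃ i j, i ≠ j ∧ Good S L 0 (u i) (u j) := by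
  obtain ⟨ρ, hρc, hρ⟩ := exists_rep S c y₀ hc
  obtain ⟨n, b, hb, hV⟩ := step_b S c y₀ ρ hρc hρ
  obtain ⟨k, hk⟩ := step_c S y₀ (b + S.r)
  have hr := S.hr
  refine ⟨b, k + S.r, fun u hu hπ => ?_⟩
  have h1 : ∀ i, ∃ R ∈ ρ '' Zs S y₀, ∃ v ∈ Zs S y₀,
      (∀ j : ℤ, 0 ≤ j → j < S.r → v j = u i j) ∧
      (∀ j : ℤ, n ≤ j → j < n + S.r → v j = R j) ∧
      ∀ j : ℤ, b ≤ j → j < b + S.r → v j = u i j := by
    intro i
    obtain ⟨z, hz, hzu⟩ := hk (u i) (hu i) fun j hj1 hj2 => hπ i j (by push_cast; omega)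
      (by push_cast; omega)
    obtain ⟨R, hR, v, hv, hv1, hv2, hv3⟩ := hV z hz
    exact ⟨R, hR, v, hv, fun j hj1 hj2 => by rw [hv1 j hj2, hzu j hj1 (by push_cast; omega)],
      hv2, fun j hj1 hj2 => by rw [hv3 j hj1, hzu j (by omega) (by push_cast; omega)]⟩
  choose R hR v hv hv1 hv2 hv3 using h1
  -- pigeonhole
  have h2 : ∃ i j, i ≠ j ∧ R i = R j := by
    by_contra hno
    push Not at hno
    have hinj : Function.Injective R := fun i j hij => by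
      by_contra hne
      exact hno i j hne hij
    have h3 : Set.range R ⊆ ρ '' Zs S y₀ := by
      rintro _ ⟨i, rfl⟩
      exact hR i
    have h4 : (Set.range R).encard = (c + 1 : ℕ) := by
      rw [← Set.image_univ, hinj.encard_image, Set.encard_univ]
      simp
    have h5 := (Set.encard_le_encard h3).trans hρc
    rw [h4] at h5
    have : c + 1 ≤ c := by exact_mod_cast h5
    omega
  obtain ⟨i, j, hij, hRij⟩ := h2
  have key : ∀ i j, R i = R j → Br S b 0 (u i) (u j) := by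
    intro i j hRij
    have hag : ∀ l : ℤ, n ≤ l → l < n + S.r → v i l = v j l := fun l hl1 hl2 => by
      rw [hv2 i l hl1 hl2, hv2 j l hl1 hl2, hRij]
    have hm := gl_mem (hv i) (hv j) hag
    refine ⟨gl n (v i) (v j), hm.1, fun l hl1 hl2 => ?_, fun l hl1 hl2 => ?_, fun l hl1 hl2 => ?_⟩
    · rw [gl_lt' hag (by omega), hv1 i l hl1 (by omega)]
    · rw [gl_ge (by omega), hv3 j l (by omega) (by omega)]
    · rw [hm.2, hπ i l (by push_cast; omega) (by push_cast; omega)]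
  exact ⟨i, j, hij, key i j hRij, key j i hRij.symm⟩

end Pool.Agent.RelEq
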